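import Mathlib

/-! The charging argument for the symmetric chain of caps, on Boolean sequences. -/

namespace Pool.Agent.P.MP_3c7b76_co.G.C3

open Finset

/-- The indicator of a Boolean. -/
def io (b : Bool) : ℤ := if b then 1 else 0

section
variable (a b n : ℕ → Bool) (i : ℕ)

/-- A covering triangle with centre `i + 1`. -/
def tt : Bool := a i && a (i + 1) && a (i + 2) && n i

/-- Features with centre `i + 4`. -/
def fT : Bool := tt a n (i + 3)
def fE : Bool := !a (i + 3) && a (i + 4) && !a (i + 5)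
def fO : Bool := a (i + 4) && a (i + 5)
def fX : Bool := a (i + 4) && a (i + 5) && !tt a n (i + 3) && !tt a n (i + 4)
def fS : Bool := tt a n (i + 3) && !tt a n (i + 2)
def fP : Bool := tt a n (i + 3) && tt a n (i + 2) && !tt a n (i + 1)
def fW : Bool := tt a n (i + 3) && tt a n (i + 2) && tt a n (i + 1) && !tt a n i
def fR : Bool := tt a n (i + 3) && tt a n (i + 2) && (tt a n (i + 1) && tt a n i)
def fY : Bool := a (i + 3) && !a (i + 4) && a (i + 5)
def fQ : Bool := tt a n (i + 3) && !(tt a n (i + 2) && tt a n (i + 1))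

/-- Three times the weight of the triangle tokens. -/
def om : ℤ := 3 * io (fS a n i) + io (fR a n i)

/-- Three times the weight of all tokens. -/
def tok : ℤ := 3 * io (fX a n i) + 3 * io (fE a i) + om a n i

/-- Three times the kernel. -/
def kk : ℤ :=
  3 * (io (fX a n i) * io (fX b n i)) + 3 * (io (fE a i) * io (fE b i)) +
    (3 * (io (fS a n i) * io (fT b n i) + io (fT a n i) * io (fS b n i) -
      io (fS a n i) * io (fS b n i)) +
    (io (fR a n i) * io (fT b n i) + io (fT a n i) * io (fR b n i) -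
      io (fR a n i) * io (fR b n i))) +
    3 * (io (fY a i) * io (fQ b n i)) + 3 * (io (fQ a n i) * io (fY b i))

/-- The memory: the second point left while the first stayed, outside all triangles. -/
def dd : ℕ → Bool
  | 0 => false
  | i + 1 => a (i + 1) && !b (i + 1) && !tt a n i && (dd i || (a i && b i))

/-- Demands of the tokens with centre `i + 2`. -/
def e0 : Bool := !a (i + 1) && a (i + 2) && !a (i + 3) && !b (i + 2)
def eL : Bool := !a (i + 1) && a (i + 2) && !a (i + 3) && b (i + 2) && b (i + 1)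
def eR : Bool := !a (i + 1) && a (i + 2) && !a (i + 3) && b (i + 2) && !b (i + 1) && b (i + 3)
def x0 : Bool := a (i + 2) && a (i + 3) && !tt a n (i + 1) && !tt a n (i + 2) && !b (i + 2) &&
  !dd a b n (i + 2)
def x1 : Bool := a (i + 2) && a (i + 3) && !tt a n (i + 1) && !tt a n (i + 2) && !b (i + 3) &&
  (dd a b n (i + 2) || b (i + 2))
def xL : Bool := a (i + 2) && a (i + 3) && !a (i + 1) && tt b n (i + 1)
def xR : Bool := a (i + 2) && a (i + 3) && !a (i + 4) && !tt b n (i + 1) && tt b n (i + 2)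

/-- The potential at the centre `i + 5`. -/
def ph : ℤ :=
  3 * io (x1 a b n (i + 2)) + om a n i * io (b (i + 4) && !b (i + 5)) + 3 * io (eR a b (i + 2)) +
    3 * io (xR a b n (i + 2)) + 3 * io (xR a b n (i + 1)) -
    om a n (i + 1) * io (b (i + 5) && !b (i + 4)) - 3 * io (eL a b (i + 3)) -
    3 * io (xL a b n (i + 3))

end

theorem splitE : ∀ a0 a1 a2 b0 b1 b2 : Bool, io (!a0 && a1 && !a2) ≤
    io (!a0 && a1 && !a2) * io (!b0 && b1 && !b2) + io (!a0 && a1 && !a2 && !b1) +
      io (!a0 && a1 && !a2 && b1 && b0) + io (!a0 && a1 && !a2 && b1 && !b0 && b2) := by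
  decide

theorem splitX : ∀ a0 a1 a2 a3 n0 n1 b1 b2 d : Bool, (d && a2 && b2) = false → ∀ b0 b3 : Bool,
    io (a1 && a2 && !(a0 && a1 && a2 && n0) && !(a1 && a2 && a3 && n1)) ≤
      io (a1 && a2 && !(a0 && a1 && a2 && n0) && !(a1 && a2 && a3 && n1)) *
        io (b1 && b2 && !(b0 && b1 && b2 && n0) && !(b1 && b2 && b3 && n1)) +
      io (a1 && a2 && !(a0 && a1 && a2 && n0) && !(a1 && a2 && a3 && n1) && !b1 && !d) +
      io (a1 && a2 && !(a0 && a1 && a2 && n0) && !(a1 && a2 && a3 && n1) && !b2 && (d || b1)) +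
      io (a1 && a2 && !a0 && (b0 && b1 && b2 && n0)) +
      io (a1 && a2 && !a3 && !(b0 && b1 && b2 && n0) && (b1 && b2 && b3 && n1)) := by
  decide +kernel

theorem splitT : ∀ A n t m b0 b1 b2 t' m' : Bool,
    3 * io (A && n && !t) + io (A && n && t && m) ≤
      (3 * (io (A && n && !t) * io (b0 && b1 && b2 && n) +
          io (A && n) * io (b0 && b1 && b2 && n && !t') -
          io (A && n && !t) * io (b0 && b1 && b2 && n && !t')) +
        (io (A && n && t && m) * io (b0 && b1 && b2 && n) +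
          io (A && n) * io (b0 && b1 && b2 && n && t' && m') -
          io (A && n && t && m) * io (b0 && b1 && b2 && n && t' && m'))) +
      (3 * io (A && n && !t) + io (A && n && t && m)) * io (!b1) +
      (3 * io (A && n && !t) + io (A && n && t && m)) * io (b1 && !b0) +
      (3 * io (A && n && !t) + io (A && n && t && m)) * io (b1 && !b2) := by
  decide +kernel

theorem load1 : ∀ a0 a1 a2 t3 t4 t5 : Bool, (t3 && !(a0 && a1)) = false →
    (t4 && !(a0 && a1 && a2)) = false → (t5 && !(a1 && a2)) = false → ∀ b0 b1 b2 d : Bool,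
    (a1 && !b1 && !t4 && (d || (a0 && b0)) && a2 && b2) = false → ∀ t0 t1 t2 : Bool,
    3 * io (!a0 && a1 && !a2 && !b1) +
      3 * io (a1 && a2 && !t4 && !t5 && !b1 && !(a1 && !b1 && !t4 && (d || (a0 && b0)))) +
      3 * io (a0 && a1 && !t3 && !t4 && !b1 && (d || b0)) +
      (3 * io (t4 && !t3) + io (t4 && t3 && (t2 && t1))) * io (!b1) +
      (3 * io (t3 && !t2) + io (t3 && t2 && (t1 && t0))) * io (b0 && !b1) +
      (3 * io (t5 && !t4) + io (t5 && t4 && (t3 && t2))) * io (b2 && !b1) ≤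
      3 * io (a1 && !b1) := by
  decide +kernel

theorem load2 : ∀ b0 b1 b2 b3 t1 t3 : Bool, (t1 && !(b0 && b1 && b2)) = false →
    (t3 && !(b2 && b3)) = false → ∀ a1 a2 a3 n : Bool, (a1 && !a2 && a3 && !n) = false →
    ∀ a0 a4 t0 : Bool,
    io (!a0 && a1 && !a2 && b1 && !b0 && b2) + io (a0 && a1 && !a2 && !t0 && t1) +
      io (!a2 && a3 && !a4 && b3 && b2) + io (a3 && a4 && !a2 && t3) ≤
      io (!a2 && b2) + io (a1 && !a2 && a3) * io (b1 && b2 && b3 && n && !(t1 && t0)) := by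
  decide +kernel

theorem io_nn (b : Bool) : 0 ≤ io b := by cases b <;> decide

theorem io_le (b : Bool) : io b ≤ 1 := by cases b <;> decide

theorem io_ne : ∀ a b : Bool, io (a && !b) + io (!a && b) = io (a != b) := by decide

theorem imp3 : ∀ a b c n : Bool, ((a && b && c && n) && !(b && c)) = false ∧
    ((a && b && c && n) && !(a && b && c)) = false ∧ ((a && b && c && n) && !(a && b)) = false := by
  decide

theorem step (a b n : ℕ → Bool) (i : ℕ)
    (h1 : (a (i + 4) && !a (i + 5) && a (i + 6) && !n (i + 4)) = false)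
    (h2 : (dd a b n (i + 5) && a (i + 6) && b (i + 6)) = false) :
    ph a b n i ≤ kk a b n (i + 1) + 3 * io (a (i + 5) != b (i + 5)) - tok a n (i + 1) +
      ph a b n (i + 1) := by
  have s1 := splitE (a (i + 4)) (a (i + 5)) (a (i + 6)) (b (i + 4)) (b (i + 5)) (b (i + 6))
  have s2 := splitX (a (i + 4)) (a (i + 5)) (a (i + 6)) (a (i + 7)) (n (i + 4)) (n (i + 5))
    (b (i + 5)) (b (i + 6)) (dd a b n (i + 5)) h2 (b (i + 4)) (b (i + 7))
  have s3 := splitT (a (i + 4) && a (i + 5) && a (i + 6)) (n (i + 4)) (tt a n (i + 3))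
    (tt a n (i + 2) && tt a n (i + 1)) (b (i + 4)) (b (i + 5)) (b (i + 6)) (tt b n (i + 3))
    (tt b n (i + 2) && tt b n (i + 1))
  have s4 := load1 (a (i + 4)) (a (i + 5)) (a (i + 6)) (tt a n (i + 3)) (tt a n (i + 4))
    (tt a n (i + 5)) (imp3 _ _ _ _).1 (imp3 _ _ _ _).2.1 (imp3 _ _ _ _).2.2 (b (i + 4))
    (b (i + 5)) (b (i + 6)) (dd a b n (i + 4)) h2 (tt a n i) (tt a n (i + 1)) (tt a n (i + 2))
  have s5 := load2 (b (i + 3)) (b (i + 4)) (b (i + 5)) (b (i + 6)) (tt b n (i + 3))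
    (tt b n (i + 5)) (imp3 _ _ _ _).2.1 (imp3 _ _ _ _).2.2 (a (i + 4)) (a (i + 5)) (a (i + 6))
    (n (i + 4)) h1 (a (i + 3)) (a (i + 7)) (tt b n (i + 2))
  have s6 := io_ne (a (i + 5)) (b (i + 5))
  have s7 := mul_nonneg (io_nn (fQ a n (i + 1))) (io_nn (fY b (i + 1)))
  change io (fE a (i + 1)) ≤ io (fE a (i + 1)) * io (fE b (i + 1)) + io (e0 a b (i + 3)) +
    io (eL a b (i + 3)) + io (eR a b (i + 1 + 2)) at s1
  change io (fX a n (i + 1)) ≤ io (fX a n (i + 1)) * io (fX b n (i + 1)) + io (x0 a b n (i + 3)) +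
    io (x1 a b n (i + 1 + 2)) + io (xL a b n (i + 3)) + io (xR a b n (i + 1 + 2)) at s2
  change om a n (i + 1) ≤ (3 * (io (fS a n (i + 1)) * io (fT b n (i + 1)) +
      io (fT a n (i + 1)) * io (fS b n (i + 1)) - io (fS a n (i + 1)) * io (fS b n (i + 1))) +
    (io (fR a n (i + 1)) * io (fT b n (i + 1)) + io (fT a n (i + 1)) * io (fR b n (i + 1)) -
      io (fR a n (i + 1)) * io (fR b n (i + 1)))) + om a n (i + 1) * io (!b (i + 5)) +
    om a n (i + 1) * io (b (i + 5) && !b (i + 4)) +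
    om a n (i + 1) * io (b (i + 1 + 4) && !b (i + 1 + 5)) at s3
  change 3 * io (e0 a b (i + 3)) + 3 * io (x0 a b n (i + 3)) + 3 * io (x1 a b n (i + 2)) +
    om a n (i + 1) * io (!b (i + 5)) + om a n i * io (b (i + 4) && !b (i + 5)) +
    om a n (i + 1 + 1) * io (b (i + 1 + 5) && !b (i + 1 + 4)) ≤ _ at s4
  change io (eR a b (i + 2)) + io (xR a b n (i + 1)) + io (eL a b (i + 1 + 3)) +
    io (xL a b n (i + 1 + 3)) ≤ _ + io (fY a (i + 1)) * io (fQ b n (i + 1)) at s5
  have s8 : io (xR a b n (i + 1 + 1)) = io (xR a b n (i + 2)) := rfl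
  unfold ph kk tok
  linarith

theorem om_bd (a n : ℕ → Bool) (i : ℕ) (c : Bool) :
    0 ≤ om a n i * io c ∧ om a n i * io c ≤ 4 := by
  unfold om
  generalize fS a n i = s
  generalize fR a n i = r
  revert s r c
  decide

theorem ph_bd (a b n : ℕ → Bool) (i : ℕ) : -10 ≤ ph a b n i ∧ ph a b n i ≤ 16 := by
  have h1 := om_bd a n i (b (i + 4) && !b (i + 5))
  have h2 := om_bd a n (i + 1) (b (i + 5) && !b (i + 4))
  unfold ph
  constructor
  · linarith [io_nn (x1 a b n (i + 2)), io_nn (eR a b (i + 2)), io_nn (xR a b n (i + 2)),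
      io_nn (xR a b n (i + 1)), io_le (eL a b (i + 3)), io_le (xL a b n (i + 3)), h1.1, h2.2]
  · linarith [io_le (x1 a b n (i + 2)), io_le (eR a b (i + 2)), io_le (xR a b n (i + 2)),
      io_le (xR a b n (i + 1)), io_nn (eL a b (i + 3)), io_nn (xL a b n (i + 3)), h1.2, h2.1]

/-- The charging inequality. -/
theorem charge (a b n : ℕ → Bool) (T : ℕ)
    (h1 : ∀ i < T, (a (i + 4) && !a (i + 5) && a (i + 6) && !n (i + 4)) = false)
    (h2 : ∀ i < T, (dd a b n (i + 5) && a (i + 6) && b (i + 6)) = false) :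
    ∑ i ∈ range T, tok a n (i + 1) ≤ ∑ i ∈ range T, kk a b n (i + 1) + 26 +
      ∑ i ∈ range T, 3 * io (a (i + 5) != b (i + 5)) := by
  have key : ph a b n 0 + ∑ i ∈ range T, tok a n (i + 1) ≤ ∑ i ∈ range T, kk a b n (i + 1) +
      ∑ i ∈ range T, 3 * io (a (i + 5) != b (i + 5)) + ph a b n T := by
    induction T with
    | zero => simp
    | succ T ih =>
      rw [sum_range_succ, sum_range_succ, sum_range_succ]
      linarith [ih (fun i hi => h1 i (by omega)) (fun i hi => h2 i (by omega)),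
        step a b n T (h1 T (by omega)) (h2 T (by omega))]
  linarith [(ph_bd a b n 0).1, (ph_bd a b n T).2]

theorem kk_comm (a b n : ℕ → Bool) (i : ℕ) : kk a b n i = kk b a n i := by
  unfold kk
  ring

theorem kk_nn (a b n : ℕ → Bool) (i : ℕ) : 0 ≤ kk a b n i := by
  have key : ∀ t x t' x' : Bool, 0 ≤ io (t && x) * io t' + io t * io (t' && x') -
      io (t && x) * io (t' && x') := by decide
  have h1 := key (fT a n i) (!tt a n (i + 2)) (fT b n i) (!tt b n (i + 2))
  have h2 := key (fT a n i) (tt a n (i + 2) && (tt a n (i + 1) && tt a n i)) (fT b n i)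
    (tt b n (i + 2) && (tt b n (i + 1) && tt b n i))
  rw [← Bool.and_assoc, ← Bool.and_assoc (fT b n i)] at h2
  change 0 ≤ io (fS a n i) * _ + _ * io (fS b n i) - io (fS a n i) * io (fS b n i) at h1
  change 0 ≤ io (fR a n i) * _ + _ * io (fR b n i) - io (fR a n i) * io (fR b n i) at h2
  unfold kk
  linarith [mul_nonneg (io_nn (fX a n i)) (io_nn (fX b n i)),
    mul_nonneg (io_nn (fE a i)) (io_nn (fE b i)), mul_nonneg (io_nn (fY a i)) (io_nn (fQ b n i)),
    mul_nonneg (io_nn (fQ a n i)) (io_nn (fY b i))]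

end Pool.Agent.P.MP_3c7b76_co.G.C3
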