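import Pool.Agent.P.MP_3c7b76_co.G.Cap3
import Pool.Agent.P.MP_3c7b76_co.G.C3b

/-! Geometry of the symmetric chain of caps. -/

set_option linter.unusedSectionVars false

namespace Pool.Agent.P.MP_3c7b76_co.G.C3

open Finset S

variable {V : Type} [Fintype V] [DecidableEq V] {M : ℕ} {k : ℤ → V → ℝ}

/-- Three down sets around a full turn with a common point cover everything. -/
theorem cover (h : Allow M k) {a b c : ℤ} (h1 : b ≤ a + M) (h2 : a + M ≤ c) (h3 : c ≤ b + M)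
    {A B C : Finset V} (hA : Dn (k a) A) (hB : Dn (k b) B) (hC : Dn (k c) C) {P : V}
    (pA : P ∈ A) (pB : P ∈ B) (pC : P ∈ C) (Q : V) : Q ∈ A ∨ Q ∈ B ∨ Q ∈ C := by
  by_contra hn
  simp only [not_or] at hn
  exact lt_asymm (hA P Q pA hn.1) ((h.rev a P Q).1
    (h.conv b (a + M) c P Q h1 h2 h3 (hB P Q pB hn.2.1) (hC P Q pC hn.2.2)))

/-- A chain of down sets with nonempty private parts. -/
structure Chn (M : ℕ) (k : ℤ → V → ℝ) (θ : ℕ → ℤ) (H : ℕ → Finset V) (T : ℕ) : Prop where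
  dn : ∀ t, Dn (k (θ t)) (H t)
  st : ∀ t, θ t ≤ θ (t + 1) ∧ θ (t + 1) ≤ θ t + M
  ne : ∀ t < T, (H (t + 1) \ (H t ∪ H (t + 2))).Nonempty

/-- The membership pattern of a point. -/
def pt (H : ℕ → Finset V) (u : V) (i : ℕ) : Bool := decide (u ∈ H i)

/-- The flags of nonconvex centres. -/
def nc (M : ℕ) (θ : ℕ → ℤ) (i : ℕ) : Bool := decide (θ i + M < θ (i + 2))

variable {θ : ℕ → ℤ} {H : ℕ → Finset V} {T : ℕ} (h : Allow M k) (c : Chn M k θ H T)
include h c

omit h in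
theorem Chn.mono : Monotone θ := monotone_nat_of_le_succ fun t => (c.st t).1

theorem Chn.glob (P m : ℕ) (hm : P + m ≤ T + 1) (ht : θ (P + m) ≤ θ P + M) {x : V}
    (h1 : x ∈ H P) (h2 : x ∈ H (P + m)) : ∀ i ≤ m, x ∈ H (P + i) := by
  induction m generalizing x with
  | zero => intro i hi; rwa [show i = 0 by omega]
  | succ m ih =>
    have ht' : θ (P + m) ≤ θ P + M := (c.mono (by omega)).trans ht
    have key : x ∈ H (P + m) := by
      cases m with
      | zero => exact h1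
      | succ m =>
        by_contra hx
        obtain ⟨e, he⟩ := c.ne (P + m) (by omega)
        simp only [mem_sdiff, mem_union, not_or] at he
        have e1 : e ∉ H P := fun e1 => he.2.1 (ih (by omega) ht' e1 he.1 m (by omega))
        exact lt_asymm (c.dn _ e x he.1 hx) (h.conv _ _ _ x e (c.mono (by omega))
          (c.mono (by omega)) ht (c.dn _ x e h1 e1) (c.dn _ x e h2 he.2.2))
    intro i hi
    rcases hi.eq_or_lt with rfl | hi
    · exact h2
    · exact ih (by omega) ht' h1 key i (by omega)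

theorem Chn.turn {q i : ℕ} (hq : q ≤ i) (hi : i < T) {u : V} (u1 : u ∈ H q) (u2 : u ∈ H i)
    (u3 : u ∈ H (i + 2)) (t1 : θ (i + 1) ≤ θ q + M) (t2 : θ (i + 2) ≤ θ i + M) :
    θ (i + 2) ≤ θ q + M := by
  by_contra hn
  obtain ⟨e, he⟩ := c.ne i hi
  simp only [mem_sdiff, mem_union, not_or] at he
  have e1 := (cover h ((c.st i).1.trans t1) (not_le.1 hn).le t2 (c.dn q) (c.dn i) (c.dn (i + 2))
    u1 u2 u3 e).resolve_right fun o => o.elim he.2.1 he.2.2
  obtain ⟨d, rfl⟩ := Nat.exists_eq_add_of_le hq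
  exact he.2.1 (c.glob h q (d + 1) (by omega) t1 e1 he.1 d (by omega))

theorem Chn.zig {i : ℕ} (hi : i < T) (u : V) :
    (pt H u i && !pt H u (i + 1) && pt H u (i + 2) && !nc M θ i) = false := by
  rw [Bool.eq_false_iff]
  intro e
  simp only [pt, nc, Bool.and_eq_true, decide_eq_true_eq, Bool.not_eq_true',
    decide_eq_false_iff_not, not_lt] at e
  exact e.1.1.2 (c.glob h i 2 (by omega) e.2 e.1.1.1 e.1.2 1 (by omega))

theorem Chn.mem (u v : V) (i : ℕ) (hi : i < T)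
    (hd : dd (pt H u) (pt H v) (nc M θ) (i + 1) = true) (hu : u ∈ H (i + 2)) :
    ∃ q ≤ i, u ∈ H q ∧ v ∈ H q ∧ θ (i + 2) ≤ θ q + M := by
  have key : u ∈ H i ∧ ∃ q ≤ i, u ∈ H q ∧ v ∈ H q ∧ θ (i + 1) ≤ θ q + M := by
    have e := hd
    simp only [dd, Bool.and_eq_true, Bool.or_eq_true] at e
    rcases e.2 with e2 | e2
    · cases i with
      | zero => simp [dd] at e2
      | succ i =>
        obtain ⟨q, q1, q2⟩ := Chn.mem u v i (by omega) e2 (of_decide_eq_true e.1.1.1)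
        simp only [dd, Bool.and_eq_true] at e2
        exact ⟨of_decide_eq_true e2.1.1.1, q, by omega, q2⟩
    · exact ⟨of_decide_eq_true e2.1, i, le_rfl, of_decide_eq_true e2.1, of_decide_eq_true e2.2,
        (c.st i).2⟩
  obtain ⟨u1, q, q1, q2, q3, q4⟩ := key
  refine ⟨q, q1, q2, q3, c.turn h q1 hi q2 u1 hu q4 ?_⟩
  simp only [dd, tt, pt, nc, Bool.and_eq_true, decide_eq_true_eq, Bool.not_eq_true',
    Bool.and_eq_false_imp, decide_eq_false_iff_not, not_lt] at hd
  exact hd.1.2 ⟨⟨u1, hd.1.1.1⟩, hu⟩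

theorem Chn.memo (u v : V) (i : ℕ) (hi : i < T) :
    (dd (pt H u) (pt H v) (nc M θ) (i + 1) && pt H u (i + 2) && pt H v (i + 2)) = false := by
  rw [Bool.eq_false_iff]
  intro e
  rw [Bool.and_eq_true, Bool.and_eq_true] at e
  obtain ⟨q, q1, -, q3, q4⟩ := c.mem h u v i hi e.1.1 (of_decide_eq_true e.1.2)
  obtain ⟨d, rfl⟩ := Nat.exists_eq_add_of_le q1
  have e1 := c.glob h q (d + 2) (by omega) q4 q3 (of_decide_eq_true e.2) (d + 1) (by omega)
  have e2 := e.1.1
  simp only [dd, pt, Bool.and_eq_true, Bool.not_eq_true', decide_eq_false_iff_not] at e2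
  exact e2.1.1.2 e1

theorem Chn.cov {i : ℕ} {u : V} (hu : tt (pt H u) (nc M θ) i = true) (v : V) :
    (pt H v i || pt H v (i + 1) || pt H v (i + 2)) = true := by
  simp only [tt, pt, nc, Bool.and_eq_true, decide_eq_true_eq] at hu
  simp only [pt, Bool.or_eq_true, decide_eq_true_eq, or_assoc]
  exact cover h (c.st i).2 hu.2.le (c.st (i + 1)).2 (c.dn _) (c.dn _) (c.dn _) hu.1.1.1 hu.1.1.2
    hu.1.2 v

end Pool.Agent.P.MP_3c7b76_co.G.C3
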