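import Pool.Agent.P.MP_3c7b76_co.S.Pot

/-! The duality frame: potentials and kernels give lower bounds for cuts. -/

set_option linter.unusedSectionVars false

namespace Pool.Agent.P.MP_3c7b76_co.G

open Finset S

variable {V : Type} [Fintype V] [DecidableEq V] {w : V → V → ℝ} {d c : ℝ}

/-- The layer cake bound for real functions. -/
theorem layerR (hb : ∀ Y, 0 ≤ pot w d Y) (F : V → ℝ) (hF : ∀ u, 0 ≤ F u) :
    ∑ u, ∑ v, w u v * min (F u) (F v) ≤ d * ∑ u, F u := by
  induction h : (univ.filter fun u => 0 < F u).card using Nat.strong_induction_on generalizing F with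
  | _ n ih =>
  rcases (univ.filter fun u => 0 < F u).eq_empty_or_nonempty with e | e
  · have : ∀ u, F u = 0 := fun u => (hF u).antisymm' (not_lt.1 fun h =>
      notMem_empty u (e ▸ mem_filter.2 ⟨mem_univ u, h⟩))
    simp [this]
  obtain ⟨a, ha, hm⟩ := exists_min_image _ F e
  have ha' := (mem_filter.1 ha).2
  set Y := univ.filter fun u => 0 < F u with hY
  have z : ∀ u, u ∉ Y → F u = 0 := fun u hu => (hF u).antisymm' (not_lt.1 fun h =>
    hu (mem_filter.2 ⟨mem_univ u, h⟩))
  have h1 := ih _ ?_ (fun u => F u - if u ∈ Y then F a else 0) (fun u => ?_) rfl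
  · have h2 := mul_nonneg ha'.le (hb Y)
    have h3 : ∑ u, ∑ v, w u v * min (F u) (F v) = ∑ u, ∑ v, w u v *
        min (F u - if u ∈ Y then F a else 0) (F v - if v ∈ Y then F a else 0) +
        F a * ew w Y Y := by
      unfold ew
      rw [← sum_ite_mem_eq Y, mul_sum, ← sum_add_distrib]
      refine sum_congr rfl fun u _ => ?_
      by_cases hu : u ∈ Y
      · rw [if_pos hu, if_pos hu, ← sum_ite_mem_eq Y, mul_sum, ← sum_add_distrib]
        refine sum_congr rfl fun v _ => ?_
        by_cases hv : v ∈ Y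
        · rw [if_pos hv, if_pos hv, min_sub_sub_right]; ring
        · rw [if_neg hv, if_neg hv, z v hv, sub_zero, min_eq_right (hF u),
            min_eq_right (sub_nonneg.2 (hm u hu))]
          ring
      · rw [if_neg hu, if_neg hu, mul_zero, add_zero, z u hu, sub_zero]
        refine sum_congr rfl fun v _ => ?_
        rw [min_eq_left (hF v), min_eq_left]
        split_ifs with hv
        · exact sub_nonneg.2 (hm v hv)
        · simpa using hF v
    rw [sum_sub_distrib, sum_ite_mem_eq, sum_const, nsmul_eq_mul] at h1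
    unfold pot at h2
    rw [h3]
    linarith
  · rw [← h]
    refine card_lt_card ⟨fun u hu => ?_, fun hc => ?_⟩
    · by_contra hn
      have := (mem_filter.1 hu).2
      rw [if_neg hn, z u hn] at this
      simp at this
    · have := (mem_filter.1 (hc ha)).2
      rw [if_pos ha] at this
      simp at this
  · split_ifs with hu
    · exact sub_nonneg.2 (hm u hu)
    · simpa using hF u

theorem max_ge (h0 : pot w d univ = 0) (hb : ∀ Y, 0 ≤ pot w d Y) (l : V → ℝ) :
    d * ∑ u, l u ≤ ∑ u, ∑ v, w u v * max (l u) (l v) := by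
  obtain ⟨A, hA⟩ := (Set.finite_range l).bddAbove
  have h1 := layerR hb (fun u => A - l u) fun u => sub_nonneg.2 (hA ⟨u, rfl⟩)
  simp only [min_sub_sub_left, mul_sub, sum_sub_distrib, ← sum_mul, sum_const,
    nsmul_eq_mul] at h1
  unfold pot ew at h0
  have h2 : (∑ u, ∑ v, w u v) * A = d * ((univ : Finset V).card * A) := by
    rw [← mul_assoc]; congr 1; linarith
  linarith

/-- Weak duality. -/
theorem dual (hw : Wt w) (h0 : pot w d univ = 0) (hb : ∀ Y, 0 ≤ pot w d Y) (l : V → ℝ)
    (K D : V → V → ℝ) (hK : ∀ u v, 0 ≤ K u v) (h1 : ∀ u v, l u ≤ K u v + D u v)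
    (h2 : ∀ u v, l v ≤ K u v + D u v) :
    d * ∑ u, l u - ∑ u, ∑ v, K u v ≤ ∑ u, ∑ v, w u v * D u v := by
  refine sub_le_iff_le_add'.2 ((max_ge h0 hb l).trans ?_)
  rw [← sum_add_distrib]
  refine sum_le_sum fun u _ => ?_
  rw [← sum_add_distrib]
  refine sum_le_sum fun v _ => ?_
  have a1 := mul_le_mul_of_nonneg_left (max_le (h1 u v) (h2 u v)) (hw.nn u v)
  have a2 := mul_le_of_le_one_left (hK u v) (hw.le u v)
  linarith

/-- The indicator of separation by a set. -/
def sp (H : Finset V) (u v : V) : ℝ := if (u ∈ H ↔ v ∈ H) then 0 else 1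

theorem sp_comm (H : Finset V) (u v : V) : sp H u v = sp H v u := by
  unfold sp; simp only [iff_comm]

theorem sum_sp (hw : Wt w) (H : Finset V) : ∑ u, ∑ v, w u v * sp H u v = 2 * ew w H Hᶜ := by
  rw [two_mul]
  nth_rewrite 2 [ew_comm hw]
  unfold ew
  rw [← sum_add_sum_compl H]
  congr 1
  · refine sum_congr rfl fun u hu => ?_
    rw [← sum_add_sum_compl H, sum_eq_zero fun v hv => by simp [sp, hu, hv], zero_add]
    exact sum_congr rfl fun v hv => by simp [sp, hu, mem_compl.1 hv]
  · refine sum_congr rfl fun u hu => ?_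
    rw [← sum_add_sum_compl H, sum_eq_zero (s := Hᶜ) fun v hv => by
      simp [sp, mem_compl.1 hu, mem_compl.1 hv], add_zero]
    exact sum_congr rfl fun v hv => by simp [sp, mem_compl.1 hu, hv]

/-- Weak duality for a weighted family of cuts, with an additive constant `C`. -/
theorem frame (hw : Wt w) (h0 : pot w d univ = 0) (hb : ∀ Y, 0 ≤ pot w d Y) {ι : Type}
    (s : Finset ι) (H : ι → Finset V) (a : ι → ℝ) (ha : ∀ t ∈ s, 0 ≤ a t)
    (hc : ∀ t ∈ s, ew w (H t) (H t)ᶜ ≤ c) (l : V → ℝ) (K : V → V → ℝ) (C : ℝ)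
    (hs : ∀ u v, K u v = K v u) (hK : ∀ u v, -C ≤ K u v)
    (h1 : ∀ u v, l u ≤ K u v + C + ∑ t ∈ s, a t * sp (H t) u v) :
    d * ∑ u, l u - ∑ u, ∑ v, K u v - C * (Fintype.card V : ℝ) ^ 2 ≤ 2 * c * ∑ t ∈ s, a t := by
  have h := dual hw h0 hb l (fun u v => K u v + C) (fun u v => ∑ t ∈ s, a t * sp (H t) u v)
    (fun u v => by linarith [hK u v]) h1 fun u v => by
      have := h1 v u
      simp only [hs v u, sp_comm _ v u] at this
      exact this
  have e1 : ∑ u, ∑ v, w u v * ∑ t ∈ s, a t * sp (H t) u v =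
      ∑ t ∈ s, a t * (2 * ew w (H t) (H t)ᶜ) := by
    simp only [← sum_sp hw, mul_sum]
    rw [sum_comm (s := s)]
    refine sum_congr rfl fun u _ => ?_
    rw [sum_comm]
    exact sum_congr rfl fun t _ => sum_congr rfl fun v _ => by ring
  have e2 : ∑ t ∈ s, a t * (2 * ew w (H t) (H t)ᶜ) ≤ 2 * c * ∑ t ∈ s, a t := by
    rw [mul_sum]
    exact sum_le_sum fun t ht => by nlinarith [ha t ht, hc t ht]
  simp only [sum_add_distrib, sum_const, card_univ, nsmul_eq_mul] at h
  rw [e1] at h
  linarith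

end Pool.Agent.P.MP_3c7b76_co.G
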