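import Pool.Agent.P.MP_3c7b76_co.Main
import Pool.Agent.P.MP_3c7b76_co.S.Main

/-! Reduction of the full statement to an asymptotic statement on allowable sequences. -/

namespace Pool.Agent.P.MP_3c7b76_co.G

open Finset Filter Topology S

/-- The asymptotic bound for balanced weights on `N * j` points. -/
def CoreAt (N : ℝ) : Prop :=
  ∀ ε : ℝ, 0 < ε → ∃ j₀ : ℕ, ∀ (V : Type) [Fintype V] [DecidableEq V] (M : ℕ) (k : ℤ → V → ℝ)
    (w : V → V → ℝ) (j : ℕ) (c : ℝ), j₀ ≤ j → Wt w → Allow M k → 0 < M →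
    (∀ i H, Dn (k i) H → ew w H Hᶜ ≤ c) → pot w (2 * j) univ = 0 → (∀ Y, 0 ≤ pot w (2 * j) Y) →
    (Fintype.card V : ℝ) = N * j → Even (Fintype.card V) → (1 - ε) * (j : ℝ) ^ 2 ≤ c

theorem ev_lin {A B : ℝ} (hA : A ≠ 0) : ∀ᶠ ε in 𝓝[>] (0 : ℝ), A * ε + B ≠ 0 := by
  by_cases hB : B = 0
  · filter_upwards [self_mem_nhdsWithin] with ε hε
    rw [hB, add_zero]
    exact mul_ne_zero hA (ne_of_gt hε)
  · refine nhdsWithin_le_nhds (ContinuousAt.eventually_ne (g := fun ε : ℝ => A * ε + B)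
      (by fun_prop) (by simpa using hB))

theorem ev_quad {A B C : ℝ} (hA : A ≠ 0) :
    ∀ᶠ ε in 𝓝[>] (0 : ℝ), (A * ε + B) * ε + C ≠ 0 := by
  by_cases hC : C = 0
  · filter_upwards [self_mem_nhdsWithin, ev_lin (B := B) hA] with ε hε h
    rw [hC, add_zero]
    exact mul_ne_zero h (ne_of_gt hε)
  · refine nhdsWithin_le_nhds (ContinuousAt.eventually_ne (g := fun ε : ℝ => (A * ε + B) * ε + C)
      (by fun_prop) (by simpa using hC))

theorem robust {V : Type} [Fintype V] [DecidableEq V] (X Y : V → ℝ) (H : Finset V) :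
    ∀ᶠ η in 𝓝[>] (0 : ℝ), ∀ α β : ℝ, α ^ 2 + β ^ 2 = 1 →
      (∀ a b, a ∉ H → b ∈ H → α * X b + β * Y b ≤ α * X a + β * Y a + η) →
      ∃ α β : ℝ, α ^ 2 + β ^ 2 = 1 ∧
        ∀ a b, a ∉ H → b ∈ H → α * X b + β * Y b ≤ α * X a + β * Y a := by
  let f : ℝ × ℝ → ℝ := fun u => ∑ a ∈ Hᶜ, ∑ b ∈ H,
    max (u.1 * X b + u.2 * Y b - (u.1 * X a + u.2 * Y a)) 0
  have hK : IsCompact {u : ℝ × ℝ | u.1 ^ 2 + u.2 ^ 2 = 1} := by
    refine (isCompact_Icc (a := (-1, -1)) (b := (1, 1))).of_isClosed_subset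
      (isClosed_eq (by fun_prop) continuous_const) fun u hu => ?_
    have hu' : u.1 ^ 2 + u.2 ^ 2 = 1 := hu
    exact ⟨⟨by nlinarith [sq_nonneg u.2], by nlinarith [sq_nonneg u.1]⟩,
      ⟨by nlinarith [sq_nonneg u.2], by nlinarith [sq_nonneg u.1]⟩⟩
  obtain ⟨u, hu, hmin⟩ := hK.exists_isMinOn (f := f) ⟨(1, 0), by simp⟩ (by fun_prop)
  have h0 : ∀ a ∈ Hᶜ, 0 ≤ ∑ b ∈ H, max (u.1 * X b + u.2 * Y b - (u.1 * X a + u.2 * Y a)) 0 :=
    fun a _ => sum_nonneg fun b _ => le_max_right _ _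
  rcases (sum_nonneg h0).eq_or_lt with e | e
  · refine Eventually.of_forall fun η _ _ _ _ => ⟨u.1, u.2, hu, fun a b ha hb => ?_⟩
    have e1 := (sum_eq_zero_iff_of_nonneg h0).1 e.symm a (mem_compl.2 ha)
    have e2 := (sum_eq_zero_iff_of_nonneg fun b _ => le_max_right _ _).1 e1 b hb
    linarith [le_max_left (u.1 * X b + u.2 * Y b - (u.1 * X a + u.2 * Y a)) 0]
  · have : ∀ᶠ η in 𝓝 (0 : ℝ), ∑ _a ∈ Hᶜ, ∑ _b ∈ H, η < f u :=
      ContinuousAt.eventually_lt (f := fun η : ℝ => ∑ _a ∈ Hᶜ, ∑ _b ∈ H, η) (by fun_prop)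
        continuousAt_const (by simpa using e)
    filter_upwards [self_mem_nhdsWithin, nhdsWithin_le_nhds this] with η h1 h2 α β h3 h4
    refine absurd (h2.trans_le (hmin (a := (α, β)) h3)) (not_lt.2 ?_)
    exact sum_le_sum fun a ha => sum_le_sum fun b hb =>
      max_le (by linarith [h4 a b (mem_compl.1 ha) hb]) (le_of_lt h1)

/-- An allowable sequence for an arbitrary point family. -/
theorem allow_any {V : Type} [Fintype V] [DecidableEq V] (X Y : V → ℝ) :
    ∃ (M : ℕ) (k : ℤ → V → ℝ), 0 < M ∧ Allow M k ∧ ∀ i H, Dn (k i) H →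
      ∃ α β : ℝ, (α ≠ 0 ∨ β ≠ 0) ∧
        ∀ a b, a ∉ H → b ∈ H → α * X b + β * Y b ≤ α * X a + β * Y a := by
  obtain ⟨t, ht⟩ : ∃ t : V → ℝ, Function.Injective t :=
    ⟨fun a => ((Fintype.equivFin V a : ℕ) : ℝ), fun a b h =>
      (Fintype.equivFin V).injective (Fin.ext (Nat.cast_injective h))⟩
  obtain ⟨η, hη, h0⟩ := ((eventually_all.2 (robust X Y)).and self_mem_nhdsWithin).exists
  have h0' : (0 : ℝ) < η / 2 := half_pos h0
  have e1 : ∀ᶠ ε in 𝓝[>] (0 : ℝ), ∀ q : V × V, q.1 ≠ q.2 →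
      (t q.2 - t q.1) * ε + (X q.2 - X q.1) ≠ 0 := eventually_all.2 fun q => by
    by_cases c : q.1 = q.2
    · exact Eventually.of_forall fun _ h => absurd c h
    · exact (ev_lin (sub_ne_zero.2 fun h => c (ht h).symm)).mono fun _ h _ => h
  have e2 : ∀ᶠ ε in 𝓝[>] (0 : ℝ), ∀ q : V × V × V, q.1 ≠ q.2.1 → q.2.1 ≠ q.2.2 → q.1 ≠ q.2.2 →
      (X q.2.1 + ε * t q.2.1 - (X q.1 + ε * t q.1)) *
        (Y q.2.2 + ε * t q.2.2 ^ 2 - (Y q.1 + ε * t q.1 ^ 2)) -
      (Y q.2.1 + ε * t q.2.1 ^ 2 - (Y q.1 + ε * t q.1 ^ 2)) *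
        (X q.2.2 + ε * t q.2.2 - (X q.1 + ε * t q.1)) ≠ 0 := eventually_all.2 fun q => by
    obtain ⟨a, b, c⟩ := q
    by_cases hc : a ≠ b ∧ b ≠ c ∧ a ≠ c
    · refine (ev_quad (A := (t b - t a) * (t c - t a) * (t c - t b))
        (B := (X b - X a) * (t c ^ 2 - t a ^ 2) + (t b - t a) * (Y c - Y a) -
          (Y b - Y a) * (t c - t a) - (t b ^ 2 - t a ^ 2) * (X c - X a))
        (C := (X b - X a) * (Y c - Y a) - (Y b - Y a) * (X c - X a))
        (mul_ne_zero (mul_ne_zero (sub_ne_zero.2 fun h => hc.1 (ht h).symm)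
          (sub_ne_zero.2 fun h => hc.2.2 (ht h).symm))
          (sub_ne_zero.2 fun h => hc.2.1 (ht h).symm))).mono fun ε h _ _ _ e => h ?_
      simp only at e
      linarith
    · exact Eventually.of_forall fun _ x y z => absurd ⟨x, y, z⟩ hc
  have e3 : ∀ᶠ ε in 𝓝[>] (0 : ℝ), ∀ a, |ε * t a| + |ε * t a ^ 2| < η / 2 :=
    eventually_all.2 fun a => nhdsWithin_le_nhds (ContinuousAt.eventually_lt
      (f := fun ε : ℝ => |ε * t a| + |ε * t a ^ 2|) (by fun_prop) continuousAt_const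
      (by simpa using h0'))
  obtain ⟨ε, ⟨a1, a2⟩, a3⟩ := ((e1.and e2).and e3).exists
  obtain ⟨M, φ, hM, hA⟩ := exists_allow (fun a => X a + ε * t a) (fun a => Y a + ε * t a ^ 2)
    (fun a b h => Or.inl fun e => a1 (a, b) h (by simp only; linarith))
    fun a b c x y z => a2 (a, b, c) x y z
  refine ⟨M, _, hM, hA, fun i H hH => ?_⟩
  have key : ∀ a, |Real.cos (φ i) * (ε * t a) + Real.sin (φ i) * (ε * t a ^ 2)| < η / 2 := by
    intro a
    refine ((abs_add_le _ _).trans ?_).trans_lt (a3 a)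
    rw [abs_mul (Real.cos _), abs_mul (Real.sin _)]
    exact add_le_add (mul_le_of_le_one_left (abs_nonneg _) (Real.abs_cos_le_one _))
      (mul_le_of_le_one_left (abs_nonneg _) (Real.abs_sin_le_one _))
  obtain ⟨α, β, b1, b2⟩ := hη H (Real.cos (φ i)) (Real.sin (φ i)) (Real.cos_sq_add_sin_sq _)
    fun a b ha hb => by
      have c1 := hH b a hb ha
      have c2 := abs_lt.1 (key a)
      have c3 := abs_lt.1 (key b)
      simp only at c1
      linarith [c2.2, c3.1]
  refine ⟨α, β, ?_, b2⟩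
  by_contra c
  simp only [not_or, not_not] at c
  rw [c.1, c.2] at b1
  simp at b1

open Classical in
theorem blow (core : ∀ N : ℝ, 4 < N → N < 8 → CoreAt N) {U : Type} [Fintype U] [LinearOrder U]
    (p : U → EuclideanSpace ℝ (Fin 2)) (G : SimpleGraph U) (e : ℕ)
    (he : ∑ u, ∑ v, (if G.Adj u v then (1 : ℝ) else 0) = 2 * e)
    (hb : ∀ Y : Finset U, (∑ u ∈ Y, ∑ v ∈ Y, if G.Adj u v then (1 : ℝ) else 0) * Fintype.card U ≤
      2 * e * Y.card)
    (h4 : 4 * e < Fintype.card U ^ 2) (h8 : Fintype.card U ^ 2 < 8 * e) :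
    ∃ L : AffineSubspace ℝ (EuclideanSpace ℝ (Fin 2)), Module.finrank ℝ L.direction = 1 ∧
      ((e : ℝ) / Fintype.card U) ^ 2 ≤ (({q : U × U | q.1 < q.2 ∧ G.Adj q.1 q.2 ∧
        ((L : Set (EuclideanSpace ℝ (Fin 2))) ∩ segment ℝ (p q.1) (p q.2)).Nonempty}).ncard : ℝ) := by
  by_contra hc
  simp only [not_exists, not_and, not_le] at hc
  set n := Fintype.card U with hn
  have e0 : 0 < e := by omega
  have e0' : (0 : ℝ) < e := by exact_mod_cast e0
  have n0 : 0 < n := by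
    rcases Nat.eq_zero_or_pos n with h | h
    · rw [h] at h4; omega
    · exact h
  have n0' : (0 : ℝ) < n := by exact_mod_cast n0
  set r : ℝ := ((e : ℝ) / n) ^ 2 with hr
  have r0 : 0 < r := by positivity
  have r1 : (⌈r⌉₊ : ℝ) - 1 < r := by linarith [Nat.ceil_lt_add_one r0.le]
  obtain ⟨j₀, hj⟩ := core ((n : ℝ) ^ 2 / e)
    (by rw [lt_div_iff₀ e0']; exact_mod_cast h4) (by rw [div_lt_iff₀ e0']; exact_mod_cast h8)
    ((r - (⌈r⌉₊ - 1)) / (2 * r)) (div_pos (by linarith) (by linarith))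
  obtain ⟨s, hs⟩ : ∃ s, s = 2 * n * (j₀ + 1) := ⟨_, rfl⟩
  have hs' : (s : ℝ) = 2 * n * (j₀ + 1) := by exact_mod_cast hs
  have s0 : (0 : ℝ) < s := by rw [hs']; positivity
  obtain ⟨M, k, hM, hA, hk⟩ := allow_any (V := U × Fin s) (fun a => p a.1 0) (fun a => p a.1 1)
  let w0 : U → U → ℝ := fun a b => if G.Adj a b then 1 else 0
  let w : U × Fin s → U × Fin s → ℝ := fun a b => w0 a.1 b.1
  have hw : Wt w := ⟨fun u v => by simp only [w, w0]; split_ifs <;> norm_num,
    fun u v => by simp only [w, w0]; split_ifs <;> norm_num,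
    fun u v => by simp only [w, w0, G.adj_comm], fun u => by simp [w, w0]⟩
  have hcard : Fintype.card (U × Fin s) = n * s := by
    rw [Fintype.card_prod, Fintype.card_fin]
  have hF : ∀ (Y : Finset (U × Fin s)) (f : U → ℝ), ∑ a ∈ Y, f a.1 =
      ∑ u, f u * ((Y.filter fun a => a.1 = u).card : ℝ) := fun Y f => by
    rw [← sum_fiberwise (s := Y) (g := Prod.fst)]
    refine sum_congr rfl fun u _ => ?_
    rw [sum_congr rfl fun a ha => congrArg f (mem_filter.1 ha).2, sum_const, nsmul_eq_mul, mul_comm]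
  have hFs : ∀ (Y : Finset (U × Fin s)) u, (Y.filter fun a => a.1 = u).card ≤ s := fun Y u => by
    have := card_le_card_of_injOn (s := Y.filter fun a => a.1 = u) (t := univ) Prod.snd
      (fun _ _ => mem_coe.2 (mem_univ _)) fun a ha b hb h =>
        Prod.ext ((mem_filter.1 ha).2.trans (mem_filter.1 hb).2.symm) h
    rwa [card_univ, Fintype.card_fin] at this
  have := hj (U × Fin s) M k w (2 * e * (j₀ + 1)) ((s : ℝ) ^ 2 * (⌈r⌉₊ - 1)) (by nlinarith) hw hA hM
    (fun i H hH => ?_) ?_ (fun Y => ?_) (by rw [hcard]; push_cast; rw [hs']; field_simp)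
    (by rw [hcard, hs]; exact ⟨n * (n * (j₀ + 1)), by ring⟩)
  · have a1 : (((2 * e * (j₀ + 1) : ℕ) : ℝ)) ^ 2 = (s : ℝ) ^ 2 * r := by
      rw [hs', hr]; push_cast; field_simp
    have a2 : (1 - (r - (⌈r⌉₊ - 1)) / (2 * r)) * ((s : ℝ) ^ 2 * r) =
        (s : ℝ) ^ 2 * ((r + (⌈r⌉₊ - 1)) / 2) := by field_simp; ring
    rw [a1, a2] at this
    have := le_of_mul_le_mul_left this (by positivity)
    linarith
  · obtain ⟨α, β, g1, g2⟩ := hk i H hH
    obtain ⟨L, L1, L2⟩ := S.exists_line (fun a : U × Fin s => p a.1) (fun a => a ∉ H) g1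
      fun a b x y => g2 a b x (not_not.1 y)
    have c1 := hc L L1
    set Q := {q : U × U | q.1 < q.2 ∧ G.Adj q.1 q.2 ∧
      ((L : Set (EuclideanSpace ℝ (Fin 2))) ∩ segment ℝ (p q.1) (p q.2)).Nonempty} with hQ
    have c2 : (Q.ncard : ℝ) ≤ ⌈r⌉₊ - 1 := by
      have : Q.ncard + 1 ≤ ⌈r⌉₊ := Nat.lt_ceil.2 c1
      have : ((Q.ncard + 1 : ℕ) : ℝ) ≤ ⌈r⌉₊ := by exact_mod_cast this
      push_cast at this
      linarith
    refine le_trans ?_ (mul_le_mul_of_nonneg_left c2 (by positivity))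
    have c3 : ((s : ℝ) ^ 2 * Q.ncard) =
        ((Q ×ˢ (Set.univ : Set (Fin s × Fin s))).ncard : ℕ) := by
      rw [Set.ncard_prod, Set.ncard_univ, Nat.card_prod, Nat.card_fin]
      push_cast
      ring
    unfold ew
    rw [c3, ← sum_product' (f := w), sum_boole, Nat.cast_le, ← Set.ncard_coe_finset]
    refine Set.ncard_le_ncard_of_injOn (fun q => if q.1.1 < q.2.1 then
      ((q.1.1, q.2.1), (q.1.2, q.2.2)) else ((q.2.1, q.1.1), (q.2.2, q.1.2)))
      (fun q hq => ?_) (fun q hq q' hq' h => ?_) (Set.toFinite _)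
    · simp only [coe_filter, mem_product, mem_compl, Set.mem_ofPred_eq] at hq
      have d := L2 q.2 q.1 hq.1.2 (not_not.2 hq.1.1)
      refine ⟨?_, trivial⟩
      split_ifs with c
      · rw [segment_symm] at d
        exact ⟨c, hq.2, d⟩
      · exact ⟨lt_of_le_of_ne (not_lt.1 c) hq.2.ne', hq.2.symm, d⟩
    · simp only [coe_filter, mem_product, mem_compl, Set.mem_ofPred_eq] at hq hq'
      simp only at h
      split_ifs at h <;> simp only [Prod.mk.injEq] at h
      · exact Prod.ext (Prod.ext h.1.1 h.2.1) (Prod.ext h.1.2 h.2.2)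
      · exact absurd (Prod.ext h.1.1 h.2.1 ▸ hq.1.1 : q'.2 ∈ H) hq'.1.2
      · exact absurd (Prod.ext h.1.2 h.2.2 ▸ hq.1.1 : q'.2 ∈ H) hq'.1.2
      · exact Prod.ext (Prod.ext h.1.2 h.2.2) (Prod.ext h.1.1 h.2.1)
  · unfold pot ew
    simp only [w, Fintype.sum_prod_type, sum_const, card_univ, Fintype.card_fin, nsmul_eq_mul,
      ← mul_sum, hcard]
    simp only [w0]
    rw [he]
    push_cast
    rw [hs']
    ring
  · have a1 := layer (w := w0) (d := 2 * e / n) (fun Z => by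
      unfold pot ew
      have := hb Z
      rw [← le_div_iff₀ n0'] at this
      have e1 : 2 * (e : ℝ) * Z.card / n = 2 * e / n * Z.card := by ring
      simp only [w0]
      linarith) fun u => (Y.filter fun a => a.1 = u).card
    have a2 := hF Y fun _ => 1
    simp only [sum_const, nsmul_eq_mul, mul_one, one_mul] at a2
    have a3 : ew w Y Y ≤ s * ∑ u, ∑ v, w0 u v * (min (Y.filter fun a => a.1 = u).card
        (Y.filter fun a => a.1 = v).card : ℕ) := by
      unfold ew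
      simp only [w]
      rw [hF Y fun u => ∑ b ∈ Y, w0 u b.1, mul_sum]
      refine sum_le_sum fun u _ => ?_
      rw [hF Y (w0 u), sum_mul, mul_sum]
      refine sum_le_sum fun v _ => ?_
      have b0 : 0 ≤ w0 u v := by simp only [w0]; split_ifs <;> norm_num
      rw [mul_assoc, mul_left_comm (s : ℝ)]
      refine mul_le_mul_of_nonneg_left ?_ b0
      have b1 := hFs Y u
      have b2 := hFs Y v
      have : (Y.filter fun a => a.1 = v).card * (Y.filter fun a => a.1 = u).card ≤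
          s * min (Y.filter fun a => a.1 = u).card (Y.filter fun a => a.1 = v).card := by
        rcases le_total (Y.filter fun a => a.1 = u).card (Y.filter fun a => a.1 = v).card with c | c
        · rw [min_eq_left c]; exact Nat.mul_le_mul_right _ b2
        · rw [min_eq_right c, mul_comm]; exact Nat.mul_le_mul_right _ b1
      exact_mod_cast this
    have a4 := mul_le_mul_of_nonneg_left a1 s0.le
    have a5 : (s : ℝ) * (2 * e / n * Y.card) = 2 * ((2 * e * (j₀ + 1) : ℕ) : ℝ) * Y.card := by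
      rw [hs']; push_cast; field_simp
    rw [← a2, a5] at a4
    unfold pot
    linarith

open Classical in
theorem denseU {U : Type} [Fintype U] [LinearOrder U]
    (p : U → EuclideanSpace ℝ (Fin 2)) (G : SimpleGraph U) (e : ℕ)
    (he : ∑ u, ∑ v, (if G.Adj u v then (1 : ℝ) else 0) = 2 * e)
    (h4 : Fintype.card U ^ 2 ≤ 4 * e) :
    ∃ L : AffineSubspace ℝ (EuclideanSpace ℝ (Fin 2)), Module.finrank ℝ L.direction = 1 ∧
      ((e : ℝ) / Fintype.card U) ^ 2 ≤ (({q : U × U | q.1 < q.2 ∧ G.Adj q.1 q.2 ∧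
        ((L : Set (EuclideanSpace ℝ (Fin 2))) ∩ segment ℝ (p q.1) (p q.2)).Nonempty}).ncard : ℝ) := by
  let f : Fin (Fintype.card U) ≃o U := monoEquivOfFin U rfl
  have h1 : (G.comap f).edgeSet.ncard = e := by
    have := two_e (G.comap f)
    simp only [SimpleGraph.comap_adj] at this
    have h2 : ∑ x, ∑ y, (if G.Adj (f x) (f y) then (1 : ℝ) else 0) = 2 * e := by
      rw [← he]
      exact Fintype.sum_equiv f.toEquiv _ _ fun x => Fintype.sum_equiv f.toEquiv _ _ fun y => rfl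
    rw [h2] at this
    exact_mod_cast mul_left_cancel₀ (two_ne_zero' ℝ) this
  obtain ⟨L, L1, L2⟩ := dense _ (fun i => p (f i)) (G.comap f) (by rw [h1]; exact h4)
  refine ⟨L, L1, ?_⟩
  rw [div_pow, ← h1]
  refine L2.trans (Nat.cast_le.2 (Set.ncard_le_ncard_of_injOn (fun q => (f q.1, f q.2))
    (fun q hq => ⟨f.strictMono hq.1, hq.2⟩) (fun q _ q' _ h => ?_) (Set.toFinite _)))
  simp only [Prod.mk.injEq] at h
  exact Prod.ext (f.injective h.1) (f.injective h.2)

/-- The full statement from the asymptotic bound in the range `4 < N < 8`. -/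
theorem full (core : ∀ N : ℝ, 4 < N → N < 8 → CoreAt N) (n : ℕ)
    (p : Fin n → EuclideanSpace ℝ (Fin 2)) (G : SimpleGraph (Fin n)) (hp : Function.Injective p)
    (hcol : ∀ i j k : Fin n, i ≠ j → j ≠ k → i ≠ k →
      ¬ Collinear ℝ ({p i, p j, p k} : Set (EuclideanSpace ℝ (Fin 2)))) :
    ∃ L : AffineSubspace ℝ (EuclideanSpace ℝ (Fin 2)),
      Module.finrank ℝ L.direction = 1 ∧
      ((G.edgeSet.ncard : ℝ) ^ 2 / (n : ℝ) ^ 2 ≤
        (({q : Fin n × Fin n | q.1 < q.2 ∧ G.Adj q.1 q.2 ∧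
            ((L : Set (EuclideanSpace ℝ (Fin 2))) ∩
              segment ℝ (p q.1) (p q.2)).Nonempty}).ncard : ℝ)) := by
  classical
  rcases Nat.eq_zero_or_pos n with rfl | hn
  · exact dense 0 p G (by simp)
  have hn' : (0 : ℝ) < n := by exact_mod_cast hn
  obtain ⟨W, hW, hW'⟩ := exists_max_image (univ.filter fun Y : Finset (Fin n) => Y.Nonempty)
    (fun Y => ((G.induce (Y : Set (Fin n))).edgeSet.ncard : ℝ) / Y.card)
    ⟨{⟨0, hn⟩}, mem_filter.2 ⟨mem_univ _, singleton_nonempty _⟩⟩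
  have hW := (mem_filter.1 hW).2
  set e := (G.induce (W : Set (Fin n))).edgeSet.ncard with he
  have hN : (0 : ℝ) < W.card := by exact_mod_cast card_pos.2 hW
  have hmax : ∀ Y : Finset (Fin n), ((G.induce (Y : Set (Fin n))).edgeSet.ncard : ℝ) * W.card ≤
      e * Y.card := fun Y => by
    rcases Y.eq_empty_or_nonempty with rfl | hY
    · have := two_e' G ∅
      rw [sum_empty] at this
      rw [card_empty, show ((G.induce ((∅ : Finset (Fin n)) : Set (Fin n))).edgeSet.ncard : ℝ) = 0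
        by linarith]
      simp
    · exact (div_le_div_iff₀ (by exact_mod_cast card_pos.2 hY) hN).1
        (hW' Y (mem_filter.2 ⟨mem_univ _, hY⟩))
  rcases le_or_gt (8 * e) (W.card ^ 2) with h8 | h8
  · exact sparse n p G W hp hcol hW (fun Y => by exact_mod_cast hmax Y) h8
  have hm : (G.edgeSet.ncard : ℝ) ^ 2 / (n : ℝ) ^ 2 ≤ ((e : ℝ) / W.card) ^ 2 := by
    have h1 := two_e G
    have h2 := two_e' G univ
    have h3 := hmax univ
    rw [card_univ, Fintype.card_fin] at h3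
    rw [← div_pow]
    refine pow_le_pow_left₀ (by positivity) ?_ 2
    rw [div_le_div_iff₀ hn' hN]
    have : (G.edgeSet.ncard : ℝ) =
        (G.induce ((univ : Finset (Fin n)) : Set (Fin n))).edgeSet.ncard := by linarith
    rwa [this]
  have hsum : ∀ Y : Finset W, ∑ u ∈ Y, ∑ v ∈ Y,
      (if (G.induce (W : Set (Fin n))).Adj u v then (1 : ℝ) else 0) =
      2 * (G.induce ((Y.map (Function.Embedding.subtype _) : Finset (Fin n)) :
        Set (Fin n))).edgeSet.ncard := by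
    intro Y
    rw [two_e', sum_map]
    refine sum_congr rfl fun u _ => ?_
    rw [sum_map]
    exact sum_congr rfl fun v _ => by simp
  have hsum' : ∑ u : W, ∑ v : W,
      (if (G.induce (W : Set (Fin n))).Adj u v then (1 : ℝ) else 0) = 2 * e := by
    have : (univ : Finset W).map (Function.Embedding.subtype _) = W := by ext x; simp
    rw [hsum, this]
  obtain ⟨L, L1, L2⟩ : ∃ L : AffineSubspace ℝ (EuclideanSpace ℝ (Fin 2)),
      Module.finrank ℝ L.direction = 1 ∧ ((e : ℝ) / Fintype.card W) ^ 2 ≤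
      (({q : W × W | q.1 < q.2 ∧ (G.induce (W : Set (Fin n))).Adj q.1 q.2 ∧
        ((L : Set (EuclideanSpace ℝ (Fin 2))) ∩
          segment ℝ (p q.1) (p q.2)).Nonempty}).ncard : ℝ) := by
    rcases le_or_gt (W.card ^ 2) (4 * e) with h4 | h4
    · exact denseU (U := W) (fun a => p a) _ e (by convert hsum')
        (by rwa [Fintype.card_coe])
    · refine blow core (U := W) (fun a => p a) _ e (by convert hsum') (fun Y => ?_)
        (by rwa [Fintype.card_coe]) (by rwa [Fintype.card_coe])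
      have h1 := hmax (Y.map (Function.Embedding.subtype _))
      have h2 := hsum Y
      rw [card_map] at h1
      rw [Fintype.card_coe]
      have h3 : (∑ u ∈ Y, ∑ v ∈ Y,
          (if (G.induce (W : Set (Fin n))).Adj u v then (1 : ℝ) else 0)) * W.card ≤
          2 * e * Y.card := by
        rw [h2]
        linarith
      convert h3
  rw [Fintype.card_coe] at L2
  refine ⟨L, L1, hm.trans (L2.trans (Nat.cast_le.2 (Set.ncard_le_ncard_of_injOn
    (fun q => (q.1.1, q.2.1)) (fun q hq => hq) (fun q _ q' _ h => ?_) (Set.toFinite _))))⟩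
  simp only [Prod.mk.injEq] at h
  exact Prod.ext (Subtype.ext h.1) (Subtype.ext h.2)

end Pool.Agent.P.MP_3c7b76_co.G
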