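import Pool.Agent.P.MP_3c7b76_co.G.C3a
import Pool.Agent.P.MP_3c7b76_co.G.Frame
import Pool.Agent.P.MP_3c7b76_co.G.Top

/-! The core bound for `N ≥ 13 / 2` from the symmetric chain of caps. -/

set_option linter.unusedSectionVars false

namespace Pool.Agent.P.MP_3c7b76_co.G.C3

open Finset S

variable {V : Type} [Fintype V] [DecidableEq V] {M : ℕ} {k : ℤ → V → ℝ}

/-- The number of points with a Boolean property. -/
noncomputable def mu (f : V → Bool) : ℝ := ∑ u, (io (f u) : ℝ)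

theorem mu_nn (f : V → Bool) : 0 ≤ mu f := sum_nonneg fun _ _ => Int.cast_nonneg (io_nn _)

theorem mu_le {f g : V → Bool} (h : ∀ u, io (f u) ≤ io (g u)) : mu f ≤ mu g :=
  sum_le_sum fun u _ => Int.cast_le.2 (h u)

theorem mu_card {f : V → Bool} {A : Finset V} (h : ∀ u, f u = true ↔ u ∈ A) : mu f = A.card := by
  rw [mu, card_eq_sum_ones, Nat.cast_sum, ← sum_ite_mem_eq A]
  refine sum_congr rfl fun u _ => ?_
  simp [io, h]

theorem mu_zero (f : V → Bool) : mu f = 0 ∨ ∃ u, f u = true := by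
  by_cases h : ∃ u, f u = true
  · exact Or.inr h
  · exact Or.inl (sum_eq_zero fun u _ => by rw [io, if_neg fun e => h ⟨u, e⟩, Int.cast_zero])

theorem mass_step {J D τ0 τ τ1 τ2 s p w r y s1 p1 y1 w2 x e o : ℝ} (hD : 0 ≤ D) (hJ : 0 ≤ J)
    (h1 : τ = s + p + w + r) (n1 : 0 ≤ s) (n2 : 0 ≤ p) (n3 : 0 ≤ w) (n4 : 0 ≤ r) (n5 : 0 ≤ y)
    (n6 : 0 ≤ τ0) (n7 : 0 ≤ τ2) (n8 : 0 ≤ s1) (n9 : 0 ≤ w2) (n10 : 0 ≤ x) (h2 : p1 ≤ s)
    (h3 : w2 ≤ p1) (h4 : p1 ≤ τ1) (h5 : x = o - τ - s1) (h6 : |o - J| ≤ D) (h7 : |e - J| ≤ D)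
    (c1 : τ = 0 ∨ τ0 + τ + τ1 + y ≤ J / 2 + 7 * D)
    (c2 : τ1 = 0 ∨ τ + τ1 + τ2 + y1 ≤ J / 2 + 7 * D) :
    6 * J ^ 2 - 126 * (D * (J + D)) + 6 * (s ^ 2 / 2 + s * τ0 - p * (y + τ) - w * τ) ≤
      2 * J * (3 * x + 3 * e + (3 * s + r)) - (3 * (x * x) + 3 * (e * e) +
        (3 * (s * τ + τ * s - s * s) + (r * τ + τ * r - r * r)) + 3 * (y * (s + p)) +
        3 * ((s + p) * y)) + 6 * (s1 ^ 2 / 2 + s1 * τ - p1 * (y1 + τ1) - w2 * τ2) := by
  obtain ⟨o1, o2⟩ := abs_le.1 h6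
  have t1 : 0 ≤ τ1 := by linarith
  have F1 : -14 * (D * s) ≤ s * (J - 2 * τ - τ0 - y) - p1 * (y1 + τ1) - w2 * τ2 := by
    rcases c1 with c1 | c1
    · rw [show s = 0 by linarith, show p1 = 0 by linarith, show w2 = 0 by linarith]
      simp
    · rcases c2 with c2 | c2
      · rw [show p1 = 0 by linarith, show w2 = 0 by linarith]
        nlinarith [mul_nonneg n1 (show 0 ≤ J - 2 * τ - τ0 - y + 14 * D by linarith)]
      · nlinarith [mul_le_mul_of_nonneg_right h3 n7,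
          mul_le_mul_of_nonneg_left c2 (n9.trans h3), mul_le_mul_of_nonneg_left c1 n1,
          mul_le_mul_of_nonneg_right h2 (show 0 ≤ J / 2 + 7 * D - τ by linarith),
          mul_nonneg n1 t1]
  have F2 : -14 * (D * r) ≤ r * (J - τ - r) := by
    rcases c1 with c1 | c1
    · rw [show r = 0 by linarith]
      simp
    · nlinarith [mul_nonneg n4 (show 0 ≤ J - τ - r + 14 * D by linarith)]
  have F3 : τ ^ 2 ≤ 2 * ((s + p + w) * τ) + r ^ 2 := by
    rw [h1]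
    nlinarith [sq_nonneg (s + p + w)]
  have F4 : (J - x) ^ 2 ≤ (τ + s1) ^ 2 + 2 * (D * (J + D)) + D ^ 2 := by
    have a1 : (J - o) ^ 2 ≤ D ^ 2 := sq_le_sq' (by linarith) (by linarith)
    have a2 : (τ + s1) * (J - o) ≤ (τ + s1) * D :=
      mul_le_mul_of_nonneg_left (by linarith) (by linarith)
    have a3 : D * (τ + s1) ≤ D * (J + D) := mul_le_mul_of_nonneg_left (by linarith) hD
    rw [h5]
    nlinarith
  have F5 : (e - J) ^ 2 ≤ D ^ 2 := sq_le_sq' (abs_le.1 h7).1 (abs_le.1 h7).2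
  have F6 : D * s ≤ D * (J + D) := mul_le_mul_of_nonneg_left (by linarith) hD
  have F7 : D * r ≤ D * (J + D) := mul_le_mul_of_nonneg_left (by linarith) hD
  have F8 : D * D ≤ D * (J + D) := mul_le_mul_of_nonneg_left (by linarith) hD
  linarith [mul_nonneg hD hD]

theorem mu_add {f g g' : V → Bool} (h : ∀ u, io (f u) = io (g u) + io (g' u)) :
    mu f = mu g + mu g' := by
  unfold mu
  rw [← sum_add_distrib]
  exact sum_congr rfl fun u _ => by rw [h u, Int.cast_add]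

theorem b1 : ∀ a0 a1 a2 a3 n0 n1 : Bool, io (a1 && a2) =
    io (a1 && a2 && !(a0 && a1 && a2 && n0) && !(a1 && a2 && a3 && n1)) +
      io ((a0 && a1 && a2 && n0) || (a1 && a2 && a3 && n1)) := by decide

theorem b2 : ∀ t t' : Bool, io (t || t') = io t + io (t' && !t) := by decide

theorem b3 : ∀ t0 t1 t2 t3 : Bool,
    io t3 = io (t3 && !(t2 && t1)) + io (t3 && t2 && t1) ∧
    io (t3 && !(t2 && t1)) = io (t3 && !t2) + io (t3 && t2 && !t1) ∧
    io (t3 && t2 && t1) = io (t3 && t2 && t1 && !t0) + io (t3 && t2 && (t1 && t0)) ∧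
    io (t3 && t2 && !t1) ≤ io (t2 && !t1) ∧ io (t3 && t2 && t1 && !t0) ≤ io (t2 && t1 && !t0) ∧
    io (t3 && t2 && !t1) ≤ io t3 := by decide

theorem b4 : ∀ a1 a2 a3 : Bool, (a1 || a2 || a3) = true → ∀ a0 a4 n0 n1 n2 : Bool,
    1 + io (a0 && a1 && a2 && n0) + io (a1 && a2 && a3 && n1) + io (a2 && a3 && a4 && n2) +
      io (a1 && !a2 && a3) ≤ io (!a0 && a1 && !a2) + io (!a1 && a2 && !a3) +
      io (!a2 && a3 && !a4) + io (a0 && a1) + io (a1 && a2) + io (a2 && a3) + io (a3 && a4) := by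
  decide

theorem b5 : ∀ a0 a1 a2 n : Bool, io (a0 && a1 && a2 && n) ≤ io a1 ∧
    io (a0 && !a1 && a2) ≤ io a0 := by decide

theorem bound (h : Allow M k) {w : V → V → ℝ} (hw : Wt w) {J D c : ℝ} (hD : 0 ≤ D) (hJ : 0 ≤ J)
    (h0 : pot w (2 * J) univ = 0) (hb : ∀ Y, 0 ≤ pot w (2 * J) Y) {θ : ℕ → ℤ} {H : ℕ → Finset V}
    {T : ℕ} (ch : Chn M k θ H (T + 8)) (hc : ∀ t, ew w (H t) (H t)ᶜ ≤ c)
    (hn : 13 / 2 * J ≤ Fintype.card V) (hH : ∀ t, ((H t).card : ℝ) ≤ 3 * J)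
    (ho : ∀ t < T + 8, |((H t ∩ H (t + 1)).card : ℝ) - J| ≤ D)
    (he : ∀ t < T + 8, |((H (t + 1) \ (H t ∪ H (t + 2))).card : ℝ) - J| ≤ D) :
    T * (6 * J ^ 2 - 126 * (D * (J + D))) - 300 * J ^ 2 - 26 * (Fintype.card V : ℝ) ^ 2 ≤
      6 * T * c := by
  let a : V → ℕ → Bool := pt H
  let n : ℕ → Bool := nc M θ
  let τ : ℕ → ℝ := fun i => mu fun u => fT (a u) n i
  let s : ℕ → ℝ := fun i => mu fun u => fS (a u) n i
  let p : ℕ → ℝ := fun i => mu fun u => fP (a u) n i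
  let z : ℕ → ℝ := fun i => mu fun u => fW (a u) n i
  let r : ℕ → ℝ := fun i => mu fun u => fR (a u) n i
  let x : ℕ → ℝ := fun i => mu fun u => fX (a u) n i
  let y : ℕ → ℝ := fun i => mu fun u => fY (a u) i
  let q : ℕ → ℝ := fun i => mu fun u => fQ (a u) n i
  let o : ℕ → ℝ := fun t => mu fun u => a u t && a u (t + 1)
  let e : ℕ → ℝ := fun t => mu fun u => !a u t && a u (t + 1) && !a u (t + 2)
  have ho' : ∀ t < T + 8, |o t - J| ≤ D := fun t ht => by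
    rw [show o t = (H t ∩ H (t + 1)).card from mu_card fun u => by simp [a, pt]]
    exact ho t ht
  have he' : ∀ t < T + 8, |e t - J| ≤ D := fun t ht => by
    rw [show e t = (H (t + 1) \ (H t ∪ H (t + 2))).card from mu_card fun u => by
      simp only [a, pt, Bool.and_eq_true, Bool.not_eq_true', decide_eq_false_iff_not,
        decide_eq_true_eq, mem_sdiff, mem_union]
      tauto]
    exact he t ht
  have ha : ∀ t, (mu fun u => a u t) ≤ 3 * J := fun t => by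
    rw [show (mu fun u => a u t) = (H t).card from mu_card fun u => by simp [a, pt]]
    exact hH t
  have m1 : ∀ i, x i = o (i + 4) - τ i - s (i + 1) := fun i => by
    have e1 : o (i + 4) = x i + mu fun u => fT (a u) n i || fT (a u) n (i + 1) :=
      mu_add fun u => b1 (a u (i + 3)) _ _ (a u (i + 6)) (n (i + 3)) (n (i + 4))
    have e2 : (mu fun u => fT (a u) n i || fT (a u) n (i + 1)) = τ i + s (i + 1) :=
      mu_add fun u => b2 _ _
    linarith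
  have m2 : ∀ i, q i = s i + p i := fun i =>
    mu_add fun u => (b3 false (tt (a u) n (i + 1)) _ _).2.1
  have m3 : ∀ i, τ i = s i + p i + z i + r i := fun i => by
    have e1 : τ i = q i + mu fun u => tt (a u) n (i + 3) && tt (a u) n (i + 2) &&
        tt (a u) n (i + 1) := mu_add fun u => (b3 false _ _ _).1
    have e2 : (mu fun u => tt (a u) n (i + 3) && tt (a u) n (i + 2) && tt (a u) n (i + 1)) =
        z i + r i := mu_add fun u => (b3 _ _ _ _).2.2.1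
    linarith [m2 i]
  have m4 : ∀ i, p (i + 1) ≤ s i := fun i => mu_le fun u => (b3 false _ _ _).2.2.2.1
  have m5 : ∀ i, z (i + 1) ≤ p i := fun i => mu_le fun u => (b3 _ _ _ _).2.2.2.2.1
  have m6 : ∀ i, p i ≤ τ i := fun i => mu_le fun u => (b3 false _ _ _).2.2.2.2.2
  have m7 : ∀ i, τ i ≤ 3 * J := fun i => (mu_le fun u => (b5 _ _ _ _).1).trans (ha (i + 4))
  have m8 : ∀ i, y i ≤ 3 * J := fun i => (mu_le fun u => (b5 _ _ _ false).2).trans (ha (i + 3))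
  have m9 : ∀ i ≤ T, τ (i + 1) = 0 ∨ τ i + τ (i + 1) + τ (i + 2) + y (i + 1) ≤ J / 2 + 7 * D :=
    fun i hi => (mu_zero _).imp_right fun ⟨u, hu⟩ => by
      have e1 := sum_le_sum fun v (_ : v ∈ univ) => (Int.cast_le (R := ℝ)).2
        (b4 _ _ _ (ch.cov h hu v) (a v (i + 3)) (a v (i + 7)) (n (i + 3)) (n (i + 4)) (n (i + 5)))
      simp only [Int.cast_add, sum_add_distrib, Int.cast_one, sum_const, card_univ, nsmul_eq_mul,
        mul_one] at e1
      change _ + τ i + τ (i + 1) + τ (i + 2) + y (i + 1) ≤ e (i + 3) + e (i + 4) + e (i + 5) +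
        o (i + 3) + o (i + 4) + o (i + 5) + o (i + 6) at e1
      linarith [(abs_le.1 (he' (i + 3) (by omega))).2, (abs_le.1 (he' (i + 4) (by omega))).2,
        (abs_le.1 (he' (i + 5) (by omega))).2, (abs_le.1 (ho' (i + 3) (by omega))).2,
        (abs_le.1 (ho' (i + 4) (by omega))).2, (abs_le.1 (ho' (i + 5) (by omega))).2,
        (abs_le.1 (ho' (i + 6) (by omega))).2]
  let Φ : ℕ → ℝ := fun i => s (i + 1) ^ 2 / 2 + s (i + 1) * τ i -
    p (i + 1) * (y (i + 1) + τ (i + 1)) - z (i + 1) * τ (i + 1) - z (i + 2) * τ (i + 2)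
  have st : ∀ i < T, 6 * J ^ 2 - 126 * (D * (J + D)) + 6 * Φ i ≤
      (2 * J * ∑ u, (tok (a u) n (i + 1) : ℝ) - ∑ u, ∑ v, (kk (a u) (a v) n (i + 1) : ℝ)) +
        6 * Φ (i + 1) := fun i hi => by
    have e1 := mass_step hD hJ (m3 (i + 1)) (mu_nn _) (mu_nn _) (mu_nn _) (mu_nn _) (mu_nn _)
      (mu_nn _) (mu_nn _) (mu_nn _) (mu_nn _) (mu_nn _) (m4 (i + 1)) (m5 (i + 2)) (m6 (i + 2))
      (m1 (i + 1)) (ho' _ (by omega)) (he' (i + 4) (by omega)) (m9 i hi.le) (m9 (i + 1) hi)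
    rw [← m2] at e1
    simp only [tok, om, kk, Int.cast_add, Int.cast_mul, Int.cast_sub, Int.cast_ofNat,
      sum_add_distrib, sum_sub_distrib, ← mul_sum]
    simp only [← sum_mul]
    change _ ≤ 2 * J * (3 * x (i + 1) + 3 * e (i + 4) + (3 * s (i + 1) + r (i + 1))) -
      (3 * (x (i + 1) * x (i + 1)) + 3 * (e (i + 4) * e (i + 4)) +
        (3 * (s (i + 1) * τ (i + 1) + τ (i + 1) * s (i + 1) - s (i + 1) * s (i + 1)) +
          (r (i + 1) * τ (i + 1) + τ (i + 1) * r (i + 1) - r (i + 1) * r (i + 1))) +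
        3 * (y (i + 1) * q (i + 1)) + 3 * (q (i + 1) * y (i + 1))) + _
    simp only [Φ]
    linarith
  have su : ∀ m ≤ T, m * (6 * J ^ 2 - 126 * (D * (J + D))) + 6 * Φ 0 ≤
      ∑ i ∈ range m, (2 * J * ∑ u, (tok (a u) n (i + 1) : ℝ) -
        ∑ u, ∑ v, (kk (a u) (a v) n (i + 1) : ℝ)) + 6 * Φ m := fun m hm => by
    induction m with
    | zero => simp
    | succ m ih =>
      rw [sum_range_succ, Nat.cast_succ]
      linarith [ih (by omega), st m (by omega)]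
  have nn : ∀ i, 0 ≤ s i ∧ 0 ≤ p i ∧ 0 ≤ z i ∧ 0 ≤ r i ∧ 0 ≤ y i ∧ 0 ≤ τ i := fun i =>
    ⟨mu_nn _, mu_nn _, mu_nn _, mu_nn _, mu_nn _, mu_nn _⟩
  have bd : ∀ {α β : ℝ}, 0 ≤ α → α ≤ 3 * J → 0 ≤ β → β ≤ 3 * J → 0 ≤ α * β ∧ α * β ≤ 9 * J ^ 2 :=
    fun a1 a2 a3 a4 => ⟨mul_nonneg a1 a3, by nlinarith [mul_le_mul a2 a4 a3 (a1.trans a2)]⟩
  have bΦ : ∀ i, -36 * J ^ 2 ≤ Φ i ∧ Φ i ≤ 14 * J ^ 2 := fun i => by
    obtain ⟨a1, a2, a3, a4, a5, a6⟩ := nn (i + 1)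
    obtain ⟨c1, c2, c3, c4, -, c6⟩ := nn (i + 2)
    have d1 := m3 (i + 1)
    have d2 := m3 (i + 2)
    have d3 := m7 (i + 1)
    have d4 := m7 (i + 2)
    have f1 := bd a1 (by linarith) a1 (by linarith)
    have f2 := bd a1 (by linarith) (nn i).2.2.2.2.2 (m7 i)
    have f3 := bd a2 (by linarith) a5 (m8 _)
    have f4 := bd a2 (by linarith) a6 d3
    have f5 := bd a3 (by linarith) a6 d3
    have f6 := bd c3 (by linarith) c6 d4
    simp only [Φ]
    constructor <;> linarith [f1.1, f1.2, f2.1, f2.2, f3.1, f3.2, f4.1, f4.2, f5.1, f5.2, f6.1,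
      f6.2, sq_nonneg J]
  have fr := frame hw h0 hb (range T) (fun t => H (t + 5)) (fun _ => 3) (fun _ _ => by norm_num)
    (fun _ _ => hc _) (fun u => ∑ i ∈ range T, (tok (a u) n (i + 1) : ℝ))
    (fun u v => ∑ i ∈ range T, (kk (a u) (a v) n (i + 1) : ℝ)) 26
    (fun u v => sum_congr rfl fun i _ => by rw [kk_comm])
    (fun u v => le_trans (by norm_num) (sum_nonneg fun i _ => Int.cast_nonneg (kk_nn _ _ _ _)))
    fun u v => by
      have e1 := (Int.cast_le (R := ℝ)).2 (charge (a u) (a v) n T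
        (fun i hi => ch.zig h (by omega) u) fun i hi => ch.memo h u v (i + 4) (by omega))
      push_cast at e1
      refine e1.trans_eq (congrArg _ (sum_congr rfl fun t _ => congrArg _ ?_))
      by_cases c1 : u ∈ H (t + 5) <;> by_cases c2 : v ∈ H (t + 5) <;> simp [a, pt, sp, io, c1, c2]
  have s1 := su T le_rfl
  rw [sum_sub_distrib, ← mul_sum, sum_comm, sum_comm (s := range T)] at s1
  have e5 : ∀ u, ∑ i ∈ range T, ∑ v, (kk (a u) (a v) n (i + 1) : ℝ) =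
      ∑ v, ∑ i ∈ range T, (kk (a u) (a v) n (i + 1) : ℝ) := fun u => sum_comm
  simp only [e5] at s1
  simp only [sum_const, card_range, nsmul_eq_mul] at fr
  linarith [(bΦ 0).1, (bΦ T).2]

end Pool.Agent.P.MP_3c7b76_co.G.C3

namespace Pool.Agent.P.MP_3c7b76_co.G

open Finset S

theorem core_hi {N : ℝ} (hN : 13 / 2 ≤ N) : CoreAt N := by
  intro ε hε
  obtain ⟨T, hT⟩ := exists_nat_gt ((300 + 26 * N ^ 2) / (3 * ε))
  have T0 : (0 : ℝ) < T := lt_of_le_of_lt (by positivity) hT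
  rw [div_lt_iff₀ (by positivity)] at hT
  obtain ⟨d, hd⟩ : ∃ d : ℕ, d = 4 * (3 * (T + 8) + 7) := ⟨_, rfl⟩
  obtain ⟨j0, hj0⟩ := exists_nat_ge (84 * d / ε)
  rw [div_le_iff₀ hε] at hj0
  refine ⟨j0 + d + 1, fun V _ _ M k w j c hj hw h _ hc h0 hb hn _ => ?_⟩
  have j1 : (0 : ℝ) ≤ j := Nat.cast_nonneg j
  have n1 : 13 / 2 * (j : ℝ) ≤ Fintype.card V := by
    rw [hn]; exact mul_le_mul_of_nonneg_right hN j1
  have n2 : 5 * j ≤ Fintype.card V := by
    have : ((5 * j : ℕ) : ℝ) ≤ Fintype.card V := by push_cast; linarith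
    exact_mod_cast this
  obtain ⟨θ, a, H, h1, h2, h3, h4, h5⟩ := exists_cap3 h n2 (T + 8)
  have dn : ∀ t, Dn (k (θ t)) (H t) := fun t => h1 t ▸ lo_dn _ _ _
  have ab : ∀ m : ℕ, m ≤ j + d → j ≤ m + d → |(m : ℝ) - j| ≤ d := fun m a1 a2 => by
    have b1 : (m : ℝ) ≤ (j + d : ℕ) := Nat.cast_le.2 a1
    have b2 : (j : ℝ) ≤ (m + d : ℕ) := Nat.cast_le.2 a2
    push_cast at b1 b2
    exact abs_le.2 ⟨by linarith, by linarith⟩
  have key := C3.bound h hw (D := d) (Nat.cast_nonneg d) j1 h0 hb (T := T)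
    ⟨dn, h3, fun t ht => card_pos.1 (by have := h5 t ht; omega)⟩ (fun t => hc _ _ (dn t)) n1
    (fun t => by
      have := h2 t
      rw [h1, card_lo_univ (h.inj _) (by omega)]
      exact_mod_cast this.2)
    (fun t ht => ab _ (by have := h4 t ht.le; omega) (by have := h4 t ht.le; omega))
    fun t ht => ab _ (by have := h5 t ht; omega) (by have := h5 t ht; omega)
  rw [hn] at key
  have a1 : (d : ℝ) ≤ j := Nat.cast_le.2 (by omega)
  have a2 : (j0 : ℝ) ≤ j := Nat.cast_le.2 (by omega)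
  have a3 : 84 * (d : ℝ) ≤ j * ε := hj0.trans (mul_le_mul_of_nonneg_right a2 hε.le)
  have a4 : (d : ℝ) * (j + d) ≤ d * (2 * j) :=
    mul_le_mul_of_nonneg_left (by linarith) (Nat.cast_nonneg d)
  have a5 := mul_le_mul_of_nonneg_right a3 j1
  have a6 : 126 * ((d : ℝ) * (j + d)) ≤ 3 * ε * j ^ 2 := by linarith
  have a7 := mul_le_mul_of_nonneg_left a6 T0.le
  have a8 := mul_le_mul_of_nonneg_right hT.le (sq_nonneg (j : ℝ))
  refine le_of_mul_le_mul_left ?_ (show (0 : ℝ) < 6 * T by positivity)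
  linarith

end Pool.Agent.P.MP_3c7b76_co.G
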