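import Pool.Agent.P.MP_3c7b76_co.S.Car

/-! Chains of halving sets with prescribed wedge sizes, and the zigzag dichotomy. -/

set_option linter.unusedSectionVars false

namespace Pool.Agent.P.MP_3c7b76_co.G.C1

open Finset S

variable {V : Type} [Fintype V] [DecidableEq V] {M n : ℕ} {k : ℤ → V → ℝ}

/-- The halving set at time `i`. -/
noncomputable def hs (k : ℤ → V → ℝ) (n : ℕ) (i : ℤ) : Finset V := lo (k i) univ n

/-- The size of the wedge between two times. -/
noncomputable def wd (k : ℤ → V → ℝ) (n : ℕ) (i l : ℤ) : ℕ := (hs k n l \ hs k n i).card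

/-- The zigzag set of pattern out, in, out. -/
noncomputable def zp (k : ℤ → V → ℝ) (n : ℕ) (a b c : ℤ) : Finset V :=
  hs k n b \ (hs k n a ∪ hs k n c)

/-- The zigzag set of pattern in, out, in. -/
noncomputable def zm (k : ℤ → V → ℝ) (n : ℕ) (a b c : ℤ) : Finset V :=
  (hs k n a ∩ hs k n c) \ hs k n b

theorem hs_dn (i : ℤ) : Dn (k i) (hs k n i) := lo_dn _ _ _

/-- Only one of the two zigzag patterns occurs for down sets inside a half turn. -/
theorem zig_excl (h : Allow M k) {a b c : ℤ} (h1 : a ≤ b) (h2 : b ≤ c) (h3 : c ≤ a + M)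
    {A B C : Finset V} (hA : Dn (k a) A) (hB : Dn (k b) B) (hC : Dn (k c) C) :
    B \ (A ∪ C) = ∅ ∨ (A ∩ C) \ B = ∅ := by
  by_contra hc
  rw [not_or] at hc
  obtain ⟨x, hx⟩ := nonempty_iff_ne_empty.2 hc.1
  obtain ⟨y, hy⟩ := nonempty_iff_ne_empty.2 hc.2
  simp only [mem_sdiff, mem_union, mem_inter, not_or] at hx hy
  exact lt_asymm (hB x y hx.1 hy.2)
    (h.conv a b c y x h1 h2 h3 (hA y x hy.1.1 hx.2.1) (hC y x hy.1.2 hx.2.2))

variable (h : Allow M k) (hn : Fintype.card V = 2 * n)
include h hn

theorem hs_card (i : ℤ) : (hs k n i).card = n := card_lo_univ (h.inj i) (by omega)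

theorem hs_anti (i : ℤ) : hs k n (i + M) = (hs k n i)ᶜ := by
  have d : Dn (k (i + M)) (hs k n i)ᶜ := fun P Q hP hQ =>
    (h.rev _ _ _).2 (hs_dn i _ _ (by simpa using hQ) (mem_compl.1 hP))
  have c1 := hs_card h hn i
  have c2 := hs_card h hn (i + M)
  have c3 := card_compl (hs k n i)
  exact eq_of_subset_of_card_le ((hs_dn _).sub d (by omega)) (by omega)

theorem wd_symm (i l : ℤ) : wd k n i l = (hs k n i \ hs k n l).card :=
  sdiff_card_eq ((hs_card h hn l).trans (hs_card h hn i).symm)

theorem wd_le (i l : ℤ) : wd k n i l ≤ n :=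
  (card_le_card sdiff_subset).trans (hs_card h hn l).le

theorem wd_shift (i l : ℤ) : wd k n (i + M) (l + M) = wd k n i l := by
  rw [wd_symm h hn i l, wd, hs_anti h hn, hs_anti h hn, compl_sdiff_compl]

theorem wd_compl (i l : ℤ) : wd k n i l + wd k n l (i + M) = n := by
  rw [wd_symm h hn l, hs_anti h hn, wd, sdiff_compl, inf_eq_inter, card_sdiff_add_card_inter,
    hs_card h hn]

omit h hn in
theorem wd_self (i : ℤ) : wd k n i i = 0 := by simp [wd]

theorem wd_half (i : ℤ) : wd k n i (i + M) = n := by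
  have := wd_compl h hn i i
  rwa [wd_self, zero_add] at this

omit h hn in
/-- The additivity defect of wedge sizes is the total zigzag mass. -/
theorem wd_add (a b c : ℤ) :
    wd k n a c + (zp k n a b c).card + (zm k n a b c).card = wd k n a b + wd k n b c := by
  unfold wd zp zm
  generalize hs k n a = A
  generalize hs k n b = B
  generalize hs k n c = C
  have e1 := card_sdiff_add_card_inter (C \ A) B
  have e2 := card_sdiff_add_card_inter (B \ A) C
  have e3 := card_sdiff_add_card_inter (C \ B) A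
  have e4 : (B \ A) \ C = B \ (A ∪ C) := sdiff_sdiff_left
  have e5 : C \ B ∩ A = (A ∩ C) \ B := by ext x; simp only [mem_inter, mem_sdiff]; tauto
  have e6 : C \ A ∩ B = B \ A ∩ C := by ext x; simp only [mem_inter, mem_sdiff]; tauto
  have e7 : (C \ B) \ A = (C \ A) \ B := sdiff_right_comm _ _ _
  rw [e4] at e2
  rw [e5, e7] at e3
  rw [e6] at e1
  omega

omit hn in
theorem zig_hs {a b c : ℤ} (h1 : a ≤ b) (h2 : b ≤ c) (h3 : c ≤ a + M) :
    zp k n a b c = ∅ ∨ zm k n a b c = ∅ := zig_excl h h1 h2 h3 (hs_dn _) (hs_dn _) (hs_dn _)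

theorem wd_mono {a b c : ℤ} (h1 : a ≤ b) (h2 : b ≤ c) (h3 : c ≤ a + M) :
    wd k n a b ≤ wd k n a c ∧ wd k n b c ≤ wd k n a c := by
  have e := wd_add (k := k) (n := n) a b c
  have p1 : (zp k n a b c).card ≤ wd k n a b :=
    card_le_card (sdiff_subset_sdiff Subset.rfl subset_union_left)
  have p2 : (zp k n a b c).card ≤ wd k n b c := by
    rw [wd_symm h hn]
    exact card_le_card (sdiff_subset_sdiff Subset.rfl subset_union_right)
  have m1 : (zm k n a b c).card ≤ wd k n a b := by
    rw [wd_symm h hn]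
    exact card_le_card (sdiff_subset_sdiff inter_subset_left Subset.rfl)
  have m2 : (zm k n a b c).card ≤ wd k n b c :=
    card_le_card (sdiff_subset_sdiff inter_subset_right Subset.rfl)
  rcases zig_hs (n := n) h h1 h2 h3 with z | z <;> rw [z, card_empty] at e <;> omega

theorem wd_step (i : ℤ) : wd k n i (i + 1) ≤ 1 := (lo_swap h i (a := n) (by omega)).1

omit h hn in
theorem wd_tri (a b c : ℤ) : wd k n a c ≤ wd k n a b + wd k n b c := by
  have := wd_add (k := k) (n := n) a b c
  omega

theorem wd_comm (a b : ℤ) : wd k n a b = wd k n b a := wd_symm h hn a b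

theorem exists_next (i : ℤ) {j : ℕ} (hj : j ≤ n) :
    ∃ l, i ≤ l ∧ l ≤ i + M ∧ wd k n i l = j := by
  obtain ⟨l, ⟨h1, h2⟩, h3⟩ : ∃ l, (i ≤ l ∧ j ≤ wd k n i l) ∧
      ∀ z, (i ≤ z ∧ j ≤ wd k n i z) → l ≤ z :=
    Int.exists_least_of_bdd ⟨i, fun z hz => hz.1⟩ ⟨i + M, by omega, by rwa [wd_half h hn]⟩
  refine ⟨l, h1, h3 _ ⟨by omega, by rwa [wd_half h hn]⟩, ?_⟩
  rcases h1.eq_or_lt with rfl | h4
  · rw [wd_self] at h2 ⊢; omega
  · have a1 := wd_tri (k := k) (n := n) i (l - 1) l
    have a2 := wd_step h hn (l - 1)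
    rw [sub_add_cancel] at a2
    have a3 : ¬ j ≤ wd k n i (l - 1) := fun c => by have := h3 _ ⟨by omega, c⟩; omega
    omega

theorem exists_prev (i : ℤ) {j : ℕ} (hj : j ≤ n) :
    ∃ l, l ≤ i ∧ i ≤ l + M ∧ wd k n l i = j := by
  obtain ⟨l, h1, h2, h3⟩ := exists_next h hn (i - M) (j := n - j) (by omega)
  have := wd_compl h hn (i - M) l
  rw [sub_add_cancel] at this h2
  exact ⟨l, h2, by omega, by omega⟩

/-- Two steps of total size below `n` stay inside a half turn. -/
theorem two_lt {a b c : ℤ} (h5 : b ≤ a + M) (h3 : c ≤ b + M)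
    (h4 : wd k n a b + wd k n b c < n) : c < a + M := by
  by_contra hc
  have a1 := (wd_mono h hn (a := b) (b := a + M) (c := c) h5 (by omega) h3).1
  have a2 := wd_compl h hn a b
  omega

/-- Two steps of total size above `n` pass a half turn. -/
theorem two_gt {a b c : ℤ} (h1 : a ≤ b) (h2 : b ≤ c)
    (h4 : n < wd k n a b + wd k n b c) : a + M < c := by
  by_contra hc
  have a1 := (wd_mono h hn (a := b) (b := c) (c := a + M) h2 (by omega) (by omega)).1
  have a2 := wd_compl h hn a b
  omega

theorem exists_chain {j : ℕ} (hj : j ≤ n) (i : ℤ) : ∃ t : ℕ → ℤ, t 0 = i ∧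
    ∀ s, t s ≤ t (s + 1) ∧ t (s + 1) ≤ t s + M ∧ wd k n (t s) (t (s + 1)) = j := by
  choose f hf using fun i => exists_next h hn i hj
  exact ⟨fun s => f^[s] i, rfl, fun s => by
    simp only [Function.iterate_succ_apply']; exact hf _⟩

theorem zp_shift (a b c : ℤ) : zp k n (a + M) (b + M) (c + M) = zm k n a b c := by
  ext x; simp only [zp, zm, hs_anti h hn, mem_sdiff, mem_union, mem_inter, mem_compl]; tauto

theorem zm_shift (a b c : ℤ) : zm k n (a + M) (b + M) (c + M) = zp k n a b c := by
  ext x; simp only [zp, zm, hs_anti h hn, mem_sdiff, mem_union, mem_inter, mem_compl]; tauto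

theorem zp_le (a b c a' b' c' : ℤ) : (zp k n a b c).card ≤
    (zp k n a' b' c').card + (wd k n a a' + wd k n b b' + wd k n c c') := by
  rw [wd_symm h hn b b']
  refine le_trans (card_le_card fun x hx => ?_) ((card_union_le _ _).trans (add_le_add le_rfl
    ((card_union_le _ _).trans (add_le_add (card_union_le _ _) le_rfl))))
  simp only [zp, mem_sdiff, mem_union] at hx ⊢
  tauto

/-- Triples of times whose two wedges have size `j` up to one. -/
structure Near (M : ℕ) (k : ℤ → V → ℝ) (n j : ℕ) (a b c : ℤ) : Prop where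
  ab : a ≤ b
  ab' : b ≤ a + M
  bc : b ≤ c
  bc' : c ≤ b + M
  w1 : j ≤ wd k n a b
  w2 : wd k n a b ≤ j + 1
  w3 : j ≤ wd k n b c + 1
  w4 : wd k n b c ≤ j

theorem zig_path {j z : ℕ} (hj : 0 < j) (hjn : j + 1 < n) {a' b' c' : ℤ}
    (t : Near M k n j a' b' c') (t1 : wd k n a' b' = j) (t2 : wd k n b' c' = j)
    (tz : (zp k n a' b' c').card ≤ z) (N : ℕ) : ∀ a b c : ℤ, Near M k n j a b c → a ≤ a' →
      b ≤ b' → c ≤ c' → a' + b' + c' = a + b + c + N → z ≤ (zp k n a b c).card →
      ∃ a b c, Near M k n j a b c ∧ (zp k n a b c).card = z := by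
  induction N with
  | zero =>
    intro a b c s h1 h2 h3 h4 h5
    obtain rfl : a = a' := by omega
    obtain rfl : b = b' := by omega
    obtain rfl : c = c' := by omega
    exact ⟨a, b, c, s, by omega⟩
  | succ N ih =>
    intro a b c s h1 h2 h3 h4 h5
    rcases h5.eq_or_lt with h5 | h5
    · exact ⟨a, b, c, s, h5.symm⟩
    have sa := wd_step h hn a
    have sb := wd_step h hn b
    have sc := wd_step h hn c
    have ne1 : a < b := lt_of_le_of_ne s.ab fun e => by
      have := s.w1; rw [e, wd_self] at this; omega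
    have ne2 : b < a + M := lt_of_le_of_ne s.ab' fun e => by
      have := s.w2; rw [e, wd_half h hn] at this; omega
    have ne3 : c < b + M := lt_of_le_of_ne s.bc' fun e => by
      have := s.w4; rw [e, wd_half h hn] at this; omega
    have mvA : a < a' → j ≤ wd k n (a + 1) b →
        ∃ a b c, Near M k n j a b c ∧ (zp k n a b c).card = z := fun x y => by
      have m := (wd_mono h hn (a := a) (b := a + 1) (c := b) (by omega) (by omega) s.ab').2
      have q := zp_le h hn a b c (a + 1) b c
      simp only [wd_self] at q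
      exact ih (a + 1) b c ⟨by omega, by omega, s.bc, s.bc', y, m.trans s.w2, s.w3, s.w4⟩
        (by omega) h2 h3 (by push_cast at h4; omega) (by omega)
    have mvC : c < c' → wd k n b (c + 1) ≤ j →
        ∃ a b c, Near M k n j a b c ∧ (zp k n a b c).card = z := fun x y => by
      have m := (wd_mono h hn (a := b) (b := c) (c := c + 1) s.bc (by omega) (by omega)).1
      have q := zp_le h hn a b c a b (c + 1)
      simp only [wd_self] at q
      have := s.w3
      exact ih a b (c + 1) ⟨s.ab, s.ab', by have := s.bc; omega, by omega, s.w1, s.w2, by omega, y⟩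
        h1 h2 (by omega) (by push_cast at h4; omega) (by omega)
    have w1 := s.w1
    have w2 := s.w2
    have w3 := s.w3
    have w4 := s.w4
    by_cases c1 : wd k n a b = j + 1
    · refine mvA (lt_of_le_of_ne h1 fun e => ?_) ?_
      · subst e
        have := (wd_mono h hn s.ab h2 t.ab').1
        omega
      · have := wd_tri (k := k) (n := n) a (a + 1) b
        omega
    by_cases c2 : wd k n b c + 1 = j
    · refine mvC (lt_of_le_of_ne h3 fun e => ?_) ?_
      · subst e
        have := (wd_mono h hn h2 t.bc s.bc').2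
        omega
      · have := wd_tri (k := k) (n := n) b c (c + 1)
        omega
    rcases h2.eq_or_lt with rfl | h2
    · rcases h1.eq_or_lt with rfl | h1
      · refine mvC (by push_cast at h4; omega) ?_
        have := (wd_mono h hn (a := b) (b := c + 1) (c := c') (by have := s.bc; omega)
          (by push_cast at h4; omega) t.bc').1
        omega
      · refine mvA h1 ?_
        have := (wd_mono h hn (a := a + 1) (b := a') (c := b) (by omega) t.ab (by omega)).2
        omega
    · have ne4 : b < c := lt_of_le_of_ne s.bc fun e => by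
        rw [e, wd_self] at w3 c2; omega
      have m1 := (wd_mono h hn (a := a) (b := b) (c := b + 1) s.ab (by omega) (by omega)).1
      have m2 := (wd_mono h hn (a := b) (b := b + 1) (c := c) (by omega) (by omega) s.bc').2
      have m3 := wd_tri (k := k) (n := n) a b (b + 1)
      have m4 := wd_tri (k := k) (n := n) b (b + 1) c
      have q := zp_le h hn a b c a (b + 1) c
      simp only [wd_self] at q
      exact ih a (b + 1) c ⟨by omega, by omega, by omega, by omega, by omega, by omega, by omega,
        by omega⟩ h1 (by omega) h3 (by push_cast at h4; omega) (by omega)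

/-- The dichotomy: either some nearly exact triple has zigzag size exactly `z`, or all exact
triples have both zigzag sizes below `z`. -/
theorem zig_ivt {j : ℕ} (z : ℕ) (hj : 0 < j) (hjn : 2 * j < n) :
    (∃ a b c, Near M k n j a b c ∧ (zp k n a b c).card = z) ∨
    ∀ a b c : ℤ, a ≤ b → b ≤ a + M → b ≤ c → c ≤ b + M → wd k n a b = j → wd k n b c = j →
      (zp k n a b c).card < z ∧ (zm k n a b c).card < z := by
  by_contra hc
  rw [not_or] at hc
  have key : ∀ a b c : ℤ, a ≤ b → b ≤ a + M → b ≤ c → c ≤ b + M → wd k n a b = j →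
      wd k n b c = j → (zp k n a b c).card < z := by
    intro a b c h1 h2 h3 h4 h5 h6
    by_contra h7
    have h8 := two_lt h hn h2 h4 (by omega)
    refine hc.1 (zig_path h hn hj (by omega) (a' := a + M) (b' := b + M) (c' := c + M)
      ⟨by omega, by omega, by omega, by omega, ?_, ?_, ?_, ?_⟩ ?_ ?_ ?_ (3 * M) a b c
      ⟨h1, h2, h3, h4, by omega, by omega, by omega, by omega⟩ (by omega) (by omega) (by omega)
      (by push_cast; ring) (not_lt.1 h7))
    iterate 6 rw [wd_shift h hn]; omega
    rw [zp_shift h hn]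
    rcases zig_hs (n := n) h h1 h3 h8.le with e | e
    · rw [e, card_empty] at h7
      have : z = 0 := by omega
      exact absurd ⟨a, b, c, ⟨h1, h2, h3, h4, by omega, by omega, by omega, by omega⟩,
        by rw [e, this, card_empty]⟩ hc.1
    · rw [e, card_empty]; omega
  refine hc.2 fun a b c h1 h2 h3 h4 h5 h6 => ⟨key a b c h1 h2 h3 h4 h5 h6, ?_⟩
  rw [← zp_shift h hn]
  exact key _ _ _ (by omega) (by omega) (by omega) (by omega) (by rwa [wd_shift h hn])
    (by rwa [wd_shift h hn])

end Pool.Agent.P.MP_3c7b76_co.G.C1
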