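import Pool.Agent.P.MP_3c7b76_co.G.PM
import Pool.Agent.P.MP_3c7b76_co.G.Ch1

/-! Existence of the symmetric chain of caps. -/

set_option linter.unusedSectionVars false

namespace Pool.Agent.P.MP_3c7b76_co.G

open Finset S C1

variable {V : Type} [Fintype V] [DecidableEq V] {M : ℕ} {k : ℤ → V → ℝ}

theorem sd_tri (A B C : Finset V) : (A \ C).card ≤ (A \ B).card + (B \ C).card :=
  (card_le_card (sdiff_triangle A B C)).trans (card_union_le _ _)

theorem inter_move (A B A' B' : Finset V) :
    (A ∩ B).card ≤ (A' ∩ B').card + ((A \ A').card + (B \ B').card) := by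
  refine le_trans (card_le_card fun x hx => ?_) ((card_union_le _ _).trans (add_le_add le_rfl
    (card_union_le _ _)))
  simp only [mem_sdiff, mem_union, mem_inter] at hx ⊢
  tauto

theorem inter3_move (A B C A' B' C' : Finset V) : (A ∩ B ∩ C).card ≤
    (A' ∩ B' ∩ C').card + ((A \ A').card + (B \ B').card + (C \ C').card) := by
  refine le_trans (card_le_card fun x hx => ?_) ((card_union_le _ _).trans (add_le_add le_rfl
    ((card_union_le _ _).trans (add_le_add (card_union_le _ _) le_rfl))))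
  simp only [mem_sdiff, mem_union, mem_inter] at hx ⊢
  tauto

theorem mid_card (A B C : Finset V) :
    (B \ (A ∪ C)).card + (A ∩ B).card + (B ∩ C).card = B.card + (A ∩ B ∩ C).card := by
  have e1 := card_sdiff_add_card_inter B (A ∪ C)
  have e2 := card_union_add_card_inter (A ∩ B) (B ∩ C)
  have e3 : B ∩ (A ∪ C) = A ∩ B ∪ B ∩ C := by ext x; simp only [mem_inter, mem_union]; tauto
  have e4 : A ∩ B ∩ (B ∩ C) = A ∩ B ∩ C := by ext x; simp only [mem_inter]; tauto
  rw [e3] at e1
  rw [e4] at e2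
  omega

variable (h : Allow M k)
include h

theorem lo_time (i : ℤ) {a : ℕ} (ha : a ≤ Fintype.card V) (d : ℕ) :
    (lo (k i) univ a \ lo (k (i + d)) univ a).card ≤ d := by
  induction d with
  | zero => simp
  | succ d ih =>
    have a1 := sd_tri (lo (k i) univ a) (lo (k (i + d)) univ a) (lo (k (i + d + 1)) univ a)
    have a2 := (lo_swap h (i + d) ha).2
    rw [Nat.cast_succ, ← add_assoc]
    omega

theorem lo_move {i l : ℤ} {a b d : ℕ} (ha : a ≤ Fintype.card V) (hb : b ≤ Fintype.card V)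
    (h1 : i ≤ l + d) (h2 : l ≤ i + d) (h3 : a ≤ b + 1) :
    (lo (k i) univ a \ lo (k l) univ b).card ≤ d + 1 := by
  have a1 := sd_tri (lo (k i) univ a) (lo (k l) univ a) (lo (k l) univ b)
  have a2 : (lo (k i) univ a \ lo (k l) univ a).card ≤ d := by
    rcases le_total i l with c | c
    · obtain ⟨e, rfl⟩ := Int.le.dest c
      exact (lo_time h i ha e).trans (by omega)
    · obtain ⟨e, rfl⟩ := Int.le.dest c
      rw [sdiff_card_eq ((card_lo_univ (h.inj _) ha).trans (card_lo_univ (h.inj _) ha).symm)]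
      exact (lo_time h l ha e).trans (by omega)
  have c1 := card_lo_univ (h.inj l) ha
  have c2 := card_lo_univ (h.inj l) hb
  have a3 : (lo (k l) univ a \ lo (k l) univ b).card ≤ 1 := by
    rcases le_total a b with c | c
    · rw [sdiff_eq_empty_iff_subset.2 ((lo_dn _ _ _).sub (lo_dn _ _ _) (by omega))]
      simp
    · rw [card_sdiff_of_subset ((lo_dn _ _ _).sub (lo_dn _ _ _) (by omega))]
      omega
  omega

theorem inter_same (i : ℤ) {a b : ℕ} (ha : a ≤ Fintype.card V) (hb : b ≤ Fintype.card V) :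
    (lo (k i) univ a ∩ lo (k i) univ b).card = min a b := by
  have c1 := card_lo_univ (h.inj i) ha
  have c2 := card_lo_univ (h.inj i) hb
  rcases le_total a b with c | c
  · rw [inter_eq_left.2 ((lo_dn _ _ _).sub (lo_dn _ _ _) (by omega))]; omega
  · rw [inter_eq_right.2 ((lo_dn _ _ _).sub (lo_dn _ _ _) (by omega))]; omega

theorem inter_opp (i : ℤ) {a b : ℕ} (ha : a ≤ Fintype.card V) (hb : b ≤ Fintype.card V) :
    (lo (k i) univ a ∩ lo (k (i + M)) univ b).card = a + b - Fintype.card V := by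
  have c1 := card_lo_univ (h.inj i) ha
  have c2 := card_lo_univ (h.inj (i + M)) hb
  have c3 := card_compl (lo (k i) univ a)
  have d : Dn (k (i + M)) (lo (k i) univ a)ᶜ := fun P Q hP hQ =>
    (h.rev _ _ _).2 (lo_dn _ _ _ _ _ (by simpa using hQ) (mem_compl.1 hP))
  have c4 := card_sdiff_add_card_inter (lo (k (i + M)) univ b) (lo (k i) univ a)ᶜ
  rw [sdiff_compl, inf_eq_inter, inter_comm] at c4
  rcases le_total (a + b) (Fintype.card V) with c | c
  · rw [inter_eq_left.2 ((lo_dn _ _ _).sub d (by omega))] at c4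
    omega
  · rw [inter_eq_right.2 (d.sub (lo_dn _ _ _) (by omega))] at c4
    omega

/-- The symmetric chain of caps: consecutive overlaps and private parts have size about `j`. -/
theorem exists_cap3 {j : ℕ} (hn : 5 * j ≤ Fintype.card V) (T : ℕ) :
    ∃ (θ : ℕ → ℤ) (a : ℕ → ℕ) (H : ℕ → Finset V), (∀ t, H t = lo (k (θ t)) univ (a t)) ∧
      (∀ t, 2 * j ≤ a t ∧ a t ≤ 3 * j) ∧ (∀ t, θ t ≤ θ (t + 1) ∧ θ (t + 1) ≤ θ t + M) ∧
      (∀ t ≤ T, (H t ∩ H (t + 1)).card ≤ j + (3 * T + 7) ∧
        j ≤ (H t ∩ H (t + 1)).card + (3 * T + 7)) ∧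
      ∀ t < T, (H (t + 1) \ (H t ∪ H (t + 2))).card ≤ j + 4 * (3 * T + 7) ∧
        j ≤ (H (t + 1) \ (H t ∪ H (t + 2))).card + 4 * (3 * T + 7) := by
  let δ : (Fin (T + 1) × Bool → ℤ) → ℕ → ℤ := fun x t =>
    if ht : t < T + 1 then x (⟨t, ht⟩, false) else 0
  let α : (Fin (T + 1) × Bool → ℤ) → ℕ → ℕ := fun x t =>
    if ht : t < T + 1 then (x (⟨t, ht⟩, true)).toNat else 2 * j
  let θ : (Fin (T + 1) × Bool → ℤ) → ℕ → ℤ := fun x t => ∑ s ∈ range t, δ x s
  let H : (Fin (T + 1) × Bool → ℤ) → ℕ → Finset V := fun x t => lo (k (θ x t)) univ (α x t)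
  let A : Fin (T + 1) × Bool → ℤ := fun i => if i.2 then 2 * j else 0
  let B : Fin (T + 1) × Bool → ℤ := fun i => if i.2 then 3 * j else M
  have hθ : ∀ x t, θ x (t + 1) = θ x t + δ x t := fun x t => sum_range_succ _ _
  have hα : ∀ x, (∀ i, A i ≤ x i ∧ x i ≤ B i) → ∀ t, 2 * j ≤ α x t ∧ α x t ≤ 3 * j := by
    intro x hx t
    simp only [α]
    split_ifs with ht
    · have := hx (⟨t, ht⟩, true)
      simp only [A, B, if_true] at this
      omega
    · omega
  have hδ : ∀ x, (∀ i, A i ≤ x i ∧ x i ≤ B i) → ∀ t, 0 ≤ δ x t ∧ δ x t ≤ M := by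
    intro x hx t
    simp only [δ]
    split_ifs with ht
    · simpa [A, B] using hx (⟨t, ht⟩, false)
    · omega
  have hm : ∀ x y, (∀ i, A i ≤ x i ∧ x i ≤ B i) → (∀ i, A i ≤ y i ∧ y i ≤ B i) →
      (∀ i, x i ≤ y i + 1 ∧ y i ≤ x i + 1) → ∀ t ≤ T + 1,
      α x t ≤ α y t + 1 ∧ (H x t \ H y t).card ≤ T + 2 := by
    intro x y hx hy hxy t ht
    have a1 : α x t ≤ α y t + 1 := by
      simp only [α]
      split_ifs with c
      · have := hxy (⟨t, c⟩, true)
        omega
      · omega
    have a2 : ∀ s : ℕ, θ x s ≤ θ y s + s ∧ θ y s ≤ θ x s + s := by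
      intro s
      induction s with
      | zero => simp [θ]
      | succ s ih =>
        have : δ x s ≤ δ y s + 1 ∧ δ y s ≤ δ x s + 1 := by
          simp only [δ]
          split_ifs with c
          · exact hxy _
          · omega
        rw [hθ, hθ]
        push_cast
        omega
    have a3 := hα x hx t
    have a4 := hα y hy t
    exact ⟨a1, (lo_move h (by omega) (by omega) (a2 t).1 (a2 t).2 a1).trans (by omega)⟩
  obtain ⟨x, hx, hf⟩ := miranda_int A B (fun i => by simp only [A, B]; split_ifs <;> omega)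
    (fun x i => if i.2 then
      ((α x i.1 + min (H x (i.1 - 1) ∩ H x i.1 ∩ H x (i.1 + 1)).card j : ℕ) : ℝ) - (3 * j : ℕ)
      else (j : ℝ) - (H x i.1 ∩ H x (i.1 + 1)).card) ((3 * T + 7 : ℕ) : ℝ)
    (fun x y hx hy hxy i => by
      have i1 := i.1.2
      split_ifs
      · have a1 := hm x y hx hy hxy (i.1 - 1) (by omega)
        have a2 := hm x y hx hy hxy i.1 (by omega)
        have a3 := hm x y hx hy hxy (i.1 + 1) (by omega)
        have a4 := inter3_move (H x (i.1 - 1)) (H x i.1) (H x (i.1 + 1)) (H y (i.1 - 1)) (H y i.1)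
          (H y (i.1 + 1))
        rw [sub_add_eq_add_sub, sub_le_sub_iff_right, ← Nat.cast_add _ (3 * T + 7), Nat.cast_le]
        omega
      · have a2 := hm y x hy hx (fun i => (hxy i).symm) i.1 (by omega)
        have a3 := hm y x hy hx (fun i => (hxy i).symm) (i.1 + 1) (by omega)
        have a4 := inter_move (H y i.1) (H y (i.1 + 1)) (H x i.1) (H x (i.1 + 1))
        have : (H y i.1 ∩ H y (i.1 + 1)).card ≤ (H x i.1 ∩ H x (i.1 + 1)).card + (3 * T + 7) := by
          omega
        have : ((H y i.1 ∩ H y (i.1 + 1)).card : ℝ) ≤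
          ((H x i.1 ∩ H x (i.1 + 1)).card + (3 * T + 7) : ℕ) := by exact_mod_cast this
        rw [Nat.cast_add] at this
        linarith)
    (fun x hx i e => by
      obtain ⟨t, _ | _⟩ := i
      · have e1 : δ x t = 0 := by simp only [δ, dif_pos t.2]; simpa [A] using e
        have a1 := hα x hx t
        have a2 := hα x hx (t + 1)
        have a3 := inter_same h (θ x t) (a := α x t) (b := α x (t + 1)) (by omega) (by omega)
        simp only [H, hθ, e1, add_zero, a3, Bool.false_eq_true, if_false, sub_nonpos, Nat.cast_le]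
        omega
      · have e1 : α x t = 2 * j := by
          simp only [α, dif_pos t.2]
          simp only [A, if_true] at e
          rw [show x (⟨t, t.2⟩, true) = 2 * j from e]
          omega
        simp only [if_true, sub_nonpos, Nat.cast_le]
        omega)
    (fun x hx i e => by
      obtain ⟨t, _ | _⟩ := i
      · have e1 : δ x t = M := by simp only [δ, dif_pos t.2]; simpa [B] using e
        have a1 := hα x hx t
        have a2 := hα x hx (t + 1)
        have a3 := inter_opp h (θ x t) (a := α x t) (b := α x (t + 1)) (by omega) (by omega)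
        simp only [H, hθ, e1, a3, Bool.false_eq_true, if_false, sub_nonneg, Nat.cast_le]
        omega
      · have e1 : α x t = 3 * j := by
          simp only [α, dif_pos t.2]
          simp only [B, if_true] at e
          rw [show x (⟨t, t.2⟩, true) = 3 * j from e]
          omega
        simp only [if_true, sub_nonneg, Nat.cast_le]
        omega)
  have k1 : ∀ t ≤ T, (H x t ∩ H x (t + 1)).card ≤ j + (3 * T + 7) ∧
      j ≤ (H x t ∩ H x (t + 1)).card + (3 * T + 7) := fun t ht => by
    have := abs_le.1 (hf (⟨t, by omega⟩, false))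
    simp only [Bool.false_eq_true, if_false] at this
    constructor
    · have : ((H x t ∩ H x (t + 1)).card : ℝ) ≤ j + (3 * T + 7 : ℕ) := by linarith [this.1]
      exact_mod_cast this
    · have : (j : ℝ) ≤ (H x t ∩ H x (t + 1)).card + (3 * T + 7 : ℕ) := by linarith [this.2]
      exact_mod_cast this
  refine ⟨θ x, α x, H x, fun _ => rfl, hα x hx, fun t => ?_, k1, fun t ht => ?_⟩
  · have := hδ x hx t
    rw [hθ]
    omega
  · have a1 := abs_le.1 (hf (⟨t + 1, by omega⟩, true))
    simp only [if_true, Nat.add_sub_cancel] at a1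
    have a2 : 3 * j ≤ α x (t + 1) + min (H x t ∩ H x (t + 1) ∩ H x (t + 1 + 1)).card j +
        (3 * T + 7) := by
      have := a1.1
      rw [neg_le_sub_iff_le_add, ← Nat.cast_add _ (3 * T + 7), Nat.cast_le] at this
      exact this
    have a3 : α x (t + 1) + min (H x t ∩ H x (t + 1) ∩ H x (t + 1 + 1)).card j ≤
        (3 * T + 7) + 3 * j := by
      have := a1.2
      rw [sub_le_iff_le_add, ← Nat.cast_add (3 * T + 7), Nat.cast_le] at this
      exact this
    have a4 := mid_card (H x t) (H x (t + 1)) (H x (t + 1 + 1))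
    have a5 := k1 t (by omega)
    have a6 := k1 (t + 1) (by omega)
    have a7 : (H x (t + 1)).card = α x (t + 1) :=
      card_lo_univ (h.inj _) (by have := hα x hx (t + 1); omega)
    have a8 : (H x t ∩ H x (t + 1) ∩ H x (t + 1 + 1)).card ≤ (H x t ∩ H x (t + 1)).card :=
      card_le_card inter_subset_left
    rw [show t + 2 = t + 1 + 1 from rfl]
    omega

/-- The same chain with strict inequalities between the times. -/
theorem exists_cap3' {j : ℕ} (hn : 6 * j ≤ Fintype.card V) (T : ℕ) (hj : 3 * T + 7 < j) :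
    ∃ (θ : ℕ → ℤ) (a : ℕ → ℕ) (H : ℕ → Finset V), (∀ t, H t = lo (k (θ t)) univ (a t)) ∧
      (∀ t, 2 * j ≤ a t ∧ a t ≤ 3 * j) ∧ (∀ t ≤ T, θ t < θ (t + 1) ∧ θ (t + 1) < θ t + M) ∧
      (∀ t ≤ T, (H t ∩ H (t + 1)).card ≤ j + (3 * T + 7) ∧
        j ≤ (H t ∩ H (t + 1)).card + (3 * T + 7)) ∧
      ∀ t < T, (H (t + 1) \ (H t ∪ H (t + 2))).card ≤ j + 4 * (3 * T + 7) ∧
        j ≤ (H (t + 1) \ (H t ∪ H (t + 2))).card + 4 * (3 * T + 7) := by
  obtain ⟨θ, a, H, h1, h2, h3, h4, h5⟩ := exists_cap3 h (j := j) (by omega) T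
  refine ⟨θ, a, H, h1, h2, fun t ht => ?_, h4, h5⟩
  have a1 := h2 t
  have a2 := h2 (t + 1)
  have a3 := h4 t ht
  rw [h1, h1] at a3
  refine ⟨lt_of_le_of_ne (h3 t).1 fun e => ?_, lt_of_le_of_ne (h3 t).2 fun e => ?_⟩
  · rw [← e, inter_same h _ (by omega) (by omega)] at a3
    omega
  · rw [e, inter_opp h _ (by omega) (by omega)] at a3
    omega

end Pool.Agent.P.MP_3c7b76_co.G
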