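import Pool.Agent.P.MP_3c7b76_co.G.GeoA

/-! The seven cells of three halving sets, and nine cells after one transversal. -/

set_option linter.unusedSectionVars false

namespace Pool.Agent.P.MP_3c7b76_co.G

open Finset S

variable {V : Type} [Fintype V] [DecidableEq V] {M : ℕ} {k : ℤ → V → ℝ} {w : V → V → ℝ}

private theorem ew_ind (w : V → V → ℝ) (X Y : Finset V) :
    ew w X Y = ∑ u, ∑ v, if u ∈ X ∧ v ∈ Y then w u v else 0 := by
  unfold ew
  rw [← sum_ite_mem_eq X]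
  refine sum_congr rfl fun u _ => ?_
  by_cases h : u ∈ X
  · simp only [h, true_and, if_true]
    rw [← sum_ite_mem_eq Y]
  · simp [h]

private theorem sq_ind (X : Finset V) :
    (X.card : ℝ) ^ 2 = ∑ u, ∑ v, if u ∈ X ∧ v ∈ X then (1 : ℝ) else 0 := by
  rw [← ew_ind (fun _ _ => 1) X X]
  simp [ew, sq]

/-- Two points lie in one class or are separated by one of the sets. -/
theorem cells (hw : Wt w) {p q : ℕ} (X : Fin p → Finset V) (H : Fin q → Finset V) {c : ℝ}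
    (hc : ∀ i, ew w (H i) (H i)ᶜ ≤ c)
    (h : ∀ u v, (∀ i, u ∈ H i ↔ v ∈ H i) → ∃ i, u ∈ X i ∧ v ∈ X i) :
    ew w univ univ ≤ ∑ i, ((X i).card : ℝ) ^ 2 + 2 * q * c := by
  have e1 : ∑ i, (ew w (H i) (H i)ᶜ + ew w (H i)ᶜ (H i)) ≤ 2 * q * c := by
    calc _ ≤ ∑ _i : Fin q, 2 * c := sum_le_sum fun i _ => by
          rw [ew_comm hw (H i)ᶜ]; linarith [hc i]
      _ = _ := by simp; ring
  refine le_trans ?_ (add_le_add le_rfl e1)
  simp only [sq_ind, ew_ind w (H _), ew_ind w _ (H _), ← sum_add_distrib]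
  rw [sum_comm, sum_comm (s := (univ : Finset (Fin q))), ← sum_add_distrib]
  refine sum_le_sum fun u _ => ?_
  rw [sum_comm, sum_comm (s := (univ : Finset (Fin q))), ← sum_add_distrib]
  refine sum_le_sum fun v _ => ?_
  have n1 : ∀ i ∈ (univ : Finset (Fin p)),
      (0 : ℝ) ≤ if u ∈ X i ∧ v ∈ X i then (1 : ℝ) else 0 := fun i _ => by
    split_ifs <;> norm_num
  have n2 : ∀ i ∈ (univ : Finset (Fin q)), (0 : ℝ) ≤ (if u ∈ H i ∧ v ∈ (H i)ᶜ then w u v else 0) +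
      if u ∈ (H i)ᶜ ∧ v ∈ H i then w u v else 0 := fun i _ => by
    have := hw.nn u v
    split_ifs <;> linarith
  by_cases hs : ∀ i, u ∈ H i ↔ v ∈ H i
  · obtain ⟨i, hi⟩ := h u v hs
    have a1 := single_le_sum n1 (mem_univ i)
    rw [if_pos hi] at a1
    linarith [hw.le u v, sum_nonneg n2]
  · obtain ⟨i, hi⟩ := not_forall.1 hs
    have a1 := single_le_sum n2 (mem_univ i)
    have a2 : (if u ∈ H i ∧ v ∈ (H i)ᶜ then w u v else 0) +
        (if u ∈ (H i)ᶜ ∧ v ∈ H i then w u v else 0) = w u v := by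
      by_cases h1 : u ∈ H i <;> by_cases h2 : v ∈ H i <;> simp_all
    rw [a2] at a1
    linarith [sum_nonneg n1]

private theorem cadd {X Y Z : Finset V} (h : ∀ u, (u ∈ Z ↔ u ∈ X ∨ u ∈ Y) ∧ ¬ (u ∈ X ∧ u ∈ Y)) :
    (X.card : ℝ) + Y.card = Z.card := by
  have e : Z = X ∪ Y := by ext u; rw [mem_union]; exact (h u).1
  rw [e, card_union_of_disjoint (disjoint_left.2 fun u a b => (h u).2 ⟨a, b⟩), Nat.cast_add]

private theorem sizes {j : ℕ} {c N : ℝ} (e : Env M k w j c N) {g g' : ℕ} {a b d : ℤ}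
    (l : Lk M k g a b) (l' : Lk M k g' b d) (h0 : zm k a b d = 0) {y : ℝ} (hy : y = zp k a b d) :
    ew w univ univ = 2 * j * (N * j) ∧ (((hs k a ∩ hs k d) \ hs k b).card : ℝ) = y ∧
      ((hs k b \ hs k a).card : ℝ) = g ∧ (((hs k a \ hs k b) \ hs k d).card : ℝ) = g - y ∧
      ((hs k b \ hs k d).card : ℝ) = g' ∧ (((hs k d \ hs k b) \ hs k a).card : ℝ) = g' - y ∧
      ((hs k a ∩ hs k b ∩ hs k d).card : ℝ) = N * j / 2 - g - g' ∧
      (((hs k a ∪ hs k b ∪ hs k d)ᶜ).card : ℝ) = N * j / 2 - g - g' + y := by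
  have t := e.tot
  rw [pot, card_univ, e.card] at t
  have c1 : ((hs k b \ hs k a).card : ℝ) = g := by exact_mod_cast l.2.2
  have c2 : ((hs k a \ hs k b).card : ℝ) = g := by rw [wd_symm e.al, l.2.2]
  have c3 : ((hs k d \ hs k b).card : ℝ) = g' := by exact_mod_cast l'.2.2
  have c4 : ((hs k b \ hs k d).card : ℝ) = g' := by rw [wd_symm e.al, l'.2.2]
  have c5 : ((hs k b).card : ℝ) = N * j / 2 := by
    obtain ⟨m, hm⟩ := e.even
    rw [hs_card e.al, ← e.card, hm, show (m + m) / 2 = m by omega]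
    push_cast
    ring
  have c6 : ((hs k b).card : ℝ) + ((hs k b)ᶜ).card = N * j := by
    rw [← e.card]; exact_mod_cast card_add_card_compl _
  have z : ∀ u ∈ hs k b, u ∈ hs k a ∨ u ∈ hs k d := fun u hu => by
    by_contra hn
    have : u ∈ hs k b \ (hs k a ∪ hs k d) := mem_sdiff.2 ⟨hu, fun h => hn (mem_union.1 h)⟩
    rw [card_eq_zero.1 h0] at this
    exact notMem_empty _ this
  unfold zp at hy
  generalize hs k a = A at *
  generalize hs k b = B at *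
  generalize hs k d = C at *
  have d1 := cadd (X := (A \ B) \ C) (Y := (A ∩ C) \ B) (Z := A \ B) fun u => by
    simp only [mem_sdiff, mem_inter]; tauto
  have d2 := cadd (X := (C \ B) \ A) (Y := (A ∩ C) \ B) (Z := C \ B) fun u => by
    simp only [mem_sdiff, mem_inter]; tauto
  have d3 := cadd (X := A ∩ B ∩ C) (Y := B \ A) (Z := B ∩ C) fun u => by
    have := z u
    simp only [mem_sdiff, mem_inter]; tauto
  have d4 := cadd (X := B ∩ C) (Y := B \ C) (Z := B) fun u => by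
    simp only [mem_sdiff, mem_inter]; tauto
  have d5 := cadd (X := (A ∪ B ∪ C)ᶜ) (Y := A \ B) (Z := Bᶜ \ ((C \ B) \ A)) fun u => by
    simp only [mem_sdiff, mem_union, mem_compl]; tauto
  have d6 := cadd (X := Bᶜ \ ((C \ B) \ A)) (Y := (C \ B) \ A) (Z := Bᶜ) fun u => by
    simp only [mem_sdiff, mem_compl]; tauto
  refine ⟨?_, hy.symm, c1, ?_, c4, ?_, ?_, ?_⟩ <;> linarith

theorem cell7 {j : ℕ} {c N : ℝ} (e : Env M k w j c N) {g g' : ℕ} {a b d : ℤ} (l : Lk M k g a b)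
    (l' : Lk M k g' b d) (h0 : zm k a b d = 0) {y : ℝ} (hy : y = zp k a b d) :
    2 * j * (N * j) ≤ y ^ 2 + g ^ 2 + (g - y) ^ 2 + g' ^ 2 + (g' - y) ^ 2 +
      (N * j / 2 - g - g') ^ 2 + (N * j / 2 - g - g' + y) ^ 2 + 6 * c := by
  obtain ⟨t, c1, c2, c3, c4, c5, c6, c7⟩ := sizes e l l' h0 hy
  have ca := e.cut a _ (hs_dn k a)
  have cb := e.cut b _ (hs_dn k b)
  have cd := e.cut d _ (hs_dn k d)
  generalize hs k a = A at *
  generalize hs k b = B at *
  generalize hs k d = C at *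
  have := cells e.wt ![(A ∩ C) \ B, B \ A, (A \ B) \ C, B \ C, (C \ B) \ A, A ∩ B ∩ C,
    (A ∪ B ∪ C)ᶜ] ![A, B, C] (c := c) (by simp [Fin.forall_fin_succ, ca, cb, cd]) fun u v h => by
      have h1 : u ∈ A ↔ v ∈ A := h 0
      have h2 : u ∈ B ↔ v ∈ B := h 1
      have h3 : u ∈ C ↔ v ∈ C := h 2
      by_cases uA : u ∈ A <;> by_cases uB : u ∈ B <;> by_cases uC : u ∈ C <;>
        simp [Fin.exists_fin_succ, ← h1, ← h2, ← h3, uA, uB, uC]
  simp only [Fin.sum_univ_succ, Fin.sum_univ_zero, Matrix.cons_val_zero, Matrix.cons_val_succ,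
    t, c1, c2, c3, c4, c5, c6, c7] at this
  push_cast at this
  linarith

private theorem half_sq (P H : Finset V) (h : (P ∩ H).card = P.card / 2) :
    ((P ∩ H).card : ℝ) ^ 2 + ((P \ H).card : ℝ) ^ 2 ≤ (P.card : ℝ) ^ 2 / 2 + 1 / 2 := by
  have e := card_inter_add_card_sdiff P H
  have e1 : (P \ H).card = (P ∩ H).card ∨ (P \ H).card = (P ∩ H).card + 1 := by omega
  rw [← e]
  rcases e1 with e1 | e1 <;> rw [e1] <;> push_cast <;> nlinarith

theorem cell9 {j : ℕ} {c N : ℝ} (e : Env M k w j c N) {g g' : ℕ} {a b d : ℤ} (l : Lk M k g a b)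
    (l' : Lk M k g' b d) (h0 : zm k a b d = 0) {y : ℝ} (hy : y = zp k a b d) :
    2 * j * (N * j) ≤ y ^ 2 + g ^ 2 + (g - y) ^ 2 + g' ^ 2 + (g' - y) ^ 2 +
      (N * j / 2 - g - g') ^ 2 / 2 + (N * j / 2 - g - g' + y) ^ 2 / 2 + 1 + 8 * c := by
  obtain ⟨t, c1, c2, c3, c4, c5, c6, c7⟩ := sizes e l l' h0 hy
  have ca := e.cut a _ (hs_dn k a)
  have cb := e.cut b _ (hs_dn k b)
  have cd := e.cut d _ (hs_dn k d)
  have db := hs_dn k b
  generalize hs k a = A at *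
  generalize hs k b = B at *
  generalize hs k d = C at *
  have sp : Sep k (A ∩ B ∩ C) (A ∪ B ∪ C)ᶜ := ⟨b, fun P hP Q hQ => db P Q
    (mem_inter.1 (mem_inter.1 hP).1).2 fun h =>
      mem_compl.1 hQ (mem_union_left _ (mem_union_right _ h))⟩
  obtain ⟨i, H, hH, e1, e2⟩ := e.al.transversal sp (Nat.div_le_self _ 2) (Nat.div_le_self _ 2)
  have ch := e.cut i _ hH
  have s1 := half_sq _ _ e1
  have s2 := half_sq _ _ e2
  have := cells e.wt ![(A ∩ C) \ B, B \ A, (A \ B) \ C, B \ C, (C \ B) \ A, A ∩ B ∩ C ∩ H,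
    (A ∩ B ∩ C) \ H, (A ∪ B ∪ C)ᶜ ∩ H, (A ∪ B ∪ C)ᶜ \ H] ![A, B, C, H] (c := c)
    (by simp [Fin.forall_fin_succ, ca, cb, cd, ch]) fun u v h => by
      have h1 : u ∈ A ↔ v ∈ A := h 0
      have h2 : u ∈ B ↔ v ∈ B := h 1
      have h3 : u ∈ C ↔ v ∈ C := h 2
      have h4 : u ∈ H ↔ v ∈ H := h 3
      by_cases uA : u ∈ A <;> by_cases uB : u ∈ B <;> by_cases uC : u ∈ C <;>
        by_cases uH : u ∈ H <;>
        simp [Fin.exists_fin_succ, ← h1, ← h2, ← h3, ← h4, uA, uB, uC, uH]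
  rw [c6] at s1
  rw [c7] at s2
  simp only [Fin.sum_univ_succ, Fin.sum_univ_zero, Matrix.cons_val_zero, Matrix.cons_val_succ,
    t, c1, c2, c3, c4, c5] at this
  push_cast at this
  linarith

end Pool.Agent.P.MP_3c7b76_co.G
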