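import Pool.Agent.P.MP_3c7b76_co.G.Top

/-! Definitions for the window certificates on chains of halving sets. -/

set_option linter.unusedSectionVars false

namespace Pool.Agent.P.MP_3c7b76_co.G

open Finset S

variable {V : Type} [Fintype V] [DecidableEq V]

/-- The halving set of the order number `i`. -/
noncomputable def hs (k : ℤ → V → ℝ) (i : ℤ) : Finset V := lo (k i) univ (Fintype.card V / 2)

/-- The wedge between two halving sets. -/
noncomputable def wd (k : ℤ → V → ℝ) (a b : ℤ) : ℕ := (hs k b \ hs k a).card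

/-- A link: at most half a turn, wedge of size `g`. -/
def Lk (M : ℕ) (k : ℤ → V → ℝ) (g : ℕ) (a b : ℤ) : Prop := a ≤ b ∧ b ≤ a + M ∧ wd k a b = g

/-- The cell in, out, in. -/
noncomputable def zp (k : ℤ → V → ℝ) (a b c : ℤ) : ℕ := ((hs k a ∩ hs k c) \ hs k b).card

/-- The cell out, in, out. -/
noncomputable def zm (k : ℤ → V → ℝ) (a b c : ℤ) : ℕ := (hs k b \ (hs k a ∪ hs k c)).card

/-- The number with binary digits `s 0, ..., s (L - 1)`. -/
def wv (L : ℕ) (s : ℕ → Bool) : ℕ := ∑ i ∈ range L, if s i then 2 ^ i else 0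

/-- The membership window of a point. -/
def win (L : ℕ) (S : ℕ → Finset V) (x : ℕ) (u : V) : ℕ := wv L fun i => decide (u ∈ S (x + i))

/-- Features: constant, sign, change, zigzag. -/
def ft (c : ℕ × ℕ × ℕ × ℕ) (w : ℕ) : ℤ :=
  if c.1 = 0 then 1
  else if c.1 = 1 then (if w.testBit c.2.1 then 1 else -1)
  else if c.1 = 2 then (if w.testBit c.2.1 = w.testBit c.2.2.1 then 0 else 1)
  else if w.testBit c.2.1 = w.testBit c.2.2.2 ∧ w.testBit c.2.1 ≠ w.testBit c.2.2.1 then 1 else 0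

/-- Admissible windows of the order of a pair: triples of `P` are convex, triples of `Q` are not
constant. -/
def rokL (P Q : List (ℕ × ℕ × ℕ)) (s : ℕ) : Bool :=
  (P.all fun t => s.testBit t.1 != s.testBit t.2.2 || s.testBit t.2.1 == s.testBit t.1) &&
    Q.all fun t => s.testBit t.1 != s.testBit t.2.1 || s.testBit t.2.1 != s.testBit t.2.2

/-- Admissible windows of a point: no triple of `Z` reads out, in, out. -/
def okL (Z : List (ℕ × ℕ × ℕ)) (u : ℕ) : Bool :=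
  Z.all fun t => u.testBit t.1 || !u.testBit t.2.1 || u.testBit t.2.2

/-- Where the windows `u` and `v` differ, `s` agrees with `u`. -/
def Dom (L u v s : ℕ) : Prop := ∀ i < L, u.testBit i ≠ v.testBit i → s.testBit i = u.testBit i

/-- The kernel of a table. -/
noncomputable def ker (nf : ℕ) (φ a : ℕ → ℕ → ℝ) (u v : ℕ) : ℝ :=
  ∑ f ∈ range nf, (a u f * φ f v + a v f * φ f u)

/-- The weighted number of separating positions. -/
noncomputable def sep (L : ℕ) (D : ℕ → ℝ) (u v : ℕ) : ℝ :=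
  ∑ i ∈ range L, if u.testBit i = v.testBit i then 0 else D i

/-- A window certificate. Features `φ f` have mass `m f` (at most `m f` if `le f`), the feature
`r` has mass two. -/
structure Tab (L nf : ℕ) (φ : ℕ → ℕ → ℝ) (le : ℕ → Prop) (ok rok : ℕ → Prop) (D : ℕ → ℝ) (r : ℕ)
    (m : ℕ → ℝ) (B : ℝ) (a : ℕ → ℕ → ℝ) (lam : ℕ → ℝ) (p q : ℕ → ℕ → ℕ → ℝ) : Prop where
  pos : ∀ u < 2 ^ L, ok u → ∀ f < nf, le f → 0 ≤ a u f
  low : ∀ u < 2 ^ L, ok u →
    ∑ f ∈ range nf, a u f * m f + (∑ i ∈ range L, D i) / 2 * φ r u ≤ lam u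
  bd : ∀ u v s, 0 ≤ p u v s ∧ p u v s ≤ B ∧ 0 ≤ q u v s ∧ q u v s ≤ B
  e1 : ∀ u < 2 ^ L, ∀ v < 2 ^ L, ∀ s < 2 ^ L, ok u → ok v → rok s → Dom L u v s →
    p (u % 2 ^ (L - 1)) (v % 2 ^ (L - 1)) (s % 2 ^ (L - 1)) ≤
      ker nf φ a u v + p (u / 2) (v / 2) (s / 2)
  e2 : ∀ u < 2 ^ L, ∀ v < 2 ^ L, ∀ s < 2 ^ L, ok u → ok v → rok s → Dom L u v s →
    lam u + q (u % 2 ^ (L - 1)) (v % 2 ^ (L - 1)) (s % 2 ^ (L - 1)) ≤
      sep L D u v + ker nf φ a u v + q (u / 2) (v / 2) (s / 2)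

/-- The shape of a certificate. Features with index at least `ne` are upper bounds only. -/
structure Shp where
  L : ℕ
  fl : List (ℕ × ℕ × ℕ × ℕ)
  ne : ℕ
  r : ℕ
  Pl : List (ℕ × ℕ × ℕ)
  Ql : List (ℕ × ℕ × ℕ)
  Zl : List (ℕ × ℕ × ℕ)

/-- A certificate of a given shape exists, with positive total weight. -/
def Shp.Has (h : Shp) (m : ℕ → ℝ) (B : ℝ) : Prop :=
  ∃ (D : ℕ → ℝ) (a : ℕ → ℕ → ℝ) (lam : ℕ → ℝ) (p q : ℕ → ℕ → ℕ → ℝ),
    (∀ i, 0 ≤ D i) ∧ 0 < ∑ i ∈ range h.L, D i ∧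
    Tab h.L h.fl.length (fun f u => (ft (h.fl.getD f (0, 0, 0, 0)) u : ℝ)) (fun f => h.ne ≤ f)
      (fun u => okL h.Zl u = true) (fun s => rokL h.Pl h.Ql s = true) D h.r m B a lam p q

/-- The sets `S` fit the shape on the windows `x < T`, with masses `m f * j` up to `E`. -/
structure Shp.Fit (h : Shp) (m : ℕ → ℝ) (j E : ℝ) (S : ℕ → Finset V) (T : ℕ) : Prop where
  ok : ∀ x < T, ∀ u, okL h.Zl (win h.L S x u) = true
  up : ∀ x < T, ∀ f < h.fl.length,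
    ∑ u, (ft (h.fl.getD f (0, 0, 0, 0)) (win h.L S x u) : ℝ) ≤ m f * j + E
  dn : ∀ x < T, ∀ f < h.ne, f < h.fl.length →
    m f * j - E ≤ ∑ u, (ft (h.fl.getD f (0, 0, 0, 0)) (win h.L S x u) : ℝ)
  rf : ∀ x < T, 2 * j - E ≤ ∑ u, (ft (h.fl.getD h.r (0, 0, 0, 0)) (win h.L S x u) : ℝ)
  rho : ∀ u v, ∃ ρ : ℕ → Bool, (∀ x < T, rokL h.Pl h.Ql (wv h.L fun i => ρ (x + i)) = true) ∧
    ∀ i, ¬ (u ∈ S i ↔ v ∈ S i) → ρ i = decide (u ∈ S i)

/-- The standing assumptions. -/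
structure Env (M : ℕ) (k : ℤ → V → ℝ) (w : V → V → ℝ) (j : ℕ) (c N : ℝ) : Prop where
  wt : Wt w
  al : Allow M k
  pos : 0 < M
  cut : ∀ i H, Dn (k i) H → ew w H Hᶜ ≤ c
  tot : pot w (2 * j) univ = 0
  bal : ∀ Y, 0 ≤ pot w (2 * j) Y
  card : (Fintype.card V : ℝ) = N * j
  even : Even (Fintype.card V)

end Pool.Agent.P.MP_3c7b76_co.G
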