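import Pool.Agent.P.MP_3c7b76_co.G.Df

/-! The shapes of the certificates and the statements of the tables. -/

namespace Pool.Agent.P.MP_3c7b76_co.G

/-- Features of the chain certificates. -/
def fl6 : List (ℕ × ℕ × ℕ × ℕ) :=
  [(0, 0, 0, 0), (1, 0, 0, 0), (1, 1, 0, 0), (1, 2, 0, 0), (1, 3, 0, 0), (1, 4, 0, 0), (1, 5, 0, 0),
    (2, 0, 1, 0), (2, 1, 2, 0), (2, 2, 3, 0), (2, 3, 4, 0), (2, 4, 5, 0),
    (3, 0, 1, 2), (3, 1, 2, 3), (3, 2, 3, 4), (3, 3, 4, 5)]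

/-- Chains with two or three steps in a half turn. -/
def sh23 : Shp := ⟨6, fl6, 12, 9, [(0, 1, 2), (1, 2, 3), (2, 3, 4), (3, 4, 5)],
  [(0, 2, 3), (1, 3, 4), (2, 4, 5)], []⟩

/-- Chains with three or four steps in a half turn. -/
def sh34 : Shp := ⟨6, fl6, 12, 9,
  [(0, 1, 2), (1, 2, 3), (2, 3, 4), (3, 4, 5), (0, 1, 3), (1, 2, 4), (2, 3, 5)],
  [(0, 3, 4), (1, 4, 5)], []⟩

/-- Five sets with a known zigzag in the middle. -/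
def shAB : Shp := ⟨5, [(0, 0, 0, 0), (1, 0, 0, 0), (1, 1, 0, 0), (1, 2, 0, 0), (1, 3, 0, 0),
    (1, 4, 0, 0), (2, 0, 1, 0), (2, 1, 2, 0), (2, 2, 3, 0), (2, 3, 4, 0), (3, 1, 2, 3)], 11, 7,
  [(0, 1, 2), (1, 2, 3), (2, 3, 4)], [(0, 2, 3), (1, 3, 4)], [(1, 2, 3)]⟩

/-- Four sets in a half turn, small last zigzag. -/
def shNA : Shp := ⟨4, [(0, 0, 0, 0), (1, 0, 0, 0), (1, 1, 0, 0), (1, 2, 0, 0), (1, 3, 0, 0),
    (2, 0, 1, 0), (2, 1, 2, 0), (2, 2, 3, 0), (3, 1, 2, 3)], 8, 6,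
  [(0, 1, 2), (1, 2, 3), (0, 1, 3)], [], []⟩

/-- Four sets in a half turn, small first zigzag. -/
def shNB : Shp := ⟨4, [(0, 0, 0, 0), (1, 0, 0, 0), (1, 1, 0, 0), (1, 2, 0, 0), (1, 3, 0, 0),
    (2, 0, 1, 0), (2, 1, 2, 0), (2, 2, 3, 0), (3, 0, 1, 2)], 8, 6,
  [(0, 1, 2), (1, 2, 3), (0, 1, 3)], [], []⟩

/-- Two nested triples with the same middle set. -/
def shTW : Shp := ⟨5, [(0, 0, 0, 0), (1, 0, 0, 0), (1, 1, 0, 0), (1, 2, 0, 0), (1, 3, 0, 0),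
    (1, 4, 0, 0), (2, 1, 2, 0), (2, 2, 3, 0), (2, 0, 2, 0), (2, 2, 4, 0), (3, 1, 2, 3),
    (3, 0, 2, 4)], 11, 6,
  [(0, 1, 2), (1, 2, 3), (2, 3, 4), (0, 1, 3), (0, 1, 4), (1, 2, 4)], [], [(1, 2, 3)]⟩

/-- Masses: `N`, then `L` zeros, then `L - 1` twos, then `z`. -/
noncomputable def mas (L : ℕ) (N z : ℝ) (f : ℕ) : ℝ :=
  if f = 0 then N else if f ≤ L then 0 else if f < 2 * L then 2 else z

/-- Masses for the nested triples. -/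
noncomputable def masT (N : ℝ) (f : ℕ) : ℝ :=
  if f = 0 then N else if f ≤ 5 then 0 else if f ≤ 7 then 2 else if f ≤ 9 then 23 / 10
  else if f = 10 then 1 / 4 else 1 / 20

/-- The threshold for the zigzag. -/
noncomputable def zlo (N : ℝ) : ℝ :=
  if N ≤ 9 / 2 then 37 / 200 else if N ≤ 23 / 5 then 37 / 200 + 13 / 20 * (N - 9 / 2) else 1 / 4

/-- The statements of the tables. -/
structure Tabs : Prop where
  c23 : ∀ N : ℝ, 4 ≤ N → N ≤ 6 → ∃ B, sh23.Has (mas 6 N (zlo N)) B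
  c34 : ∀ N : ℝ, 11 / 2 ≤ N → N ≤ 8 → ∃ B, sh34.Has (mas 6 N (1 / 4 + (N - 11 / 2) / 25)) B
  ab : ∀ N : ℝ, 4 ≤ N → N ≤ 5 → shAB.Has (mas 5 N (zlo N)) 0
  na : ∀ N : ℝ, 4 ≤ N → N ≤ 5 → shNA.Has (mas 4 N (1 / 4)) 0
  nb : ∀ N : ℝ, 4 ≤ N → N ≤ 5 → shNB.Has (mas 4 N (1 / 4)) 0
  tw : ∀ N : ℝ, 13 / 2 ≤ N → N ≤ 53 / 8 → shTW.Has (masT N) 0

end Pool.Agent.P.MP_3c7b76_co.G
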