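import Pool.Agent.P.MP_3c7b76_co.G.Red
import Pool.Agent.P.MP_3c7b76_co.G.Shp
import Pool.Agent.P.MP_3c7b76_co.G.C3c

/-! From the tables to the core bound. -/

set_option linter.unusedSectionVars false

namespace Pool.Agent.P.MP_3c7b76_co.G

open Finset S

theorem Shp.Has.mono {h : Shp} {m m' : ℕ → ℝ} {B : ℝ} (hh : h.Has m B)
    (hm : ∀ f < h.fl.length, m' f ≤ m f ∧ (f < h.ne → m' f = m f)) : h.Has m' B := by
  obtain ⟨D, a, lam, p, q, h1, h2, t⟩ := hh
  refine ⟨D, a, lam, p, q, h1, h2, t.pos, fun u hu ok => le_trans (add_le_add (sum_le_sum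
    fun f hf => ?_) le_rfl) (t.low u hu ok), t.bd, t.e1, t.e2⟩
  have hf := mem_range.1 hf
  rcases lt_or_ge f h.ne with c | c
  · rw [(hm f hf).2 c]
  · exact mul_le_mul_of_nonneg_left (hm f hf).1 (t.pos u hu ok f hf c)

theorem mas6 {N z z' : ℝ} (hz : z ≤ z') : ∀ f < 16,
    mass N z (fl6.getD f (0, 0, 0, 0)) ≤ mas 6 N z' f ∧
      (f < 12 → mass N z (fl6.getD f (0, 0, 0, 0)) = mas 6 N z' f) := by
  intro f hf
  interval_cases f <;> simp [mass, mas, fl6, hz]

theorem zlo_bd {N : ℝ} : 0 ≤ zlo N ∧ zlo N ≤ 1 / 4 ∧ (5 ≤ N → zlo N = 1 / 4) := by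
  unfold zlo
  split_ifs with h1 h2
  · exact ⟨by norm_num, by norm_num, fun h => by linarith⟩
  · exact ⟨by linarith, by linarith, fun h => by linarith⟩
  · exact ⟨by norm_num, le_rfl, fun _ => rfl⟩

theorem tri_lo {N z : ℝ} (h4 : 4 < N) (hz : z ≤ 1 / 4) (ab : shAB.Has (mas 5 N z) 0)
    (na : shNA.Has (mas 4 N (1 / 4)) 0) (nb : shNB.Has (mas 4 N (1 / 4)) 0) : TriAt N z := by
  obtain ⟨C1, H1⟩ := shAB.fin (by decide) ab N (E := 4) (by norm_num)
  obtain ⟨C2, H2⟩ := shNA.fin (by decide) na N (E := 4) (by norm_num)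
  obtain ⟨C3, H3⟩ := shNB.fin (by decide) nb N (E := 4) (by norm_num)
  refine ⟨max C1 (max C2 C3), 1, fun V _ _ M k w j c hj e a b d l l' h0 y1 y2 => ?_⟩
  have j1 : (1 : ℝ) ≤ j := by exact_mod_cast hj
  have j0 : (0 : ℝ) ≤ j := Nat.cast_nonneg j
  have b4 : j + j < Fintype.card V / 2 := by
    have : ((j + j : ℕ) : ℝ) < (Fintype.card V / 2 : ℕ) := by
      rw [e.half]; push_cast; nlinarith
    exact_mod_cast this
  obtain ⟨a0, -, l0⟩ := ex_left e.al e.even (g := j) (a := a) (b := a) le_rfl (by omega)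
    (by rw [wd_self]; omega) (by omega)
  obtain ⟨a4, -, l4⟩ := ex_right e.al e.even (g := j) (a := d) (b := d) le_rfl (by omega)
    (by rw [wd_self]; omega) (by omega)
  have t0 := two_lk e.al e.even l0 l b4
  have t1 := two_lk e.al e.even l l' b4
  have t2 := two_lk e.al e.even l' l4 b4
  have zj : z * j ≤ 1 / 4 * j := mul_le_mul_of_nonneg_right hz j0
  obtain ⟨p0, q0, w0⟩ := l0
  obtain ⟨p1, q1, w1⟩ := l
  obtain ⟨p2, q2, w2⟩ := l'
  obtain ⟨p3, q3, w3⟩ := l4
  have hN := e.card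
  have fin : ∀ C, C ≤ max C1 (max C2 C3) → (j : ℝ) ^ 2 - C * j ≤ c →
      (j : ℝ) ^ 2 - max C1 (max C2 C3) * j ≤ c := fun C hC hh => by
    linarith [mul_le_mul_of_nonneg_right hC j0]
  rcases le_total d (a0 + M) with c1 | c1
  · refine fin C2 ((le_max_left _ _).trans (le_max_right _ _)) (H2 V w j c _ j0 e.wt e.tot e.bal hN
      (fun x => e.cut _ _ (hs_dn k _)) (fit_gen e.al e.even (by omega) shNA
        (by unfold Shp.Bd; decide) (fun t => [a0, a, b, d].getD t 0) 1 ?_ ?_ ?_ ?_ ?_ ?_))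
    · simp [shNA]; omega
    · simp [shNA]
    · simp [shNA]
    · intro x hx f hf
      obtain rfl : x = 0 := by omega
      change f < 9 at hf
      interval_cases f <;> simp [shNA, val, mas, w0, w1, w2, h0, hN] <;> linarith
    · intro x hx f hf _
      obtain rfl : x = 0 := by omega
      change f < 8 at hf
      interval_cases f <;> simp [shNA, val, mas, w0, w1, w2, hN]
    · intro x hx
      obtain rfl : x = 0 := by omega
      simp [shNA, val, w1]
  rcases le_total a4 (a + M) with c2 | c2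
  · refine fin C3 ((le_max_right _ _).trans (le_max_right _ _)) (H3 V w j c _ j0 e.wt e.tot e.bal hN
      (fun x => e.cut _ _ (hs_dn k _)) (fit_gen e.al e.even (by omega) shNB
        (by unfold Shp.Bd; decide) (fun t => [a, b, d, a4].getD t 0) 1 ?_ ?_ ?_ ?_ ?_ ?_))
    · simp [shNB]; omega
    · simp [shNB]
    · simp [shNB]
    · intro x hx f hf
      obtain rfl : x = 0 := by omega
      change f < 9 at hf
      interval_cases f <;> simp [shNB, val, mas, w3, w1, w2, h0, hN] <;> linarith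
    · intro x hx f hf _
      obtain rfl : x = 0 := by omega
      change f < 8 at hf
      interval_cases f <;> simp [shNB, val, mas, w3, w1, w2, hN]
    · intro x hx
      obtain rfl : x = 0 := by omega
      simp [shNB, val, w2]
  · refine fin C1 (le_max_left _ _) (H1 V w j c _ j0 e.wt e.tot e.bal hN
      (fun x => e.cut _ _ (hs_dn k _)) (fit_gen e.al e.even (by omega) shAB
        (by unfold Shp.Bd; decide) (fun t => [a0, a, b, d, a4].getD t 0) 1 ?_ ?_ ?_ ?_ ?_ ?_))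
    · simp [shAB]; omega
    · simp [shAB]; omega
    · simp [shAB, h0]
    · intro x hx f hf
      obtain rfl : x = 0 := by omega
      change f < 11 at hf
      interval_cases f <;> simp [shAB, val, mas, w0, w1, w2, w3, h0, hN] <;> linarith
    · intro x hx f hf _
      obtain rfl : x = 0 := by omega
      change f < 11 at hf
      interval_cases f <;> simp [shAB, val, mas, w0, w1, w2, w3, h0, hN] <;> linarith
    · intro x hx
      obtain rfl : x = 0 := by omega
      simp [shAB, val, w1]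

/-- The core bound from five families of tables. -/
theorem core_all (c23 : ∀ N : ℝ, 4 ≤ N → N ≤ 6 → ∃ B, sh23.Has (mas 6 N (zlo N)) B)
    (c34 : ∀ N : ℝ, 11 / 2 ≤ N → N ≤ 13 / 2 →
      ∃ B, sh34.Has (mas 6 N (1 / 4 + (N - 11 / 2) / 25)) B)
    (ab : ∀ N : ℝ, 4 ≤ N → N ≤ 5 → shAB.Has (mas 5 N (zlo N)) 0)
    (na : ∀ N : ℝ, 4 ≤ N → N ≤ 5 → shNA.Has (mas 4 N (1 / 4)) 0)
    (nb : ∀ N : ℝ, 4 ≤ N → N ≤ 5 → shNB.Has (mas 4 N (1 / 4)) 0) (N : ℝ) (h4 : 4 < N) :
    CoreAt N := by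
  rcases le_total (13 / 2) N with c | c
  · exact core_hi c
  obtain ⟨z0, z1, z2⟩ := zlo_bd (N := N)
  refine core_of h4 z0 (by linarith) ?_ (fun h6 => ?_) fun h6 => ?_
  · rcases le_total N 5 with c5 | c5
    · exact tri_lo h4 z1 (ab N h4.le c5) (na N h4.le c5) (nb N h4.le c5)
    · rw [z2 c5]
      exact tri_cell7 (by nlinarith [mul_nonneg (sub_nonneg.2 c5) (sub_nonneg.2 c)])
  · obtain ⟨B, hB⟩ := c23 N h4.le h6
    exact ⟨sh23, B, by unfold Shp.ChainOk Shp.Bd; decide, hB.mono (mas6 le_rfl)⟩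
  · obtain ⟨B, hB⟩ := c34 N (by linarith) c
    exact ⟨sh34, B, by unfold Shp.ChainOk Shp.Bd; decide, hB.mono (mas6 (by linarith))⟩

theorem Tabs.core (t : Tabs) (N : ℝ) (h4 : 4 < N) (_ : N < 8) : CoreAt N :=
  core_all t.c23 (fun N a b => t.c34 N a (by linarith)) t.ab t.na t.nb N h4

end Pool.Agent.P.MP_3c7b76_co.G
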