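import Pool.Agent.P.MP_3c7b76_co.G.Df

/-! Halving sets and wedges. -/

set_option linter.unusedSectionVars false

namespace Pool.Agent.P.MP_3c7b76_co.G

open Finset S

variable {V : Type} [Fintype V] [DecidableEq V] {M : ℕ} {k : ℤ → V → ℝ}

theorem hs_dn (k : ℤ → V → ℝ) (i : ℤ) : Dn (k i) (hs k i) := lo_dn _ _ _

theorem hs_card (h : Allow M k) (i : ℤ) : (hs k i).card = Fintype.card V / 2 :=
  card_lo_univ (h.inj i) (Nat.div_le_self _ _)

theorem hs_rev (h : Allow M k) (he : Even (Fintype.card V)) (i : ℤ) :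
    hs k (i + M) = (hs k i)ᶜ := by
  have d : Dn (k (i + M)) (hs k i)ᶜ := fun P Q hP hQ =>
    (h.rev _ _ _).2 (hs_dn k i _ _ (by simpa using hQ) (mem_compl.1 hP))
  have c1 := hs_card h i
  have c2 := hs_card h (i + M)
  have c3 := card_compl (hs k i)
  obtain ⟨r, hr⟩ := he
  exact Subset.antisymm ((hs_dn k _).sub d (by omega)) (d.sub (hs_dn k _) (by omega))

theorem wd_symm (h : Allow M k) (a b : ℤ) : (hs k a \ hs k b).card = wd k a b :=
  sdiff_card_eq ((hs_card h a).trans (hs_card h b).symm)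

theorem wd_self (k : ℤ → V → ℝ) (a : ℤ) : wd k a a = 0 := by
  simp [wd]

theorem wd_half (h : Allow M k) (he : Even (Fintype.card V)) (a : ℤ) :
    wd k a (a + M) = Fintype.card V / 2 := by
  have e : hs k (a + M) \ hs k a = hs k (a + M) := by
    rw [hs_rev h he]
    ext x
    simp
  rw [wd, e, hs_card h]

theorem wd_le (h : Allow M k) (_he : Even (Fintype.card V)) (a b : ℤ) :
    wd k a b ≤ Fintype.card V / 2 :=
  (card_le_card sdiff_subset).trans (hs_card h b).le

theorem wd_per (h : Allow M k) (he : Even (Fintype.card V)) (a b : ℤ) :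
    wd k (a + M) (b + M) = wd k a b := by
  rw [← wd_symm h a b, wd, hs_rev h he, hs_rev h he]
  congr 1
  ext x
  simp only [mem_sdiff, mem_compl]
  tauto

theorem zp_per (h : Allow M k) (he : Even (Fintype.card V)) (a b c : ℤ) :
    zp k (a + M) (b + M) (c + M) = zm k a b c := by
  rw [zp, zm, hs_rev h he, hs_rev h he, hs_rev h he]
  congr 1
  ext x
  simp only [mem_sdiff, mem_compl, mem_inter, mem_union]
  tauto

theorem zm_per (h : Allow M k) (he : Even (Fintype.card V)) (a b c : ℤ) :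
    zm k (a + M) (b + M) (c + M) = zp k a b c := by
  rw [zp, zm, hs_rev h he, hs_rev h he, hs_rev h he]
  congr 1
  ext x
  simp only [mem_sdiff, mem_compl, mem_inter, mem_union]
  tauto

theorem Lk.per (h : Allow M k) (he : Even (Fintype.card V)) {g : ℕ} {a b : ℤ}
    (l : Lk M k g a b) : Lk M k g (a + M) (b + M) :=
  ⟨by have := l.1; omega, by have := l.2.1; omega, (wd_per h he a b).trans l.2.2⟩

theorem wd_succ_right (h : Allow M k) (a b : ℤ) : wd k a (b + 1) ≤ wd k a b + 1 := by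
  have s : (hs k (b + 1) \ hs k b).card ≤ 1 := (lo_swap h b (Nat.div_le_self _ _)).1
  have t : hs k (b + 1) \ hs k a ⊆ (hs k b \ hs k a) ∪ (hs k (b + 1) \ hs k b) := fun x hx => by
    simp only [mem_sdiff, mem_union] at hx ⊢
    tauto
  have u := (card_le_card t).trans (card_union_le _ _)
  unfold wd
  omega

theorem wd_succ_left (h : Allow M k) (a b : ℤ) : wd k a b ≤ wd k (a + 1) b + 1 := by
  have s : (hs k (a + 1) \ hs k a).card ≤ 1 := (lo_swap h a (Nat.div_le_self _ _)).1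
  have t : hs k b \ hs k a ⊆ (hs k b \ hs k (a + 1)) ∪ (hs k (a + 1) \ hs k a) := fun x hx => by
    simp only [mem_sdiff, mem_union] at hx ⊢
    tauto
  have u := (card_le_card t).trans (card_union_le _ _)
  unfold wd
  omega

theorem wd_right (h : Allow M k) {a b b' : ℤ} (h1 : a ≤ b) (h2 : b ≤ b') (h3 : b' ≤ a + M) :
    wd k a b ≤ wd k a b' := by
  have c1 := hs_card h b
  have c2 := hs_card h b'
  have m : (hs k b' ∩ hs k a).card ≤ (hs k b ∩ hs k a).card :=
    inter_mono (c1.trans c2.symm) fun P Q a1 a2 a3 a4 a5 => by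
      have e : Q ≠ P := fun e => a2 (e ▸ a3)
      rcases h.tri a e with x | x
      · exact absurd (h.conv a b b' _ _ h1 h2 h3 x (hs_dn k b' _ _ a3 a2))
          (lt_asymm (hs_dn k b _ _ a1 a4))
      · exact (hs_dn k a).mem a5 x
  have e1 := card_sdiff_add_card_inter (hs k b) (hs k a)
  have e2 := card_sdiff_add_card_inter (hs k b') (hs k a)
  unfold wd
  omega

theorem wd_left (h : Allow M k) {a a' b : ℤ} (h1 : a ≤ a') (h2 : a' ≤ b) (h3 : b ≤ a + M) :
    wd k a' b ≤ wd k a b := by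
  have c1 := hs_card h a
  have c2 := hs_card h a'
  have m : (hs k a ∩ hs k b).card ≤ (hs k a' ∩ hs k b).card :=
    inter_mono (c2.trans c1.symm) fun P Q a1 a2 a3 a4 a5 => by
      have e : Q ≠ P := fun e => a2 (e ▸ a3)
      rcases h.tri b e with x | x
      · exact absurd (h.conv a a' b _ _ h1 h2 h3 (hs_dn k a _ _ a3 a2) x)
          (lt_asymm (hs_dn k a' _ _ a1 a4))
      · exact (hs_dn k b).mem a5 x
  have e1 := card_sdiff_add_card_inter (hs k b) (hs k a)
  have e2 := card_sdiff_add_card_inter (hs k b) (hs k a')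
  rw [inter_comm (hs k a), inter_comm (hs k a')] at m
  unfold wd
  omega

theorem wd_add (k : ℤ → V → ℝ) (a b c : ℤ) :
    wd k a c + zp k a b c + zm k a b c = wd k a b + wd k b c := by
  have e : ∀ S : Finset V, S.card = ∑ x, if x ∈ S then 1 else 0 := fun S => by simp
  unfold wd zp zm
  simp only [e, ← sum_add_distrib]
  refine sum_congr rfl fun x _ => ?_
  by_cases h1 : x ∈ hs k a <;> by_cases h2 : x ∈ hs k b <;> by_cases h3 : x ∈ hs k c <;>
    simp [h1, h2, h3]

/-- Discrete intermediate values on an integer interval. -/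
theorem ivt_int (f : ℤ → ℕ) (hf : ∀ x, f (x + 1) ≤ f x + 1) {g : ℕ} {b c : ℤ} (hbc : b ≤ c)
    (h1 : f b ≤ g) (h2 : g ≤ f c) : ∃ x, b ≤ x ∧ x ≤ c ∧ f x = g := by
  induction c, hbc using Int.leInduction with
  | base => exact ⟨b, le_rfl, le_rfl, le_antisymm h1 h2⟩
  | succ c hc ih =>
    by_cases h3 : g ≤ f c
    · obtain ⟨x, a1, a2, a3⟩ := ih h3
      exact ⟨x, a1, by omega, a3⟩
    · exact ⟨c + 1, by omega, le_rfl, by have := hf c; omega⟩

theorem ex_right (h : Allow M k) (he : Even (Fintype.card V)) {g : ℕ} {a b : ℤ} (h1 : a ≤ b)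
    (h2 : b ≤ a + M) (h3 : wd k a b ≤ g) (h4 : g ≤ Fintype.card V / 2) :
    ∃ b', b ≤ b' ∧ Lk M k g a b' := by
  obtain ⟨x, a1, a2, a3⟩ := ivt_int (wd k a) (wd_succ_right h a) h2 h3
    (by rwa [wd_half h he])
  exact ⟨x, a1, h1.trans a1, a2, a3⟩

theorem ex_left (h : Allow M k) (he : Even (Fintype.card V)) {g : ℕ} {a b : ℤ} (h1 : a ≤ b)
    (h2 : b ≤ a + M) (h3 : wd k a b ≤ g) (h4 : g ≤ Fintype.card V / 2) :
    ∃ a', a' ≤ a ∧ Lk M k g a' b := by
  have e := wd_half h he (b - M)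
  rw [sub_add_cancel] at e
  obtain ⟨x, a1, a2, a3⟩ := ivt_int (fun x => wd k (-x) b) (fun x => by
      have := wd_succ_left h (-(x + 1)) b
      rwa [show -(x + 1) + 1 = -x by ring] at this) (b := -a) (c := M - b) (g := g) (by omega)
    (by simpa using h3) (by rw [neg_sub, e]; exact h4)
  exact ⟨-x, by omega, by omega, by omega, a3⟩

theorem two_lk (h : Allow M k) (he : Even (Fintype.card V)) {g g' : ℕ} {a b c : ℤ}
    (l : Lk M k g a b) (l' : Lk M k g' b c) (hg : g + g' < Fintype.card V / 2) : c ≤ a + M := by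
  obtain ⟨a1, a2, a3⟩ := l
  obtain ⟨b1, b2, b3⟩ := l'
  by_contra hc
  have e1 := wd_right h a2 (not_le.1 hc).le b2
  have e2 := wd_add k a b (a + M)
  have e3 := wd_half h he a
  omega

theorem zz_excl (h : Allow M k) {a b c : ℤ} (h1 : a ≤ b) (h2 : b ≤ c) (h3 : c ≤ a + M) :
    zp k a b c = 0 ∨ zm k a b c = 0 := by
  by_contra hc
  rw [not_or] at hc
  obtain ⟨P, hP⟩ := card_ne_zero.1 hc.1
  obtain ⟨Q, hQ⟩ := card_ne_zero.1 hc.2
  simp only [mem_sdiff, mem_inter, mem_union, not_or] at hP hQ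
  exact lt_asymm (h.conv a b c _ _ h1 h2 h3 (hs_dn k a _ _ hP.1.1 hQ.2.1)
    (hs_dn k c _ _ hP.1.2 hQ.2.2)) (hs_dn k b _ _ hQ.1 hP.2)

end Pool.Agent.P.MP_3c7b76_co.G
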