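import Pool.Agent.P.MP_3c7b76_co.G.GeoA

/-! The intermediate value theorem for the signed zigzag of two links. -/

set_option linter.unusedSectionVars false

namespace Pool.Agent.P.MP_3c7b76_co.G

open Finset S

variable {V : Type} [Fintype V] [DecidableEq V] {M : ℕ} {k : ℤ → V → ℝ}

private theorem setA (A A' B C : Finset V) :
    ((A ∩ C) \ B).card + (B \ (A' ∪ C)).card ≤
      ((A' ∩ C) \ B).card + (B \ (A ∪ C)).card + (A \ A').card := by
  have h1 : (A ∩ C) \ B ⊆ ((A' ∩ C) \ B) ∪ ((A \ A') \ B) := fun x => by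
    simp only [mem_sdiff, mem_inter, mem_union]
    tauto
  have h2 : B \ (A' ∪ C) ⊆ (B \ (A ∪ C)) ∪ ((A \ A') ∩ B) := fun x => by
    simp only [mem_sdiff, mem_inter, mem_union]
    tauto
  have h3 := (card_le_card h1).trans (card_union_le _ _)
  have h4 := (card_le_card h2).trans (card_union_le _ _)
  have h5 := card_sdiff_add_card_inter (A \ A') B
  omega

private theorem setB (A B B' C : Finset V) :
    ((A ∩ C) \ B).card + (B' \ (A ∪ C)).card ≤
      ((A ∩ C) \ B').card + (B \ (A ∪ C)).card + (B' \ B).card := by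
  have h1 : (A ∩ C) \ B ⊆ ((A ∩ C) \ B') ∪ ((B' \ B) ∩ A) := fun x => by
    simp only [mem_sdiff, mem_inter, mem_union]
    tauto
  have h2 : B' \ (A ∪ C) ⊆ (B \ (A ∪ C)) ∪ ((B' \ B) \ A) := fun x => by
    simp only [mem_sdiff, mem_union]
    tauto
  have h3 := (card_le_card h1).trans (card_union_le _ _)
  have h4 := (card_le_card h2).trans (card_union_le _ _)
  have h5 := card_sdiff_add_card_inter (B' \ B) A
  omega

private theorem lipA (h : Allow M k) (a b c : ℤ) :
    zp k a b c + zm k (a + 1) b c ≤ zp k (a + 1) b c + zm k a b c + 1 :=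
  (setA _ _ _ _).trans (Nat.add_le_add_left (lo_swap h a (Nat.div_le_self _ _)).2 _)

private theorem lipB (h : Allow M k) (a b c : ℤ) :
    zp k a b c + zm k a (b + 1) c ≤ zp k a (b + 1) c + zm k a b c + 1 :=
  (setB _ _ _ _).trans (Nat.add_le_add_left (lo_swap h b (Nat.div_le_self _ _)).1 _)

private theorem lipC (h : Allow M k) (a b c : ℤ) :
    zp k a b c + zm k a b (c + 1) ≤ zp k a b (c + 1) + zm k a b c + 1 := by
  unfold zp zm
  rw [inter_comm, union_comm, inter_comm (hs k a), union_comm (hs k a)]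
  exact (setA _ _ _ _).trans (Nat.add_le_add_left (lo_swap h c (Nat.div_le_self _ _)).2 _)

private theorem lk_next (h : Allow M k) (he : Even (Fintype.card V)) {g : ℕ}
    (hg : g < Fintype.card V / 2) {a b : ℤ} (l : Lk M k g a b) (n : ¬ Lk M k g a (b + 1)) :
    Lk M k g (a + 1) b ∨ Lk M k g (a + 1) (b + 1) := by
  obtain ⟨l1, l2, l3⟩ := l
  have h1 : b ≠ a + M := fun e => by
    rw [e, wd_half h he] at l3
    omega
  have h2 := wd_right h l1 (show b ≤ b + 1 by omega) (by omega)
  have h3 : wd k a (b + 1) ≠ g := fun e => n ⟨by omega, by omega, e⟩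
  have h4 := wd_succ_left h a (b + 1)
  by_cases e : wd k (a + 1) (b + 1) = g
  · exact Or.inr ⟨by omega, by omega, e⟩
  · have h5 := wd_succ_right h (a + 1) b
    have h6 : b ≠ a := fun e' => by
      subst e'
      have k1 := wd_self k b
      have k2 := wd_self k (b + 1)
      omega
    have h7 := wd_left h (show a ≤ a + 1 by omega) (show a + 1 ≤ b by omega) l2
    exact Or.inl ⟨by omega, by omega, by omega⟩

private theorem lk_max (h : Allow M k) {g : ℕ} {a b b' : ℤ} (l : Lk M k g a b)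
    (n : ¬ Lk M k g a (b + 1)) (l' : Lk M k g a b') : b' ≤ b := by
  by_contra c
  obtain ⟨l1, l2, l3⟩ := l
  obtain ⟨m1, m2, m3⟩ := l'
  have h1 := wd_right h l1 (show b ≤ b + 1 by omega) (by omega)
  have h2 := wd_right h (show a ≤ b + 1 by omega) (show b + 1 ≤ b' by omega) m2
  exact n ⟨by omega, by omega, by omega⟩

private theorem lk_per (h : Allow M k) (he : Even (Fintype.card V)) {g : ℕ} {a b b' : ℤ}
    (l : Lk M k g a b) (n : ¬ Lk M k g a (b + 1)) (l' : Lk M k g (a + M) b')
    (n' : ¬ Lk M k g (a + M) (b' + 1)) : b' = b + M := by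
  have h1 := lk_max h l' n' (l.per h he)
  obtain ⟨m1, m2, m3⟩ := l'
  have h2 := lk_max h l n (b' := b' - M) ⟨by omega, by omega, by
    rw [← wd_per h he, sub_add_cancel, m3]⟩
  omega

theorem ivt3 (h : Allow M k) (hM : 0 < M) (he : Even (Fintype.card V)) {g g' : ℕ}
    (hg : g < Fintype.card V / 2) (hg' : g' < Fintype.card V / 2) (y : ℕ) :
    (∃ a b c, Lk M k g a b ∧ Lk M k g' b c ∧ zm k a b c + y ≤ zp k a b c ∧
      zp k a b c ≤ zm k a b c + y + 3) ∨
    ∀ a b c, Lk M k g a b → Lk M k g' b c →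
      zp k a b c < zm k a b c + y ∧ zm k a b c < zp k a b c + y := by
  refine or_iff_not_imp_left.2 fun hw => ?_
  have big : ∀ a b c, Lk M k g a b → Lk M k g' b c → zm k a b c + y ≤ zp k a b c →
      zm k a b c + y + 4 ≤ zp k a b c := fun a b c l l' e =>
    not_lt.1 fun e' => hw ⟨a, b, c, l, l', e, by omega⟩
  have top : ∀ a, (∃ b c, Lk M k g a b ∧ Lk M k g' b c ∧ zm k a b c + y ≤ zp k a b c) →
      ∃ b c, Lk M k g a b ∧ Lk M k g' b c ∧ zm k a b c + y + 4 ≤ zp k a b c ∧
        ¬ Lk M k g a (b + 1) ∧ ¬ Lk M k g' b (c + 1) := by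
    intro a ha
    obtain ⟨b, hb, mb⟩ := Int.exists_greatest_of_bdd
      (P := fun b => ∃ c, Lk M k g a b ∧ Lk M k g' b c ∧ zm k a b c + y ≤ zp k a b c)
      ⟨a + M, fun b ⟨_, l, _⟩ => l.2.1⟩ ha
    obtain ⟨c, ⟨l, l', e⟩, mc⟩ := Int.exists_greatest_of_bdd
      (P := fun c => Lk M k g a b ∧ Lk M k g' b c ∧ zm k a b c + y ≤ zp k a b c)
      ⟨b + M, fun c ⟨_, l, _⟩ => l.2.1⟩ hb
    have e' := big a b c l l' e
    have n' : ¬ Lk M k g' b (c + 1) := fun m => by
      have h1 := lipC h a b c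
      have h2 := mc (c + 1) ⟨l, m, by omega⟩
      omega
    refine ⟨b, c, l, l', e', fun m => ?_, n'⟩
    have h1 := lipB h a b c
    have h2 := lipC h a (b + 1) c
    rcases lk_next h he hg' l' n' with m' | m'
    · have h3 := mb (b + 1) ⟨c, m, m', by omega⟩
      omega
    · have h3 := mb (b + 1) ⟨c + 1, m, m', by omega⟩
      omega
  have up : ∀ a b c, Lk M k g a b → Lk M k g' b c → zp k a b c < zm k a b c + y := by
    intro a b0 c0 l0 l0'
    by_contra e0
    have all : ∀ n : ℕ, ∃ b c, Lk M k g (a + n) b ∧ Lk M k g' b c ∧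
        zm k (a + n) b c + y ≤ zp k (a + n) b c := by
      intro n
      induction n with
      | zero =>
        rw [Nat.cast_zero, add_zero]
        exact ⟨b0, c0, l0, l0', not_lt.1 e0⟩
      | succ n ih =>
        obtain ⟨b, c, l, l', e, n1, n2⟩ := top _ ih
        rw [Nat.cast_succ, ← add_assoc]
        have h1 := lipA h (a + n) b c
        have h2 := lipB h (a + n + 1) b c
        have h3 := lipC h (a + n + 1) (b + 1) c
        rcases lk_next h he hg l n1 with m | m
        · exact ⟨b, c, m, l', by omega⟩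
        · rcases lk_next h he hg' l' n2 with m' | m'
          · exact ⟨b + 1, c, m, m', by omega⟩
          · exact ⟨b + 1, c + 1, m, m', by omega⟩
    obtain ⟨b, c, l, l', e, n1, n2⟩ := top a ⟨b0, c0, l0, l0', not_lt.1 e0⟩
    obtain ⟨b', c', m, m', e', n3, n4⟩ := top _ (all M)
    obtain rfl := lk_per h he l n1 m n3
    obtain rfl := lk_per h he l' n2 m' n4
    rw [zp_per h he, zm_per h he] at e'
    omega
  intro a b c l l'
  refine ⟨up a b c l l', ?_⟩
  have := up _ _ _ (l.per h he) (l'.per h he)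
  rwa [zp_per h he, zm_per h he] at this

end Pool.Agent.P.MP_3c7b76_co.G
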