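import Pool.Agent.P.MP_3c7b76_co.G.GeoB

/-! The choice of an infinite chain with known rotation. -/

set_option linter.unusedSectionVars false

namespace Pool.Agent.P.MP_3c7b76_co.G

open Finset S

variable {V : Type} [Fintype V] [DecidableEq V] {M : ℕ} {k : ℤ → V → ℝ}

/-- The largest link out of each position. -/
private theorem ex_top (h : Allow M k) (he : Even (Fintype.card V)) {j : ℕ}
    (hj : j ≤ Fintype.card V / 2) :
    ∃ T : ℤ → ℤ, (∀ a, Lk M k j a (T a)) ∧ (∀ a b, Lk M k j a b → b ≤ T a) ∧ Monotone T ∧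
      ∀ a, T (a + M) = T a + M := by
  have ex : ∀ a : ℤ, ∃ t, Lk M k j a t ∧ ∀ b, Lk M k j a b → b ≤ t := fun a => by
    obtain ⟨b, _, l⟩ := ex_right h he (g := j) (le_refl a) (by omega)
      (by rw [wd_self]; omega) hj
    exact Int.exists_greatest_of_bdd (P := fun b => Lk M k j a b)
      ⟨a + M, fun b l => l.2.1⟩ ⟨b, l⟩
  choose T h1 h2 using ex
  refine ⟨T, h1, h2, fun a a' e => ?_, fun a => ?_⟩
  · obtain ⟨l1, l2, l3⟩ := h1 a
    by_cases c : a' ≤ T a
    · have w := wd_left h e c l2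
      obtain ⟨b, hb, l⟩ := ex_right h he (g := j) c (by omega) (by omega) hj
      exact hb.trans (h2 _ _ l)
    · have := (h1 a').1
      omega
  · have e1 := h2 _ _ ((h1 a).per h he)
    obtain ⟨l1, l2, l3⟩ := h1 (a + M)
    have e2 := h2 a (T (a + M) - M) ⟨by omega, by omega, by
      rw [← wd_per h he, sub_add_cancel, l3]⟩
    omega

/-- A balanced pair of long links makes more than half a turn. -/
private theorem ex_long (h : Allow M k) (hM : 0 < M) (he : Even (Fintype.card V)) {g g' : ℕ}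
    (hg : g < Fintype.card V / 2) (hg' : g' < Fintype.card V / 2)
    (hs : Fintype.card V / 2 + 3 < g + g') :
    ∃ a b c, Lk M k g a b ∧ Lk M k g' b c ∧ a + M ≤ c := by
  rcases ivt3 h hM he hg hg' 0 with ⟨a, b, c, l, l', e1, e2⟩ | e
  · refine ⟨a, b, c, l, l', not_lt.1 fun hc => ?_⟩
    have e3 := zz_excl h l.1 l'.1 hc.le
    have e4 := wd_add k a b c
    have e5 := wd_le h he a c
    have e6 := l.2.2
    have e7 := l'.2.2
    omega
  · obtain ⟨b, _, l⟩ := ex_right h he (g := g) (le_refl (0 : ℤ)) (by omega)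
      (by rw [wd_self]; omega) hg.le
    obtain ⟨c, _, l'⟩ := ex_right h he (g := g') (le_refl b) (by omega)
      (by rw [wd_self]; omega) hg'.le
    have := e 0 b c l l'
    omega

/-- A lower bound for the rotation persists along the orbit. -/
private theorem orbit_rot {T : ℤ → ℤ} {m : ℤ} (hT : Monotone T) (hp : ∀ a, T (a + m) = T a + m)
    {r : ℕ} {a : ℤ} (ha : a + m ≤ T^[r] a) (x : ℕ) : T^[x] a + m ≤ T^[x + r] a := by
  induction x with
  | zero => simpa using ha
  | succ x ih =>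
    rw [show x + 1 + r = (x + r) + 1 by ring, Function.iterate_succ_apply',
      Function.iterate_succ_apply', ← hp]
    exact hT ih

theorem exists_chain (h : Allow M k) (hM : 0 < M) (he : Even (Fintype.card V)) {j z : ℕ}
    (h4 : 2 * j < Fintype.card V / 2) (h8 : Fintype.card V / 2 + 2 * z + 6 ≤ 4 * j)
    (hz : ∀ a b c, Lk M k j a b → Lk M k j b c → zp k a b c + zm k a b c ≤ z) :
    ∃ a : ℕ → ℤ, (∀ x, Lk M k j (a x) (a (x + 1))) ∧
      (((∀ x, a x + M ≤ a (x + 3)) ∧ Fintype.card V / 2 ≤ 3 * j) ∨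
       ((∀ x, a (x + 3) ≤ a x + M ∧ a x + M ≤ a (x + 4)) ∧
         3 * j ≤ Fintype.card V / 2 + z + 5)) := by
  obtain ⟨T, t1, t2, t3, t4⟩ := ex_top h he (j := j) (by omega)
  have two : ∀ a b, Lk M k (2 * j - z - 1) a b → b ≤ T (T a) := fun a b l => by
    by_contra c
    have e1 := hz _ _ _ (t1 a) (t1 (T a))
    have e2 := wd_add k a (T a) (T (T a))
    have e3 := (t1 a).2.2
    have e4 := (t1 (T a)).2.2
    have e5 := wd_right h ((t1 a).1.trans (t1 (T a)).1) (not_le.1 c).le l.2.1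
    have e6 := l.2.2
    omega
  have lk : ∀ (a : ℤ) (x : ℕ), Lk M k j (T^[x] a) (T^[x + 1] a) := fun a x => by
    rw [Function.iterate_succ_apply']
    exact t1 _
  have first : ∀ a, a + M ≤ T (T (T a)) → ∃ a : ℕ → ℤ, (∀ x, Lk M k j (a x) (a (x + 1))) ∧
      (((∀ x, a x + M ≤ a (x + 3)) ∧ Fintype.card V / 2 ≤ 3 * j) ∨
       ((∀ x, a (x + 3) ≤ a x + M ∧ a x + M ≤ a (x + 4)) ∧
         3 * j ≤ Fintype.card V / 2 + z + 5)) := fun a ha => by
    refine ⟨fun x => T^[x] a, lk a, Or.inl ⟨orbit_rot t3 t4 (r := 3) ha, ?_⟩⟩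
    have e1 := two_lk h he (t1 a) (t1 (T a)) (by omega)
    have e2 := wd_add k a (T a) (T (T a))
    have e3 := (t1 a).2.2
    have e4 := (t1 (T a)).2.2
    have e5 := wd_add k a (T (T a)) (a + M)
    have e6 := wd_half h he a
    have e7 := wd_right h e1 ha (t1 (T (T a))).2.1
    have e8 := (t1 (T (T a))).2.2
    omega
  by_cases c : 3 * j ≤ Fintype.card V / 2 + z + 5
  · obtain ⟨a, b, d, l, l', e⟩ := ex_long h hM he (g := 2 * j - z - 1) (g' := 2 * j - z - 1)
      (by omega) (by omega) (by omega)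
    have e4 : a + M ≤ T^[4] a :=
      e.trans ((two _ _ l').trans (t3 (t3 (two _ _ l))))
    by_cases c' : ∃ x, T^[x] a + M ≤ T^[x + 3] a
    · obtain ⟨x, hx⟩ := c'
      refine first (T^[x] a) ?_
      rwa [add_comm x 3, Function.iterate_add_apply] at hx
    · refine ⟨fun x => T^[x] a, lk a, Or.inr ⟨fun x => ⟨?_, orbit_rot t3 t4 e4 x⟩, c⟩⟩
      exact (not_le.1 fun e' => c' ⟨x, e'⟩).le
  · obtain ⟨a, b, d, l, l', e⟩ := ex_long h hM he (g := j) (g' := 2 * j - z - 1)
      (by omega) (by omega) (by omega)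
    exact first a (e.trans ((two _ _ l').trans (t3 (t3 (t2 _ _ l)))))

end Pool.Agent.P.MP_3c7b76_co.G
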