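import Pool.Agent.P.MP_3c7b76_co.G.Df

/-! Binary windows. -/

set_option linter.unusedSectionVars false

namespace Pool.Agent.P.MP_3c7b76_co.G

open Finset S

variable {V : Type} [Fintype V] [DecidableEq V]

theorem wv_succ (L : ℕ) (s : ℕ → Bool) :
    wv (L + 1) s = wv L s + if s L then 2 ^ L else 0 := sum_range_succ _ _

theorem wv_succ' (L : ℕ) (s : ℕ → Bool) :
    wv (L + 1) s = 2 * wv L (fun i => s (i + 1)) + if s 0 then 1 else 0 := by
  unfold wv
  rw [sum_range_succ', mul_sum]
  congr 1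
  refine sum_congr rfl fun i _ => ?_
  split_ifs
  · rw [pow_succ']
  · rfl

theorem wv_lt (L : ℕ) (s : ℕ → Bool) : wv L s < 2 ^ L := by
  induction L with
  | zero => simp [wv]
  | succ L ih =>
    rw [wv_succ, pow_succ]
    split_ifs <;> omega

theorem wv_div (L : ℕ) (s : ℕ → Bool) : wv L s / 2 = wv (L - 1) fun i => s (i + 1) := by
  cases L with
  | zero => simp [wv]
  | succ L =>
    rw [wv_succ', Nat.add_sub_cancel]
    split_ifs <;> omega

theorem testBit_wv {L i : ℕ} (s : ℕ → Bool) (hi : i < L) : (wv L s).testBit i = s i := by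
  induction i generalizing L s with
  | zero =>
    obtain ⟨L, rfl⟩ : ∃ L', L = L' + 1 := ⟨L - 1, by omega⟩
    rw [Nat.testBit_zero, wv_succ']
    cases s 0
    · simp
    · simp [Nat.add_mod]
  | succ i ih => rw [Nat.testBit_succ, wv_div, ih _ (by omega)]

theorem wv_mod (L : ℕ) (s : ℕ → Bool) : wv L s % 2 ^ (L - 1) = wv (L - 1) s := by
  cases L with
  | zero => simp [wv]
  | succ L =>
    rw [wv_succ, Nat.add_sub_cancel]
    split_ifs
    · rw [Nat.add_mod_right, Nat.mod_eq_of_lt (wv_lt _ _)]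
    · rw [add_zero, Nat.mod_eq_of_lt (wv_lt _ _)]

theorem testBit_win {L i : ℕ} (S : ℕ → Finset V) (x : ℕ) (u : V) (hi : i < L) :
    (win L S x u).testBit i = decide (u ∈ S (x + i)) := testBit_wv _ hi

end Pool.Agent.P.MP_3c7b76_co.G
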