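import Pool.Agent.P.MP_3c7b76_co.G.GeoA
import Pool.Agent.P.MP_3c7b76_co.G.Win

/-! The order of a pair along a chain, and the masses of the features. -/

set_option linter.unusedSectionVars false

namespace Pool.Agent.P.MP_3c7b76_co.G

open Finset S

variable {V : Type} [Fintype V] [DecidableEq V] {M : ℕ} {k : ℤ → V → ℝ}

theorem rho_ok (h : Allow M k) (hn : 2 ≤ Fintype.card V) (L T : ℕ) (a : ℕ → ℤ)
    (Pl Ql : List (ℕ × ℕ × ℕ))
    (hP : ∀ x < T, ∀ t ∈ Pl, t.1 < L ∧ t.2.1 < L ∧ t.2.2 < L ∧ a (x + t.1) ≤ a (x + t.2.1) ∧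
      a (x + t.2.1) ≤ a (x + t.2.2) ∧ a (x + t.2.2) ≤ a (x + t.1) + M)
    (hQ : ∀ x < T, ∀ t ∈ Ql, t.1 < L ∧ t.2.1 < L ∧ t.2.2 < L ∧
      a (x + t.2.1) ≤ a (x + t.1) + M ∧ a (x + t.1) + M ≤ a (x + t.2.2) ∧
      a (x + t.2.2) ≤ a (x + t.2.1) + M) (u v : V) :
    ∃ ρ : ℕ → Bool, (∀ x < T, rokL Pl Ql (wv L fun i => ρ (x + i)) = true) ∧
      ∀ i, ¬ (u ∈ hs k (a i) ↔ v ∈ hs k (a i)) → ρ i = decide (u ∈ hs k (a i)) := by
  obtain ⟨u', v', hne, huv⟩ : ∃ u' v' : V, u' ≠ v' ∧ (u ≠ v → u' = u ∧ v' = v) := by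
    by_cases e : u = v
    · obtain ⟨p, q, hpq⟩ := Fintype.exists_pair_of_one_lt_card (α := V) hn
      exact ⟨p, q, hpq, fun c => absurd e c⟩
    · exact ⟨u, v, e, fun _ => ⟨rfl, rfl⟩⟩
  have tri : ∀ i, ¬ k i u' < k i v' ↔ k i v' < k i u' := fun i =>
    ⟨fun c => lt_of_le_of_ne (not_lt.1 c) fun e => hne (h.inj i e).symm, fun c => not_lt.2 c.le⟩
  have cv : ∀ i j l : ℤ, i ≤ j → j ≤ l → l ≤ i + M → (k i u' < k i v' ↔ k l u' < k l v') →
      (k j u' < k j v' ↔ k i u' < k i v') := fun i j l h1 h2 h3 e => by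
    by_cases c : k i u' < k i v'
    · exact iff_of_true (h.conv i j l _ _ h1 h2 h3 c (e.1 c)) c
    · exact iff_of_false ((tri j).2 (h.conv i j l _ _ h1 h2 h3 ((tri i).1 c)
        ((tri l).1 fun c' => c (e.2 c')))) c
  refine ⟨fun i => decide (k (a i) u' < k (a i) v'), fun x hx => ?_, fun i hi => ?_⟩
  · rw [rokL, Bool.and_eq_true, List.all_eq_true, List.all_eq_true]
    refine ⟨fun t ht => ?_, fun t ht => ?_⟩
    · obtain ⟨l1, l2, l3, h1, h2, h3⟩ := hP x hx t ht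
      rw [testBit_wv _ l1, testBit_wv _ l2, testBit_wv _ l3]
      have e := cv _ _ _ h1 h2 h3
      simp only [Bool.or_eq_true, bne_iff_ne, ne_eq, decide_eq_decide, beq_iff_eq]
      tauto
    · obtain ⟨l1, l2, l3, h1, h2, h3⟩ := hQ x hx t ht
      rw [testBit_wv _ l1, testBit_wv _ l2, testBit_wv _ l3]
      have e := cv _ _ _ h1 h2 h3
      rw [h.rev, ← tri] at e
      simp only [Bool.or_eq_true, bne_iff_ne, ne_eq, decide_eq_decide]
      tauto
  · obtain ⟨rfl, rfl⟩ := huv fun e => hi (by rw [e])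
    rw [decide_eq_decide]
    by_cases c : u' ∈ hs k (a i)
    · exact iff_of_true (hs_dn k _ _ _ c fun c' => hi (iff_of_true c c')) c
    · exact iff_of_false ((tri _).2 (hs_dn k _ _ _ (by_contra fun c' => hi (iff_of_false c c')) c)) c

private theorem sum_ind (A : Finset V) : ∑ u, (if u ∈ A then (1 : ℝ) else 0) = A.card := by
  simp

theorem sum_one (L x i i' i'' : ℕ) (S : ℕ → Finset V) :
    ∑ u, (ft (0, i, i', i'') (win L S x u) : ℝ) = Fintype.card V := by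
  simp [ft]

theorem sum_sign (h : Allow M k) (he : Even (Fintype.card V)) {L i : ℕ} (x i' i'' : ℕ)
    (a : ℕ → ℤ) (hi : i < L) :
    ∑ u, (ft (1, i, i', i'') (win L (fun t => hs k (a t)) x u) : ℝ) = 0 := by
  have e : ∀ u, (ft (1, i, i', i'') (win L (fun t => hs k (a t)) x u) : ℝ) =
      2 * (if u ∈ hs k (a (x + i)) then 1 else 0) - 1 := fun u => by
    simp only [ft, testBit_win _ _ _ hi]
    by_cases c : u ∈ hs k (a (x + i)) <;> simp [c] <;> norm_num
  obtain ⟨n, hn⟩ := he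
  rw [sum_congr rfl fun u _ => e u, sum_sub_distrib, ← mul_sum, sum_ind, hs_card h, sum_const,
    card_univ, hn, show (n + n) / 2 = n by omega]
  simp [two_mul]

theorem sum_chg (h : Allow M k) {L i i' : ℕ} (x i'' : ℕ) (a : ℕ → ℤ) (hi : i < L) (hi' : i' < L) :
    ∑ u, (ft (2, i, i', i'') (win L (fun t => hs k (a t)) x u) : ℝ) =
      2 * wd k (a (x + i)) (a (x + i')) := by
  have e : ∀ u, (ft (2, i, i', i'') (win L (fun t => hs k (a t)) x u) : ℝ) =
      (if u ∈ hs k (a (x + i)) \ hs k (a (x + i')) then 1 else 0) +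
        if u ∈ hs k (a (x + i')) \ hs k (a (x + i)) then 1 else 0 := fun u => by
    simp only [ft, testBit_win _ _ _ hi, testBit_win _ _ _ hi']
    by_cases c : u ∈ hs k (a (x + i)) <;> by_cases c' : u ∈ hs k (a (x + i')) <;> simp [c, c']
  rw [sum_congr rfl fun u _ => e u, sum_add_distrib, sum_ind, sum_ind, wd_symm h, two_mul, wd]

theorem sum_zig (k : ℤ → V → ℝ) {L i i' i'' : ℕ} (x : ℕ) (a : ℕ → ℤ) (hi : i < L) (hi' : i' < L)
    (hi'' : i'' < L) :
    ∑ u, (ft (3, i, i', i'') (win L (fun t => hs k (a t)) x u) : ℝ) =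
      zp k (a (x + i)) (a (x + i')) (a (x + i'')) + zm k (a (x + i)) (a (x + i')) (a (x + i'')) := by
  have e : ∀ u, (ft (3, i, i', i'') (win L (fun t => hs k (a t)) x u) : ℝ) =
      (if u ∈ (hs k (a (x + i)) ∩ hs k (a (x + i''))) \ hs k (a (x + i')) then 1 else 0) +
        if u ∈ hs k (a (x + i')) \ (hs k (a (x + i)) ∪ hs k (a (x + i''))) then 1 else 0 :=
    fun u => by
      simp only [ft, testBit_win _ _ _ hi, testBit_win _ _ _ hi', testBit_win _ _ _ hi'']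
      by_cases c : u ∈ hs k (a (x + i)) <;> by_cases c' : u ∈ hs k (a (x + i')) <;>
        by_cases c'' : u ∈ hs k (a (x + i'')) <;> simp [c, c', c'']
  rw [sum_congr rfl fun u _ => e u, sum_add_distrib, sum_ind, sum_ind, zp, zm]

theorem ok_zig (k : ℤ → V → ℝ) {L i i' i'' : ℕ} (x : ℕ) (a : ℕ → ℤ) (hi : i < L) (hi' : i' < L)
    (hi'' : i'' < L) (h0 : zm k (a (x + i)) (a (x + i')) (a (x + i'')) = 0) (u : V) :
    okL [(i, i', i'')] (win L (fun t => hs k (a t)) x u) = true := by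
  have e : u ∉ hs k (a (x + i')) \ (hs k (a (x + i)) ∪ hs k (a (x + i''))) := by
    rw [card_eq_zero.1 h0]
    exact notMem_empty u
  simp only [okL, List.all_cons, List.all_nil, Bool.and_true, testBit_win _ _ _ hi,
    testBit_win _ _ _ hi', testBit_win _ _ _ hi'']
  by_cases c : u ∈ hs k (a (x + i)) <;> by_cases c' : u ∈ hs k (a (x + i')) <;>
    by_cases c'' : u ∈ hs k (a (x + i'')) <;> simp_all

end Pool.Agent.P.MP_3c7b76_co.G
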