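import Pool.Agent.P.MP_3c7b76_co.G.Shp

/-! A checker for integer tables. -/

namespace Pool.Agent.P.MP_3c7b76_co.G

open Finset

theorem Tab.mix {L nf r : ℕ} {φ a a' : ℕ → ℕ → ℝ} {le ok rok : ℕ → Prop}
    {D D' m m' lam lam' : ℕ → ℝ} {B B' t : ℝ} {p q p' q' : ℕ → ℕ → ℕ → ℝ}
    (h : Tab L nf φ le ok rok D r m B a lam p q) (h' : Tab L nf φ le ok rok D' r m' B' a' lam' p' q')
    (hc : ∀ u < 2 ^ L, ok u → 0 ≤ ∑ f ∈ range nf, (a' u f - a u f) * (m' f - m f))
    (h0 : 0 ≤ t) (h1 : t ≤ 1) :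
    Tab L nf φ le ok rok (fun i => (1 - t) * D i + t * D' i) r (fun f => (1 - t) * m f + t * m' f)
      ((1 - t) * B + t * B') (fun u f => (1 - t) * a u f + t * a' u f)
      (fun u => (1 - t) * lam u + t * lam' u) (fun u v s => (1 - t) * p u v s + t * p' u v s)
      (fun u v s => (1 - t) * q u v s + t * q' u v s) := by
  have h2 : 0 ≤ 1 - t := sub_nonneg.2 h1
  have mx : ∀ {x y x' y' : ℝ}, x ≤ y → x' ≤ y' → (1 - t) * x + t * x' ≤ (1 - t) * y + t * y' :=
    fun e e' => add_le_add (mul_le_mul_of_nonneg_left e h2) (mul_le_mul_of_nonneg_left e' h0)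
  have nn : ∀ {x x' : ℝ}, 0 ≤ x → 0 ≤ x' → 0 ≤ (1 - t) * x + t * x' :=
    fun e e' => add_nonneg (mul_nonneg h2 e) (mul_nonneg h0 e')
  have ek : ∀ u v, ker nf φ (fun u f => (1 - t) * a u f + t * a' u f) u v =
      (1 - t) * ker nf φ a u v + t * ker nf φ a' u v := fun u v => by
    unfold ker
    rw [mul_sum, mul_sum, ← sum_add_distrib]
    exact sum_congr rfl fun f _ => by ring
  have es : ∀ u v, sep L (fun i => (1 - t) * D i + t * D' i) u v =
      (1 - t) * sep L D u v + t * sep L D' u v := fun u v => by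
    unfold sep
    rw [mul_sum, mul_sum, ← sum_add_distrib]
    exact sum_congr rfl fun f _ => by split_ifs <;> ring
  refine ⟨fun u hu o f hf l => nn (h.pos u hu o f hf l) (h'.pos u hu o f hf l), fun u hu o => ?_,
    fun u v s => ⟨nn (h.bd u v s).1 (h'.bd u v s).1, mx (h.bd u v s).2.1 (h'.bd u v s).2.1,
      nn (h.bd u v s).2.2.1 (h'.bd u v s).2.2.1, mx (h.bd u v s).2.2.2 (h'.bd u v s).2.2.2⟩,
    fun u hu v hv s hs o o' ro d => ?_, fun u hu v hv s hs o o' ro d => ?_⟩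
  · have e : ∑ f ∈ range nf, ((1 - t) * a u f + t * a' u f) * ((1 - t) * m f + t * m' f) =
        (1 - t) * ∑ f ∈ range nf, a u f * m f + t * ∑ f ∈ range nf, a' u f * m' f -
          t * (1 - t) * ∑ f ∈ range nf, (a' u f - a u f) * (m' f - m f) := by
      rw [mul_sum, mul_sum, mul_sum, ← sum_add_distrib, ← sum_sub_distrib]
      exact sum_congr rfl fun f _ => by ring
    rw [e, sum_add_distrib, ← mul_sum, ← mul_sum]
    linarith [mx (h.low u hu o) (h'.low u hu o), mul_nonneg (mul_nonneg h0 h2) (hc u hu o)]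
  · rw [ek]
    linarith [mx (h.e1 u hu v hv s hs o o' ro d) (h'.e1 u hu v hv s hs o o' ro d)]
  · rw [ek, es]
    linarith [mx (h.e2 u hu v hv s hs o o' ro d) (h'.e2 u hu v hv s hs o o' ro d)]

/-- The field number `i` of width 32 bits. -/
def fld (X i : ℕ) : ℕ := Nat.mod (Nat.shiftRight X (Nat.mul 32 i)) 4294967296

/-- The field number `i` of width 40 bits. -/
def fl4 (X i : ℕ) : ℕ := Nat.mod (Nat.shiftRight X (Nat.mul 40 i)) 1099511627776

/-- A bounded conjunction. -/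
def allN (n : ℕ) (f : ℕ → Bool) : Bool := Nat.rec true (fun i r => f i && r) n

/-- A bounded sum of integers. -/
def sumZ (n : ℕ) (f : ℕ → ℤ) : ℤ := Nat.rec 0 (fun i r => r + f i) n

/-- A bounded sum of natural numbers. -/
def sumN (n : ℕ) (f : ℕ → ℕ) : ℕ := Nat.rec 0 (fun i r => Nat.add r (f i)) n

/-- Packing into fields of 40 bits. -/
def pack (n : ℕ) (c : ℕ → ℕ) : ℕ := sumN n fun i => c i * 1099511627776 ^ i

/-- Unpacks records of 70 bits (position, first value, second value). -/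
def unp (x : ℕ × ℕ) (w : ℕ) : ℕ :=
  sumN x.1 fun i => Nat.shiftLeft (Nat.mod (Nat.shiftRight x.2 (70 * i + w)) 1073741824)
    (32 * Nat.mod (Nat.shiftRight x.2 (70 * i)) 1024)

theorem fld_lt (X i : ℕ) : fld X i < 4294967296 := Nat.mod_lt _ (by norm_num)

theorem allN_spec {n : ℕ} {f : ℕ → Bool} (h : allN n f = true) : ∀ i < n, f i = true := by
  induction n with
  | zero => exact fun i hi => absurd hi (Nat.not_lt_zero i)
  | succ n ih =>
    have e : (f n && allN n f) = true := h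
    rw [Bool.and_eq_true] at e
    intro i hi
    rcases (Nat.lt_succ_iff.1 hi).eq_or_lt with rfl | c
    · exact e.1
    · exact ih e.2 i c

theorem sumZ_eq (n : ℕ) (f : ℕ → ℤ) : sumZ n f = ∑ i ∈ range n, f i := by
  induction n with
  | zero => rfl
  | succ n ih => rw [sum_range_succ, ← ih]; rfl

theorem sumN_eq (n : ℕ) (f : ℕ → ℕ) : sumN n f = ∑ i ∈ range n, f i := by
  induction n with
  | zero => rfl
  | succ n ih => rw [sum_range_succ, ← ih]; rfl

theorem digit {b : ℕ} (j n : ℕ) (c : ℕ → ℕ) (hc : ∀ i, c i < b) (hj : j < n) :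
    (∑ i ∈ range n, c i * b ^ i) / b ^ j % b = c j := by
  have hb : 0 < b := (Nat.zero_le _).trans_lt (hc 0)
  induction j generalizing n c with
  | zero =>
    obtain ⟨n, rfl⟩ : ∃ m, n = m + 1 := ⟨n - 1, by omega⟩
    simp only [sum_range_succ', pow_succ, ← mul_assoc, ← sum_mul, pow_zero, mul_one, Nat.div_one]
    rw [Nat.mul_add_mod', Nat.mod_eq_of_lt (hc 0)]
  | succ j ih =>
    obtain ⟨n, rfl⟩ : ∃ m, n = m + 1 := ⟨n - 1, by omega⟩
    rw [pow_succ', ← Nat.div_div_eq_div_mul]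
    simp only [sum_range_succ', pow_succ, ← mul_assoc, ← sum_mul, pow_zero, mul_one]
    rw [add_comm, Nat.add_mul_div_right _ _ hb, Nat.div_eq_of_lt (hc 0), zero_add]
    exact ih n (fun i => c (i + 1)) (fun i => hc _) (by omega)

theorem fl4_eq (X i : ℕ) : fl4 X i = X / 1099511627776 ^ i % 1099511627776 := by
  change (X >>> (40 * i)) % _ = _
  rw [Nat.shiftRight_eq_div_pow, pow_mul]
  norm_num

theorem ft_bd (c : ℕ × ℕ × ℕ × ℕ) (v : ℕ) : -1 ≤ ft c v ∧ ft c v ≤ 1 := by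
  unfold ft
  split_ifs <;> norm_num

/-- The shifted features. -/
def Shp.fn (h : Shp) (f v : ℕ) : ℕ := (ft (h.fl.getD f (0, 0, 0, 0)) v + 1).toNat

/-- The packed shifted features. -/
def Shp.fp (h : Shp) (f : ℕ) : ℕ := pack (2 ^ h.L) (h.fn f)

theorem Shp.fn_eq (h : Shp) (f v : ℕ) : (h.fn f v : ℤ) = ft (h.fl.getD f (0, 0, 0, 0)) v + 1 :=
  Int.toNat_of_nonneg (by linarith [(ft_bd (h.fl.getD f (0, 0, 0, 0)) v).1])

theorem Shp.fn_le (h : Shp) (f v : ℕ) : h.fn f v ≤ 2 := by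
  have := h.fn_eq f v
  have := (ft_bd (h.fl.getD f (0, 0, 0, 0)) v).2
  omega

/-- Packed integer data of a table. -/
structure Dat where
  D : List ℕ
  ms : List ℕ
  A : ℕ
  X : List (ℕ × ℕ)

namespace Dat

variable (d : Dat) (h : Shp) (Qs sh : ℕ)

/-- The shifted coefficients. -/
def an (u f : ℕ) : ℕ := fld d.A (u * h.fl.length + f)

/-- The coefficients. -/
def a (u f : ℕ) : ℤ := Int.subNatNat (d.an h u f) 2147483648

/-- The packed row of the shifted kernel. -/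
def gr (u : ℕ) : ℕ := sumN h.fl.length fun f => Nat.mul (d.an h u f) (h.fp f)

/-- The correction of the shift. -/
def cn (u : ℕ) : ℕ := sumN h.fl.length fun f => d.an h u f + 2147483648 * fl4 (h.fp f) u

/-- The point potential, scaled by `2 * Qs`. -/
def lam (u : ℕ) : ℤ :=
  2 * sumZ h.fl.length (fun f => d.a h u f * (d.ms.getD f 0 : ℕ)) +
    Qs * (sumN h.L (fun i => d.D.getD i 0) : ℕ) * ft (h.fl.getD h.r (0, 0, 0, 0)) u

/-- The shifted point potential. -/
def ln (u : ℕ) : ℕ := (d.lam h Qs u + 2 * Qs * (d.cn h u : ℕ)).toNat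

/-- The weighted separation. -/
def sx (x : ℕ) : ℕ := sumN h.L fun i => if x.testBit i then d.D.getD i 0 else 0

/-- The packed weighted separation, plus the shift. -/
def sp : ℕ := pack (2 ^ h.L) fun x => d.sx h x + 4294967296 * h.fl.length

/-- A row of potentials. -/
def row (w u : ℕ) : ℕ := unp (d.X.getD u (0, 0)) w

/-- The potentials. -/
def pq (L w u v s : ℕ) : ℕ := fld (d.row w u) (v * 2 ^ (L - 1 - sh) + s >>> sh)

/-- The bound for the potentials. -/
def bd : ℕ := if d.X = [] then 0 else 4294967296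

theorem pq_le (L w u v s : ℕ) : d.pq sh L w u v s ≤ d.bd := by
  unfold bd
  split_ifs with e
  · unfold pq row
    rw [e]
    change (0 >>> _) % _ ≤ 0
    simp
  · exact (fld_lt _ _).le

theorem a_eq (u f : ℕ) : d.a h u f = d.an h u f - 2147483648 := Int.subNatNat_eq_coe

theorem fp_eq {u : ℕ} (hu : u < 2 ^ h.L) (f : ℕ) : fl4 (h.fp f) u = h.fn f u := by
  rw [fl4_eq, Shp.fp, pack, sumN_eq]
  exact digit _ _ _ (fun i => (h.fn_le f i).trans_lt (by norm_num)) hu

theorem gr_eq (hn : h.fl.length ≤ 64) (u : ℕ) {v : ℕ} (hv : v < 2 ^ h.L) :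
    fl4 (d.gr h u) v = ∑ f ∈ range h.fl.length, d.an h u f * h.fn f v := by
  have e : d.gr h u = ∑ i ∈ range (2 ^ h.L),
      (∑ f ∈ range h.fl.length, d.an h u f * h.fn f i) * 1099511627776 ^ i := by
    simp only [gr, Shp.fp, pack, sumN_eq, Nat.mul_eq, mul_sum, sum_mul, mul_assoc]
    exact sum_comm
  rw [fl4_eq, e]
  refine digit _ _ (fun i => ∑ f ∈ range h.fl.length, d.an h u f * h.fn f i) (fun i => ?_) hv
  have b := sum_le_card_nsmul (range h.fl.length) (fun f => d.an h u f * h.fn f i)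
    (4294967296 * 2) fun f _ => Nat.mul_le_mul (fld_lt _ _).le (h.fn_le f i)
  rw [card_range, smul_eq_mul] at b
  omega

theorem ker_eq (hn : h.fl.length ≤ 64) {u v : ℕ} (hu : u < 2 ^ h.L) (hv : v < 2 ^ h.L) :
    ∑ f ∈ range h.fl.length, (d.a h u f * ft (h.fl.getD f (0, 0, 0, 0)) v +
      d.a h v f * ft (h.fl.getD f (0, 0, 0, 0)) u) =
      (fl4 (d.gr h u) v : ℤ) + fl4 (d.gr h v) u + 4294967296 * h.fl.length - d.cn h u -
        d.cn h v := by
  have e : (4294967296 * h.fl.length : ℤ) = ∑ _f ∈ range h.fl.length, (4294967296 : ℤ) := by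
    simp [mul_comm]
  rw [d.gr_eq h hn u hv, d.gr_eq h hn v hu, cn, cn, sumN_eq, sumN_eq, e]
  push_cast
  rw [← sum_add_distrib, ← sum_add_distrib, ← sum_sub_distrib, ← sum_sub_distrib]
  refine sum_congr rfl fun f _ => ?_
  rw [fp_eq h hu, fp_eq h hv, h.fn_eq, h.fn_eq, a_eq, a_eq]
  ring

/-- The check of one edge. -/
def edge (c0 qs ku cv lu sv pt ph qt qh : ℕ) : Bool :=
  Nat.ble (Nat.add pt cv) (Nat.add (Nat.add ku c0) ph) &&
    Nat.ble (Nat.add lu qt) (Nat.add (Nat.mul qs (Nat.add ku sv)) qh)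

/-- The check of one table. -/
def chk : Bool :=
  decide (0 < sumN h.L fun i => d.D.getD i 0) && decide (h.fl.length ≤ 64) &&
  (allN (2 ^ h.L) fun x => Nat.beq (fl4 (d.sp h) x) (d.sx h x + 4294967296 * h.fl.length)) &&
  (allN (2 ^ h.L) fun u => allN h.fl.length fun f =>
    Nat.blt f h.ne || Nat.ble 2147483648 (d.an h u f)) &&
  allN (2 ^ h.L) fun s => !rokL h.Pl h.Ql s || allN (2 ^ h.L) fun u => !okL h.Zl u ||
    allN (2 ^ h.L) fun v => Nat.blt 0 (Nat.land (Nat.xor u v) (Nat.xor u s)) || (!okL h.Zl v ||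
      edge (4294967296 * h.fl.length) (2 * Qs) (Nat.add (fl4 (d.gr h u) v) (fl4 (d.gr h v) u))
        (Nat.add (d.cn h u) (d.cn h v)) (Nat.add (d.ln h Qs u) (Nat.mul (2 * Qs) (d.cn h v)))
        (fl4 (d.sp h) (Nat.xor u v))
        (d.pq sh h.L 10 (u % 2 ^ (h.L - 1)) (v % 2 ^ (h.L - 1)) (s % 2 ^ (h.L - 1)))
        (d.pq sh h.L 10 (u / 2) (v / 2) (s / 2))
        (d.pq sh h.L 40 (u % 2 ^ (h.L - 1)) (v % 2 ^ (h.L - 1)) (s % 2 ^ (h.L - 1)))
        (d.pq sh h.L 40 (u / 2) (v / 2) (s / 2)))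

end Dat

/-- The check of the convexity condition. -/
def Dat.cvx (d d' : Dat) (h : Shp) : Bool :=
  allN (2 ^ h.L) fun u => decide (0 ≤ sumZ h.fl.length fun f =>
    (d'.a h u f - d.a h u f) * (((d'.ms.getD f 0 : ℕ) : ℤ) - (d.ms.getD f 0 : ℕ)))

theorem dom_zero {L u v s : ℕ} (hu : u < 2 ^ L) (hv : v < 2 ^ L) (h : Dom L u v s) :
    Nat.land (Nat.xor u v) (Nat.xor u s) = 0 := by
  change (u ^^^ v) &&& (u ^^^ s) = 0
  refine Nat.zero_of_testBit_eq_false fun i => ?_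
  rw [Nat.testBit_and, Nat.testBit_xor, Nat.testBit_xor]
  rcases lt_or_ge i L with c | c
  · by_cases e : u.testBit i = v.testBit i
    · simp [e]
    · simp [h i c e]
  · have e := Nat.pow_le_pow_right (show 0 < 2 by norm_num) c
    rw [Nat.testBit_lt_two_pow (hu.trans_le e), Nat.testBit_lt_two_pow (hv.trans_le e)]
    rfl

theorem Dat.tab (d : Dat) (h : Shp) {Qs sh : ℕ} (hQ : 0 < Qs) (c : d.chk h Qs sh = true) :
    (0 : ℝ) < ∑ i ∈ range h.L, (d.D.getD i 0 : ℝ) ∧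
    Tab h.L h.fl.length (fun f u => (ft (h.fl.getD f (0, 0, 0, 0)) u : ℝ)) (fun f => h.ne ≤ f)
      (fun u => okL h.Zl u = true) (fun s => rokL h.Pl h.Ql s = true)
      (fun i => (d.D.getD i 0 : ℝ)) h.r (fun f => (d.ms.getD f 0 : ℝ) / Qs) d.bd
      (fun u f => (d.a h u f : ℝ)) (fun u => (d.lam h Qs u : ℝ) / (2 * Qs))
      (fun u v s => (d.pq sh h.L 10 u v s : ℝ))
      (fun u v s => (d.pq sh h.L 40 u v s : ℝ) / (2 * Qs)) := by
  have q1 : (1 : ℝ) ≤ Qs := by exact_mod_cast hQ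
  have q2 : (0 : ℝ) < 2 * Qs := by linarith
  rw [Dat.chk, Bool.and_eq_true, Bool.and_eq_true, Bool.and_eq_true, Bool.and_eq_true,
    decide_eq_true_eq, decide_eq_true_eq, sumN_eq] at c
  obtain ⟨⟨⟨⟨c1, hn⟩, c4⟩, c2⟩, c3⟩ := c
  have ek : ∀ u < 2 ^ h.L, ∀ v < 2 ^ h.L,
      ker h.fl.length (fun f u => (ft (h.fl.getD f (0, 0, 0, 0)) u : ℝ))
      (fun u f => (d.a h u f : ℝ)) u v = (fl4 (d.gr h u) v : ℝ) + fl4 (d.gr h v) u +
        4294967296 * h.fl.length - d.cn h u - d.cn h v := fun u hu v hv => by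
    have e := congrArg (Int.cast : ℤ → ℝ) (d.ker_eq h hn hu hv)
    push_cast at e
    exact e
  have es : ∀ u < 2 ^ h.L, ∀ v < 2 ^ h.L, (fl4 (d.sp h) (Nat.xor u v) : ℝ) =
      sep h.L (fun i => (d.D.getD i 0 : ℝ)) u v + 4294967296 * h.fl.length := fun u hu v hv => by
    rw [Nat.eq_of_beq_eq_true (allN_spec c4 (Nat.xor u v) (Nat.xor_lt_two_pow hu hv)), Dat.sx,
      sumN_eq, sep]
    push_cast
    refine congrArg (· + _) (sum_congr rfl fun i _ => ?_)
    rw [show Nat.xor u v = u ^^^ v from rfl, Nat.testBit_xor]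
    cases u.testBit i <;> cases v.testBit i <;> simp
  have key := fun u (hu : u < 2 ^ h.L) v (hv : v < 2 ^ h.L) s (hs : s < 2 ^ h.L)
      (o : okL h.Zl u = true) (o' : okL h.Zl v = true) (ro : rokL h.Pl h.Ql s = true)
      (dm : Dom h.L u v s) => by
    have e1 := allN_spec c3 s hs
    rw [ro, Bool.not_true, Bool.false_or] at e1
    have e2 := allN_spec e1 u hu
    rw [o, Bool.not_true, Bool.false_or] at e2
    have e3 := allN_spec e2 v hv
    rw [o', dom_zero hu hv dm, show Nat.blt 0 0 = false from rfl, Bool.not_true, Bool.false_or,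
      Bool.false_or, Dat.edge, Bool.and_eq_true, Nat.ble_eq, Nat.ble_eq] at e3
    simp only [Nat.add_eq, Nat.mul_eq] at e3
    exact And.intro ((Nat.cast_le (α := ℝ)).2 e3.1) ((Nat.cast_le (α := ℝ)).2 e3.2)
  refine ⟨by exact_mod_cast c1, fun u hu _ f hf l => ?_, fun u _ _ => le_of_eq ?_,
    fun u v s => ?_, fun u hu v hv s hs o o' ro dm => ?_, fun u hu v hv s hs o o' ro dm => ?_⟩
  · have e := allN_spec (allN_spec c2 u hu) f hf
    rw [Bool.or_eq_true, Nat.blt_eq, Nat.ble_eq] at e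
    have e' := e.resolve_left (not_lt.2 l)
    have : 0 ≤ d.a h u f := by rw [d.a_eq]; omega
    exact_mod_cast this
  · rw [eq_div_iff q2.ne', Dat.lam, sumZ_eq, sumN_eq]
    push_cast
    simp only [mul_div_assoc', ← sum_div]
    field_simp
  · have b3 : (d.pq sh h.L 40 u v s : ℝ) / (2 * Qs) ≤ d.pq sh h.L 40 u v s :=
      div_le_self (Nat.cast_nonneg _) (by linarith)
    exact ⟨Nat.cast_nonneg _, Nat.cast_le.2 (d.pq_le _ _ _ _ _ _), by positivity,
      b3.trans (Nat.cast_le.2 (d.pq_le _ _ _ _ _ _))⟩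
  · have e := (key u hu v hv s hs o o' ro dm).1
    push_cast at e
    rw [ek u hu v hv]
    linarith
  · have e := (key u hu v hv s hs o o' ro dm).2
    have e' : ((d.lam h Qs u + 2 * Qs * (d.cn h u : ℕ) : ℤ) : ℝ) ≤ ((d.ln h Qs u : ℤ) : ℝ) :=
      Int.cast_le.2 (Int.self_le_toNat _)
    push_cast at e e'
    rw [es u hu v hv] at e
    rw [ek u hu v hv, ← add_div, div_le_iff₀ q2, add_mul, div_mul_cancel₀ _ q2.ne']
    linarith

theorem Dat.has (d d' : Dat) (h : Shp) {Qs sh : ℕ} (hQ : 0 < Qs) (c : d.chk h Qs sh = true)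
    (c' : d'.chk h Qs sh = true) (cv : d.cvx d' h = true) {t : ℝ} (h0 : 0 ≤ t) (h1 : t ≤ 1)
    {m : ℕ → ℝ} (hm : ∀ f < h.fl.length,
      m f = (1 - t) * ((d.ms.getD f 0 : ℝ) / Qs) + t * ((d'.ms.getD f 0 : ℝ) / Qs)) :
    h.Has m ((1 - t) * (d.bd : ℝ) + t * (d'.bd : ℝ)) := by
  obtain ⟨p0, t0⟩ := d.tab h hQ c
  obtain ⟨p1, t1⟩ := d'.tab h hQ c'
  have T := t0.mix t1 (fun u hu _ => by
    have e := allN_spec cv u hu
    rw [decide_eq_true_eq, sumZ_eq] at e
    simp only [← sub_div, ← mul_div_assoc, ← sum_div]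
    refine div_nonneg ?_ (Nat.cast_nonneg _)
    exact_mod_cast e) h0 h1
  refine ⟨_, _, _, _, _, fun i => add_nonneg (mul_nonneg (sub_nonneg.2 h1) (Nat.cast_nonneg _))
    (mul_nonneg h0 (Nat.cast_nonneg _)), ?_, T.pos, fun u hu o => le_trans (le_of_eq ?_)
      (T.low u hu o), T.bd, T.e1, T.e2⟩
  · rw [sum_add_distrib, ← mul_sum, ← mul_sum]
    rcases h0.eq_or_lt with rfl | h0
    · simpa using p0
    · exact add_pos_of_nonneg_of_pos (mul_nonneg (sub_nonneg.2 h1) p0.le) (mul_pos h0 p1)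
  · exact congrArg (· + _) (sum_congr rfl fun f hf => by rw [hm f (mem_range.1 hf)])

end Pool.Agent.P.MP_3c7b76_co.G
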