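import Pool.Agent.P.MP_3c7b76_co.G.KA0
import Pool.Agent.P.MP_3c7b76_co.G.KA1
import Pool.Agent.P.MP_3c7b76_co.G.KB0
import Pool.Agent.P.MP_3c7b76_co.G.KB1
import Pool.Agent.P.MP_3c7b76_co.G.KC0
import Pool.Agent.P.MP_3c7b76_co.G.KC1
import Pool.Agent.P.MP_3c7b76_co.G.KD0
import Pool.Agent.P.MP_3c7b76_co.G.KD1
import Pool.Agent.P.MP_3c7b76_co.G.KF
import Pool.Agent.P.MP_3c7b76_co.G.Fin5

/-! All tables, and the core bound. -/

set_option maxRecDepth 100000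

namespace Pool.Agent.P.MP_3c7b76_co.G

theorem vA : tA0.cvx tA1 sh23 = true := by decide +kernel

theorem vB : tB0.cvx tB1 sh23 = true := by decide +kernel

theorem vC : tC0.cvx tC1 sh23 = true := by decide +kernel

theorem vD : tD0.cvx tD1 sh34 = true := by decide +kernel

theorem Dat.has' (d d' : Dat) (h : Shp) {Qs sh : ℕ} (hQ : 0 < Qs) (c : d.chk h Qs sh = true)
    (c' : d'.chk h Qs sh = true) (cv : d.cvx d' h = true) {t : ℝ} (h0 : 0 ≤ t) (h1 : t ≤ 1)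
    {m : ℕ → ℝ} {l l' : List ℕ} (e : d.ms = l) (e' : d'.ms = l') (hm : ∀ f < h.fl.length,
      m f = (1 - t) * ((l.getD f 0 : ℝ) / Qs) + t * ((l'.getD f 0 : ℝ) / Qs)) :
    h.Has m ((1 - t) * (d.bd : ℝ) + t * (d'.bd : ℝ)) :=
  d.has d' h hQ c c' cv h0 h1 (e ▸ e' ▸ hm)

theorem Dat.has0 (d d' : Dat) (h : Shp) {Qs sh : ℕ} (hQ : 0 < Qs) (c : d.chk h Qs sh = true)
    (c' : d'.chk h Qs sh = true) (cv : d.cvx d' h = true) {t : ℝ} (h0 : 0 ≤ t) (h1 : t ≤ 1)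
    {m : ℕ → ℝ} {l l' : List ℕ} (e : d.ms = l) (e' : d'.ms = l')
    (z : d.X = [] ∧ d'.X = []) (hm : ∀ f < h.fl.length,
      m f = (1 - t) * ((l.getD f 0 : ℝ) / Qs) + t * ((l'.getD f 0 : ℝ) / Qs)) : h.Has m 0 := by
  have := d.has' d' h hQ c c' cv h0 h1 e e' hm
  rw [Dat.bd, Dat.bd, if_pos z.1, if_pos z.2] at this
  simpa using this

theorem zlo1 {N : ℝ} (h : N ≤ 9 / 2) : zlo N = 37 / 200 := if_pos h

theorem zlo2 {N : ℝ} (h : 9 / 2 < N) (h' : N ≤ 23 / 5) :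
    zlo N = 37 / 200 + 13 / 20 * (N - 9 / 2) := by
  rw [zlo, if_neg h.not_ge, if_pos h']

theorem zlo3 {N : ℝ} (h : 23 / 5 < N) : zlo N = 1 / 4 := by
  rw [zlo, if_neg (by linarith), if_neg h.not_ge]

theorem tab23 (N : ℝ) (h4 : 4 ≤ N) (h6 : N ≤ 6) : ∃ B, sh23.Has (mas 6 N (zlo N)) B := by
  rcases le_or_gt N (9 / 2) with c | c
  · rw [zlo1 c]
    refine ⟨_, tA0.has' tA1 sh23 (by norm_num) cA0 cA1 vA (t := 2 * (N - 4)) (by linarith)
      (by linarith)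
      (l := [800, 0, 0, 0, 0, 0, 0, 400, 400, 400, 400, 400, 37, 37, 37, 37])
      (l' := [900, 0, 0, 0, 0, 0, 0, 400, 400, 400, 400, 400, 37, 37, 37, 37]) rfl rfl
      fun f hf => ?_⟩
    change f < 16 at hf
    interval_cases f <;> simp [mas] <;> ring
  rcases le_or_gt N (23 / 5) with c' | c'
  · rw [zlo2 c c']
    refine ⟨_, tB0.has' tB1 sh23 (by norm_num) cB0 cB1 vB (t := 10 * (N - 9 / 2)) (by linarith)
      (by linarith)
      (l := [900, 0, 0, 0, 0, 0, 0, 400, 400, 400, 400, 400, 37, 37, 37, 37])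
      (l' := [920, 0, 0, 0, 0, 0, 0, 400, 400, 400, 400, 400, 50, 50, 50, 50]) rfl rfl
      fun f hf => ?_⟩
    change f < 16 at hf
    interval_cases f <;> simp [mas] <;> ring
  · rw [zlo3 c']
    refine ⟨_, tC0.has' tC1 sh23 (by norm_num) cC0 cC1 vC (t := 5 / 7 * (N - 23 / 5)) (by linarith)
      (by linarith)
      (l := [92, 0, 0, 0, 0, 0, 0, 40, 40, 40, 40, 40, 5, 5, 5, 5])
      (l' := [120, 0, 0, 0, 0, 0, 0, 40, 40, 40, 40, 40, 5, 5, 5, 5]) rfl rfl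
      fun f hf => ?_⟩
    change f < 16 at hf
    interval_cases f <;> simp [mas] <;> ring

theorem tab34 (N : ℝ) (h4 : 11 / 2 ≤ N) (h6 : N ≤ 13 / 2) :
    ∃ B, sh34.Has (mas 6 N (1 / 4 + (N - 11 / 2) / 25)) B := by
  refine ⟨_, tD0.has' tD1 sh34 (by norm_num) cD0 cD1 vD (t := 2 / 5 * (N - 11 / 2)) (by linarith)
    (by linarith)
      (l := [110, 0, 0, 0, 0, 0, 0, 40, 40, 40, 40, 40, 5, 5, 5, 5])
      (l' := [160, 0, 0, 0, 0, 0, 0, 40, 40, 40, 40, 40, 7, 7, 7, 7]) rfl rfl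
      fun f hf => ?_⟩
  change f < 16 at hf
  interval_cases f <;> simp [mas] <;> ring

theorem tabAB (N : ℝ) (h4 : 4 ≤ N) (h5 : N ≤ 5) : shAB.Has (mas 5 N (zlo N)) 0 := by
  rcases le_or_gt N (9 / 2) with c | c
  · rw [zlo1 c]
    refine tE0.has0 tE1 shAB (by norm_num) cE0 cE1 vE (t := 2 * (N - 4)) (by linarith)
      (by linarith)
      (l := [800, 0, 0, 0, 0, 0, 400, 400, 400, 400, 37])
      (l' := [900, 0, 0, 0, 0, 0, 400, 400, 400, 400, 37]) rfl rfl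
      ⟨rfl, rfl⟩ fun f hf => ?_
    change f < 11 at hf
    interval_cases f <;> simp [mas] <;> ring
  rcases le_or_gt N (23 / 5) with c' | c'
  · rw [zlo2 c c']
    refine tF0.has0 tF1 shAB (by norm_num) cF0 cF1 vF (t := 10 * (N - 9 / 2)) (by linarith)
      (by linarith)
      (l := [900, 0, 0, 0, 0, 0, 400, 400, 400, 400, 37])
      (l' := [920, 0, 0, 0, 0, 0, 400, 400, 400, 400, 50]) rfl rfl
      ⟨rfl, rfl⟩ fun f hf => ?_
    change f < 11 at hf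
    interval_cases f <;> simp [mas] <;> ring
  · rw [zlo3 c']
    refine tG0.has0 tG1 shAB (by norm_num) cG0 cG1 vG (t := 5 / 2 * (N - 23 / 5)) (by linarith)
      (by linarith)
      (l := [92, 0, 0, 0, 0, 0, 40, 40, 40, 40, 5])
      (l' := [100, 0, 0, 0, 0, 0, 40, 40, 40, 40, 5]) rfl rfl
      ⟨rfl, rfl⟩ fun f hf => ?_
    change f < 11 at hf
    interval_cases f <;> simp [mas] <;> ring

theorem tabNA (N : ℝ) (h4 : 4 ≤ N) (h5 : N ≤ 5) : shNA.Has (mas 4 N (1 / 4)) 0 := by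
  refine tH0.has0 tH1 shNA (by norm_num) cH0 cH1 vH (t := N - 4) (by linarith)
    (by linarith)
      (l := [16, 0, 0, 0, 0, 8, 8, 8, 1])
      (l' := [20, 0, 0, 0, 0, 8, 8, 8, 1]) rfl rfl
      ⟨rfl, rfl⟩ fun f hf => ?_
  change f < 9 at hf
  interval_cases f <;> simp [mas] <;> ring

theorem tabNB (N : ℝ) (h4 : 4 ≤ N) (h5 : N ≤ 5) : shNB.Has (mas 4 N (1 / 4)) 0 := by
  refine tI0.has0 tI1 shNB (by norm_num) cI0 cI1 vI (t := N - 4) (by linarith)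
    (by linarith)
      (l := [16, 0, 0, 0, 0, 8, 8, 8, 1])
      (l' := [20, 0, 0, 0, 0, 8, 8, 8, 1]) rfl rfl
      ⟨rfl, rfl⟩ fun f hf => ?_
  change f < 9 at hf
  interval_cases f <;> simp [mas] <;> ring

theorem core_full (N : ℝ) (h4 : 4 < N) (_ : N < 8) : CoreAt N :=
  core_all tab23 tab34 tabAB tabNA tabNB N h4

end Pool.Agent.P.MP_3c7b76_co.G
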