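import Pool.Agent.P.MP_3c7b76_co.Kak

/-! The Poincare-Miranda theorem and a discrete version. -/

namespace Pool.Agent.P.MP_3c7b76_co.G

open Finset

theorem miranda {ι : Type} [Fintype ι] [Nonempty ι] (a b : ι → ℝ) (hab : ∀ i, a i ≤ b i)
    (g : (ι → ℝ) → ι → ℝ) (hg : Continuous g)
    (ha : ∀ y, (∀ i, a i ≤ y i ∧ y i ≤ b i) → ∀ i, y i = a i → g y i ≤ 0)
    (hb : ∀ y, (∀ i, a i ≤ y i ∧ y i ≤ b i) → ∀ i, y i = b i → 0 ≤ g y i) :
    ∃ y, (∀ i, a i ≤ y i ∧ y i ≤ b i) ∧ ∀ i, g y i = 0 := by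
  obtain ⟨R, hR⟩ : ∃ R : ℝ, R = ‖a‖ + ‖b‖ + 1 := ⟨_, rfl⟩
  have R0 : 0 < R := by rw [hR]; positivity
  let cl : (ι → ℝ) → ι → ℝ := fun y i => max (a i) (min (y i) (b i))
  have c0 : Continuous cl := by fun_prop
  have c1 : ∀ y i, a i ≤ cl y i ∧ cl y i ≤ b i := fun y i =>
    ⟨le_max_left _ _, max_le (hab i) (min_le_right _ _)⟩
  obtain ⟨t, ht⟩ := brouwer (F := fun t => R⁻¹ • cl (R • t - g (cl (R • t)))) (by fun_prop)
    (fun t => by
      rw [norm_smul, norm_inv, Real.norm_eq_abs, abs_of_pos R0, inv_mul_le_iff₀ R0, mul_one,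
        pi_norm_le_iff_of_nonneg R0.le]
      intro i
      have a1 := abs_le.1 (norm_le_pi_norm a i)
      have a2 := abs_le.1 (norm_le_pi_norm b i)
      have a3 := c1 (R • t - g (cl (R • t))) i
      rw [Real.norm_eq_abs, abs_le]
      constructor <;> linarith [a1.1, a2.2, a3.1, a3.2, norm_nonneg a, norm_nonneg b])
  have h1 : cl (R • t - g (cl (R • t))) = R • t := by
    conv_rhs => rw [← ht]
    rw [smul_smul, mul_inv_cancel₀ R0.ne', one_smul]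
  generalize R • t = y at h1
  have h2 : ∀ i, a i ≤ y i ∧ y i ≤ b i := fun i => h1 ▸ c1 _ i
  have h3 : cl y = y := funext fun i => by
    simp only [cl]; rw [min_eq_left (h2 i).2, max_eq_right (h2 i).1]
  rw [h3] at h1
  refine ⟨y, h2, fun i => ?_⟩
  have h4 : max (a i) (min (y i - g y i) (b i)) = y i := congrFun h1 i
  rcases lt_trichotomy (g y i) 0 with c | c | c
  · refine absurd (hb y h2 i ((h2 i).2.antisymm (not_lt.1 fun d => ?_))) (not_le.2 c)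
    exact absurd h4 (lt_max_of_lt_right (lt_min (by linarith) d)).ne'
  · exact c
  · refine absurd (ha y h2 i ((h2 i).1.antisymm' (not_lt.1 fun d => ?_))) (not_le.2 c)
    exact absurd h4 (max_lt d (min_lt_of_left_lt (by linarith))).ne

/-- The discrete Poincare-Miranda theorem. -/
theorem miranda_int {ι : Type} [Fintype ι] [Nonempty ι] (a b : ι → ℤ) (hab : ∀ i, a i ≤ b i)
    (f : (ι → ℤ) → ι → ℝ) (L : ℝ)
    (hL : ∀ x y, (∀ i, a i ≤ x i ∧ x i ≤ b i) → (∀ i, a i ≤ y i ∧ y i ≤ b i) →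
      (∀ i, x i ≤ y i + 1 ∧ y i ≤ x i + 1) → ∀ i, f x i ≤ f y i + L)
    (ha : ∀ x, (∀ i, a i ≤ x i ∧ x i ≤ b i) → ∀ i, x i = a i → f x i ≤ 0)
    (hb : ∀ x, (∀ i, a i ≤ x i ∧ x i ≤ b i) → ∀ i, x i = b i → 0 ≤ f x i) :
    ∃ x, (∀ i, a i ≤ x i ∧ x i ≤ b i) ∧ ∀ i, |f x i| ≤ L := by
  classical
  let B := Fintype.piFinset fun i => Icc (a i) (b i)
  have hB : ∀ x, x ∈ B ↔ ∀ i, a i ≤ x i ∧ x i ≤ b i := fun x => by
    simp only [B, Fintype.mem_piFinset, mem_Icc]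
  let φ : (ι → ℤ) → (ι → ℝ) → ℝ := fun x y => ∏ i, max (1 - |y i - x i|) 0
  have p0 : ∀ x y, 0 ≤ φ x y := fun x y => prod_nonneg fun i _ => le_max_right _ _
  have p1 : ∀ x y, φ x y ≠ 0 → ∀ i, |y i - x i| < 1 := fun x y h i => by
    by_contra c
    exact h (prod_eq_zero (mem_univ i) (max_eq_right (by linarith)))
  have p2 : ∀ (x : ι → ℤ) (y : ι → ℝ) (i) (z : ℤ), y i = z → φ x y ≠ 0 → x i = z := by
    intro x y i z e h
    have := p1 x y h i
    rw [e, ← Int.cast_sub, ← Int.cast_abs] at this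
    have : |z - x i| < 1 := by exact_mod_cast this
    rw [abs_lt] at this
    omega
  obtain ⟨y, y1, y2⟩ := miranda (fun i => (a i : ℝ)) (fun i => (b i : ℝ))
    (fun i => by exact_mod_cast hab i) (fun y i => ∑ x ∈ B, φ x y * f x i) (by fun_prop)
    (fun y _ i e => sum_nonpos fun x hx => by
      by_cases c : φ x y = 0
      · rw [c, zero_mul]
      · exact mul_nonpos_of_nonneg_of_nonpos (p0 _ _) (ha x ((hB x).1 hx) i (p2 x y i _ e c)))
    (fun y _ i e => sum_nonneg fun x hx => by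
      by_cases c : φ x y = 0
      · rw [c, zero_mul]
      · exact mul_nonneg (p0 _ _) (hb x ((hB x).1 hx) i (p2 x y i _ e c)))
  have x1 : ∀ i, a i ≤ ⌊y i⌋ ∧ ⌊y i⌋ ≤ b i := fun i =>
    ⟨Int.le_floor.2 (y1 i).1, by exact_mod_cast (Int.floor_le (y i)).trans (y1 i).2⟩
  have x2 : 0 < φ (fun i => ⌊y i⌋) y := prod_pos fun i _ => lt_max_of_lt_left (by
    rw [abs_of_nonneg (sub_nonneg.2 (Int.floor_le _))]
    linarith [Int.lt_floor_add_one (y i)])
  have x3 : ∀ x, φ x y ≠ 0 → ∀ i, x i ≤ ⌊y i⌋ + 1 ∧ ⌊y i⌋ ≤ x i + 1 := fun x h i => by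
    have a1 := abs_lt.1 (p1 x y h i)
    have a2 : (x i : ℝ) < ⌊y i⌋ + 2 := by linarith [Int.lt_floor_add_one (y i), a1.1]
    have a3 : (⌊y i⌋ : ℝ) < x i + 1 := by linarith [Int.floor_le (y i), a1.2]
    have a4 : x i < ⌊y i⌋ + 2 := by exact_mod_cast a2
    have a5 : ⌊y i⌋ < x i + 1 := by exact_mod_cast a3
    omega
  have hL0 : ∀ i, f (fun i => ⌊y i⌋) i ≤ f (fun i => ⌊y i⌋) i + L :=
    hL _ _ x1 x1 fun i => by omega
  refine ⟨fun i => ⌊y i⌋, x1, fun i => abs_le.2 ⟨not_lt.1 fun c => ?_, not_lt.1 fun c => ?_⟩⟩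
  · refine absurd (y2 i) (ne_of_lt ?_)
    rw [← sum_const_zero (s := B)]
    refine sum_lt_sum (fun x hx => ?_) ⟨_, (hB _).2 x1, mul_neg_of_pos_of_neg x2
      (by linarith [hL0 i])⟩
    by_cases e : φ x y = 0
    · rw [e, zero_mul]
    · exact mul_nonpos_of_nonneg_of_nonpos (p0 _ _)
        (by linarith [hL x _ ((hB x).1 hx) x1 (x3 x e) i])
  · refine absurd (y2 i) (ne_of_gt (sum_pos' (fun x hx => ?_) ⟨_, (hB _).2 x1, mul_pos x2
      (by linarith [hL0 i])⟩))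
    by_cases e : φ x y = 0
    · rw [e, zero_mul]
    · exact mul_nonneg (p0 _ _)
        (by linarith [hL _ x x1 ((hB x).1 hx) (fun i => (x3 x e i).symm) i])

end Pool.Agent.P.MP_3c7b76_co.G
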