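import Pool.Agent.P.MP_3c7b76_co.G.Win
import Pool.Agent.P.MP_3c7b76_co.G.Frame

/-! Soundness of window certificates. -/

set_option linter.unusedSectionVars false

namespace Pool.Agent.P.MP_3c7b76_co.G

open Finset S

variable {V : Type} [Fintype V] [DecidableEq V] {w : V → V → ℝ}

/-- The layer cake bound for real potentials. -/
theorem layer_max (hw : Wt w) {d : ℝ} (h0 : pot w d univ = 0) (hb : ∀ Y, 0 ≤ pot w d Y)
    (F : V → ℝ) : d * ∑ u, F u ≤ ∑ u, ∑ v, w u v * max (F u) (F v) := by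
  have _ := hw
  exact max_ge h0 hb F

private theorem tele (T : ℕ) (P g : ℕ → ℝ) (h : ∀ x < T, P x ≤ g x + P (x + 1)) :
    P 0 ≤ ∑ x ∈ range T, g x + P T := by
  induction T with
  | zero => simp
  | succ T ih =>
    rw [sum_range_succ]
    linarith [ih fun x hx => h x (by omega), h T (by omega)]

private theorem wv_sh (L x : ℕ) (s : ℕ → Bool) :
    wv L (fun i => s (x + i)) / 2 = wv (L - 1) fun i => s (x + 1 + i) := by
  rw [wv_div]
  congr 1
  funext i
  congr 1
  omega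

private theorem ker_comm (nf : ℕ) (φ a : ℕ → ℕ → ℝ) (u v : ℕ) :
    ker nf φ a u v = ker nf φ a v u := sum_congr rfl fun _ _ => by ring

private theorem sep_win (L : ℕ) (D : ℕ → ℝ) (S : ℕ → Finset V) (x : ℕ) (u v : V) :
    sep L D (win L S x u) (win L S x v) = ∑ i ∈ range L, D i * sp (S (x + i)) u v := by
  refine sum_congr rfl fun i hi => ?_
  rw [testBit_win _ _ _ (mem_range.1 hi), testBit_win _ _ _ (mem_range.1 hi), sp]
  by_cases h : u ∈ S (x + i) ↔ v ∈ S (x + i)
  · rw [if_pos h, if_pos (decide_eq_decide.2 h), mul_zero]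
  · rw [if_neg h, if_neg fun e => h (decide_eq_decide.1 e), mul_one]

theorem sound {L nf r : ℕ} {φ a : ℕ → ℕ → ℝ} {le ok rok : ℕ → Prop} {D m lam : ℕ → ℝ}
    {B A E j c : ℝ} {p q : ℕ → ℕ → ℕ → ℝ} (hT : Tab L nf φ le ok rok D r m B a lam p q)
    (hL : 0 < L) (hD : ∀ i, 0 ≤ D i) (hA : ∀ u < 2 ^ L, ∑ f ∈ range nf, |a u f| ≤ A)
    (hE : 0 ≤ E) (hj : 0 ≤ j) (hw : Wt w) (h0 : pot w (2 * j) univ = 0)
    (hb : ∀ Y, 0 ≤ pot w (2 * j) Y) (S : ℕ → Finset V) (T : ℕ)
    (hc : ∀ x, ew w (S x) (S x)ᶜ ≤ c) (hok : ∀ x < T, ∀ u, ok (win L S x u))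
    (hup : ∀ x < T, ∀ f < nf, ∑ u, φ f (win L S x u) ≤ m f * j + E)
    (hdn : ∀ x < T, ∀ f < nf, ¬ le f → m f * j - E ≤ ∑ u, φ f (win L S x u))
    (hr : ∀ x < T, 2 * j - E ≤ ∑ u, φ r (win L S x u))
    (hρ : ∀ u v, ∃ ρ : ℕ → Bool, (∀ x < T, rok (wv L fun i => ρ (x + i))) ∧
      ∀ i, ¬ (u ∈ S i ↔ v ∈ S i) → ρ i = decide (u ∈ S i)) :
    T * (∑ i ∈ range L, D i) * j * (2 * j - E) - 2 * T * Fintype.card V * A * E -
      (Fintype.card V : ℝ) ^ 2 * B ≤ 2 * T * (∑ i ∈ range L, D i) * c := by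
  have _ := hL
  have wl : ∀ x u, win L S x u < 2 ^ L := fun x u => wv_lt _ _
  have key : ∀ u v, -B ≤ ∑ x ∈ range T, ker nf φ a (win L S x u) (win L S x v) ∧
      ∑ x ∈ range T, lam (win L S x u) ≤
        ∑ x ∈ range T, ker nf φ a (win L S x u) (win L S x v) + B +
          ∑ t ∈ range T ×ˢ range L, D t.2 * sp (S (t.1 + t.2)) u v := fun u v => by
    obtain ⟨ρ, h1, h2⟩ := hρ u v
    have dm : ∀ x, Dom L (win L S x u) (win L S x v) (wv L fun i => ρ (x + i)) :=
      fun x i hi hne => by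
        rw [testBit_win _ _ _ hi, testBit_win _ _ _ hi] at hne
        rw [testBit_win _ _ _ hi, testBit_wv _ hi]
        exact h2 _ fun e => hne (decide_eq_decide.2 e)
    constructor
    · have t := tele T (fun x => p (win (L - 1) S x u) (win (L - 1) S x v)
          (wv (L - 1) fun i => ρ (x + i)))
        (fun x => ker nf φ a (win L S x u) (win L S x v)) fun x hx => by
          have e := hT.e1 _ (wl x u) _ (wl x v) _ (wv_lt _ _) (hok x hx u) (hok x hx v) (h1 x hx)
            (dm x)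
          unfold win at e ⊢
          rw [wv_mod, wv_mod, wv_mod, wv_sh L x fun i => decide (u ∈ S i),
            wv_sh L x fun i => decide (v ∈ S i), wv_sh L x ρ] at e
          exact e
      linarith [(hT.bd (win (L - 1) S 0 u) (win (L - 1) S 0 v)
        (wv (L - 1) fun i => ρ (0 + i))).1, (hT.bd (win (L - 1) S T u) (win (L - 1) S T v)
        (wv (L - 1) fun i => ρ (T + i))).2.1]
    · have t := tele T (fun x => q (win (L - 1) S x u) (win (L - 1) S x v)
          (wv (L - 1) fun i => ρ (x + i)))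
        (fun x => sep L D (win L S x u) (win L S x v) + ker nf φ a (win L S x u) (win L S x v) -
          lam (win L S x u)) fun x hx => by
          have e := hT.e2 _ (wl x u) _ (wl x v) _ (wv_lt _ _) (hok x hx u) (hok x hx v) (h1 x hx)
            (dm x)
          unfold win at e ⊢
          rw [wv_mod, wv_mod, wv_mod, wv_sh L x fun i => decide (u ∈ S i),
            wv_sh L x fun i => decide (v ∈ S i), wv_sh L x ρ] at e
          linarith
      rw [sum_sub_distrib, sum_add_distrib] at t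
      simp only [sep_win] at t
      rw [sum_product]
      linarith [(hT.bd (win (L - 1) S 0 u) (win (L - 1) S 0 v)
        (wv (L - 1) fun i => ρ (0 + i))).2.2.1, (hT.bd (win (L - 1) S T u) (win (L - 1) S T v)
        (wv (L - 1) fun i => ρ (T + i))).2.2.2]
  have fr := frame hw h0 hb (range T ×ˢ range L) (fun t => S (t.1 + t.2)) (fun t => D t.2)
    (fun t _ => hD _) (fun t _ => hc _) (fun u => ∑ x ∈ range T, lam (win L S x u))
    (fun u v => ∑ x ∈ range T, ker nf φ a (win L S x u) (win L S x v)) B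
    (fun u v => sum_congr rfl fun x _ => ker_comm _ _ _ _ _) (fun u v => (key u v).1)
    fun u v => (key u v).2
  have hDs : 0 ≤ ∑ i ∈ range L, D i := sum_nonneg fun i _ => hD i
  have st : ∀ x ∈ range T, (∑ i ∈ range L, D i) * j * (2 * j - E) -
      2 * Fintype.card V * A * E ≤ 2 * j * ∑ u, lam (win L S x u) -
        ∑ u, ∑ v, ker nf φ a (win L S x u) (win L S x v) := fun x hx => by
    have hx := mem_range.1 hx
    have e1 : ∑ u, ∑ v, ker nf φ a (win L S x u) (win L S x v) =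
        2 * ∑ u, ∑ f ∈ range nf, a (win L S x u) f * ∑ v, φ f (win L S x v) := by
      have e : ∑ u, ∑ v, ∑ f ∈ range nf, a (win L S x u) f * φ f (win L S x v) =
          ∑ u, ∑ f ∈ range nf, a (win L S x u) f * ∑ v, φ f (win L S x v) :=
        sum_congr rfl fun u _ => by
          rw [sum_comm]
          exact sum_congr rfl fun f _ => (mul_sum _ _ _).symm
      simp only [ker, sum_add_distrib]
      rw [sum_comm (f := fun u v => ∑ f ∈ range nf, a (win L S x v) f * φ f (win L S x u)), e,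
        two_mul]
    have e2 : ∀ u ∈ (univ : Finset V),
        ∑ f ∈ range nf, a (win L S x u) f * ∑ v, φ f (win L S x v) ≤
          j * (lam (win L S x u) - (∑ i ∈ range L, D i) / 2 * φ r (win L S x u)) + A * E :=
      fun u _ => by
        have b1 := mul_le_mul_of_nonneg_left (hT.low _ (wl x u) (hok x hx u)) hj
        have b2 := mul_le_mul_of_nonneg_right (hA _ (wl x u)) hE
        have b3 : ∑ f ∈ range nf, a (win L S x u) f * ∑ v, φ f (win L S x v) ≤
            ∑ f ∈ range nf, (j * (a (win L S x u) f * m f) + |a (win L S x u) f| * E) :=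
          sum_le_sum fun f hf => by
            have hf := mem_range.1 hf
            have c1 := hup x hx f hf
            rcases le_or_gt 0 (a (win L S x u) f) with c | c
            · rw [abs_of_nonneg c]
              linarith [mul_le_mul_of_nonneg_left c1 c]
            · have c2 := hdn x hx f hf fun l => c.not_ge (hT.pos _ (wl x u) (hok x hx u) f hf l)
              rw [abs_of_neg c]
              linarith [mul_le_mul_of_nonpos_left c2 c.le]
        rw [sum_add_distrib, ← mul_sum, ← sum_mul] at b3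
        linarith
    have e3 := sum_le_sum e2
    rw [sum_add_distrib, ← mul_sum, sum_sub_distrib, ← mul_sum, sum_const, card_univ,
      nsmul_eq_mul] at e3
    have e4 := mul_le_mul_of_nonneg_left (hr x hx) (mul_nonneg hDs hj)
    rw [e1]
    linarith
  have su := sum_le_sum st
  rw [sum_const, card_range, nsmul_eq_mul, sum_sub_distrib, ← mul_sum, sum_comm,
    sum_comm (s := range T)] at su
  have e5 : ∀ u, ∑ x ∈ range T, ∑ v, ker nf φ a (win L S x u) (win L S x v) =
      ∑ v, ∑ x ∈ range T, ker nf φ a (win L S x u) (win L S x v) := fun u => sum_comm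
  simp only [e5] at su
  rw [sum_product] at fr
  simp only [sum_const, card_range, nsmul_eq_mul] at fr
  linarith

private theorem ex_bd (L nf : ℕ) (a : ℕ → ℕ → ℝ) :
    ∃ A, ∀ u < 2 ^ L, ∑ f ∈ range nf, |a u f| ≤ A :=
  ⟨∑ u ∈ range (2 ^ L), ∑ f ∈ range nf, |a u f|, fun _ hu =>
    single_le_sum (f := fun u => ∑ f ∈ range nf, |a u f|)
      (fun _ _ => sum_nonneg fun _ _ => abs_nonneg _) (mem_range.2 hu)⟩

private theorem Shp.core (h : Shp) (hL : 0 < h.L) {m : ℕ → ℝ} {B E : ℝ} (hh : h.Has m B)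
    (hE : 0 ≤ E) : ∃ Ds A : ℝ, 0 < Ds ∧ ∀ (V : Type) [Fintype V] [DecidableEq V]
      (w : V → V → ℝ) (j c : ℝ) (S : ℕ → Finset V) (T : ℕ), 0 ≤ j → Wt w →
      pot w (2 * j) univ = 0 → (∀ Y, 0 ≤ pot w (2 * j) Y) → (∀ x, ew w (S x) (S x)ᶜ ≤ c) →
      h.Fit m j E S T → T * Ds * j * (2 * j - E) - 2 * T * Fintype.card V * A * E -
        (Fintype.card V : ℝ) ^ 2 * B ≤ 2 * T * Ds * c := by
  obtain ⟨D, a, lam, p, q, hD, hs, hT⟩ := hh
  obtain ⟨A, hA⟩ := ex_bd h.L h.fl.length a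
  exact ⟨_, A, hs, fun V _ _ w j c S T hj hw h0 hb hc hf => sound hT hL hD hA hE hj hw h0 hb S T hc
    hf.ok hf.up (fun x hx f h1 h2 => hf.dn x hx f (not_le.1 h2) h1) hf.rf hf.rho⟩

theorem Shp.chain (h : Shp) (hL : 0 < h.L) {m : ℕ → ℝ} {B j c : ℝ} (hh : h.Has m B) (hj : 0 ≤ j)
    (hw : Wt w) (h0 : pot w (2 * j) univ = 0) (hb : ∀ Y, 0 ≤ pot w (2 * j) Y)
    (S : ℕ → Finset V) (hc : ∀ x, ew w (S x) (S x)ᶜ ≤ c) (hf : ∀ T, h.Fit m j 0 S T) :
    j ^ 2 ≤ c := by
  obtain ⟨Ds, A, hs, H⟩ := h.core hL hh le_rfl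
  by_contra hn
  have hp : 0 < 2 * Ds * (j ^ 2 - c) := by
    have := not_le.1 hn
    have : 0 < j ^ 2 - c := by linarith
    positivity
  obtain ⟨T, hT⟩ := exists_nat_gt ((Fintype.card V : ℝ) ^ 2 * B / (2 * Ds * (j ^ 2 - c)))
  rw [div_lt_iff₀ hp] at hT
  have := H V w j c S T hj hw h0 hb hc (hf T)
  linarith

theorem Shp.fin (h : Shp) (hL : 0 < h.L) {m : ℕ → ℝ} (hh : h.Has m 0) (N : ℝ) {E : ℝ}
    (hE : 0 ≤ E) : ∃ C : ℝ, ∀ (V : Type) [Fintype V] [DecidableEq V] (w : V → V → ℝ) (j c : ℝ)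
      (S : ℕ → Finset V), 0 ≤ j → Wt w → pot w (2 * j) univ = 0 → (∀ Y, 0 ≤ pot w (2 * j) Y) →
      (Fintype.card V : ℝ) = N * j → (∀ x, ew w (S x) (S x)ᶜ ≤ c) → h.Fit m j E S 1 →
      j ^ 2 - C * j ≤ c := by
  obtain ⟨Ds, A, hs, H⟩ := h.core hL hh hE
  refine ⟨E / 2 + N * A * E / Ds, fun V _ _ w j c S hj hw h0 hb hN hc hf => ?_⟩
  have t := H V w j c S 1 hj hw h0 hb hc hf
  rw [hN] at t
  refine le_of_mul_le_mul_left ?_ hs
  have e : Ds * (j ^ 2 - (E / 2 + N * A * E / Ds) * j) =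
      Ds * j ^ 2 - Ds * E / 2 * j - N * A * E * j := by
    field_simp
    ring
  rw [e]
  push_cast at t
  linarith

end Pool.Agent.P.MP_3c7b76_co.G
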