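import Pool.Agent.P.MP_3c7b76_co.G.GeoC
import Pool.Agent.P.MP_3c7b76_co.G.GeoD
import Pool.Agent.P.MP_3c7b76_co.G.Cell
import Pool.Agent.P.MP_3c7b76_co.G.Snd

/-! The reduction of the core bound to certificates. -/

set_option linter.unusedSectionVars false

namespace Pool.Agent.P.MP_3c7b76_co.G

open Finset S

variable {V : Type} [Fintype V] [DecidableEq V] {M : ℕ} {k : ℤ → V → ℝ} {w : V → V → ℝ}

/-- The total mass of a feature on the halving sets of the order numbers `a`. -/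
noncomputable def val (k : ℤ → V → ℝ) (a : ℕ → ℤ) (x : ℕ) (c : ℕ × ℕ × ℕ × ℕ) : ℝ :=
  if c.1 = 0 then Fintype.card V
  else if c.1 = 1 then 0
  else if c.1 = 2 then 2 * wd k (a (x + c.2.1)) (a (x + c.2.2.1))
  else zp k (a (x + c.2.1)) (a (x + c.2.2.1)) (a (x + c.2.2.2)) +
    zm k (a (x + c.2.1)) (a (x + c.2.2.1)) (a (x + c.2.2.2))

theorem sum_ft (h : Allow M k) (he : Even (Fintype.card V)) {L : ℕ} (x : ℕ) (a : ℕ → ℤ)
    (c : ℕ × ℕ × ℕ × ℕ) (h1 : c.2.1 < L) (h2 : c.2.2.1 < L) (h3 : c.2.2.2 < L) :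
    ∑ u, (ft c (win L (fun t => hs k (a t)) x u) : ℝ) = val k a x c := by
  obtain ⟨n, i, i', i''⟩ := c
  unfold val
  split_ifs with c0 c1 c2
  · obtain rfl : n = 0 := c0
    exact sum_one _ _ _ _ _ _
  · obtain rfl : n = 1 := c1
    exact sum_sign h he x i' i'' a h1
  · obtain rfl : n = 2 := c2
    exact sum_chg h x i'' a h1 h2
  · rw [← sum_zig k x a h1 h2 h3]
    refine sum_congr rfl fun u _ => ?_
    unfold ft
    rw [if_neg c0, if_neg c1, if_neg c2]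
    rfl

/-- All positions named by a shape lie in the window. -/
def Shp.Bd (h : Shp) : Prop :=
  0 < h.L ∧ (∀ c ∈ h.fl, c.2.1 < h.L ∧ c.2.2.1 < h.L ∧ c.2.2.2 < h.L) ∧
    ∀ t ∈ h.Pl ++ h.Ql ++ h.Zl, t.1 < h.L ∧ t.2.1 < h.L ∧ t.2.2 < h.L

theorem Shp.Bd.getD {h : Shp} (hb : h.Bd) (f : ℕ) : (h.fl.getD f (0, 0, 0, 0)).2.1 < h.L ∧
    (h.fl.getD f (0, 0, 0, 0)).2.2.1 < h.L ∧ (h.fl.getD f (0, 0, 0, 0)).2.2.2 < h.L := by
  rcases lt_or_ge f h.fl.length with c | c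
  · rw [List.getD_eq_getElem _ _ c]
    exact hb.2.1 _ (List.getElem_mem c)
  · rw [List.getD_eq_default _ _ c]
    exact ⟨hb.1, hb.1, hb.1⟩

theorem fit_gen (ha : Allow M k) (he : Even (Fintype.card V)) (hn : 2 ≤ Fintype.card V) (h : Shp)
    (hb : h.Bd) (a : ℕ → ℤ) (T : ℕ) {m : ℕ → ℝ} {j E : ℝ}
    (hP : ∀ x < T, ∀ t ∈ h.Pl, a (x + t.1) ≤ a (x + t.2.1) ∧ a (x + t.2.1) ≤ a (x + t.2.2) ∧
      a (x + t.2.2) ≤ a (x + t.1) + M)
    (hQ : ∀ x < T, ∀ t ∈ h.Ql, a (x + t.2.1) ≤ a (x + t.1) + M ∧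
      a (x + t.1) + M ≤ a (x + t.2.2) ∧ a (x + t.2.2) ≤ a (x + t.2.1) + M)
    (hZ : ∀ x < T, ∀ t ∈ h.Zl, zm k (a (x + t.1)) (a (x + t.2.1)) (a (x + t.2.2)) = 0)
    (hu : ∀ x < T, ∀ f < h.fl.length, val k a x (h.fl.getD f (0, 0, 0, 0)) ≤ m f * j + E)
    (hd : ∀ x < T, ∀ f < h.ne, f < h.fl.length →
      m f * j - E ≤ val k a x (h.fl.getD f (0, 0, 0, 0)))
    (hr : ∀ x < T, 2 * j - E ≤ val k a x (h.fl.getD h.r (0, 0, 0, 0))) :
    h.Fit m j E (fun t => hs k (a t)) T := by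
  have s : ∀ x f, ∑ u, (ft (h.fl.getD f (0, 0, 0, 0)) (win h.L (fun t => hs k (a t)) x u) : ℝ) =
      val k a x (h.fl.getD f (0, 0, 0, 0)) := fun x f =>
    sum_ft ha he x a _ (hb.getD f).1 (hb.getD f).2.1 (hb.getD f).2.2
  refine ⟨fun x hx u => ?_, fun x hx f hf => s x f ▸ hu x hx f hf,
    fun x hx f hf hf' => s x f ▸ hd x hx f hf hf', fun x hx => s x _ ▸ hr x hx,
    rho_ok ha hn h.L T a h.Pl h.Ql (fun x hx t ht => ?_) fun x hx t ht => ?_⟩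
  · rw [okL, List.all_eq_true]
    intro t ht
    obtain ⟨b1, b2, b3⟩ := hb.2.2 t (List.mem_append_right _ ht)
    have := ok_zig k x a b1 b2 b3 (hZ x hx t ht) u
    simpa only [okL, List.all_cons, List.all_nil, Bool.and_true] using this
  · obtain ⟨b1, b2, b3⟩ := hb.2.2 t (List.mem_append_left _ (List.mem_append_left _ ht))
    exact ⟨b1, b2, b3, hP x hx t ht⟩
  · obtain ⟨b1, b2, b3⟩ := hb.2.2 t (List.mem_append_left _ (List.mem_append_right _ ht))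
    exact ⟨b1, b2, b3, hQ x hx t ht⟩

/-- The normalised masses of the features on a chain with small zigzags. -/
noncomputable def mass (N z : ℝ) (c : ℕ × ℕ × ℕ × ℕ) : ℝ :=
  if c.1 = 0 then N else if c.1 = 1 then 0 else if c.1 = 2 then 2 else z

/-- The shape suits chains whose half turn lies between `p` and `p + 1` steps. -/
def Shp.ChainOk (h : Shp) (p : ℕ) : Prop :=
  h.Bd ∧ h.Zl = [] ∧ (∀ t ∈ h.Pl, t.1 ≤ t.2.1 ∧ t.2.1 ≤ t.2.2 ∧ t.2.2 ≤ t.1 + p) ∧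
    (∀ t ∈ h.Ql, t.2.1 ≤ t.1 + p ∧ t.1 + p + 1 ≤ t.2.2 ∧ t.2.2 ≤ t.2.1 + p) ∧
    (∀ f < h.fl.length, ((h.fl.getD f (0, 0, 0, 0)).1 ≤ 1 ∨
      (h.fl.getD f (0, 0, 0, 0)).2.2.1 = (h.fl.getD f (0, 0, 0, 0)).2.1 + 1) ∧
      ((h.fl.getD f (0, 0, 0, 0)).1 ≤ 2 ∨ (h.ne ≤ f ∧
        (h.fl.getD f (0, 0, 0, 0)).2.2.2 = (h.fl.getD f (0, 0, 0, 0)).2.1 + 2))) ∧
    h.r < h.fl.length ∧ (h.fl.getD h.r (0, 0, 0, 0)).1 = 2

theorem fit_chain {j : ℕ} {c N z : ℝ} (e : Env M k w j c N) (hn : 2 ≤ Fintype.card V) (h : Shp)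
    {p : ℕ} (hk : h.ChainOk p) (a : ℕ → ℤ) (hl : ∀ x, Lk M k j (a x) (a (x + 1)))
    (h1 : ∀ x, a (x + p) ≤ a x + M) (h2 : ∀ x, a x + M ≤ a (x + p + 1))
    (hz : ∀ x, (zp k (a x) (a (x + 1)) (a (x + 2)) : ℝ) + zm k (a x) (a (x + 1)) (a (x + 2)) ≤
      z * j) (T : ℕ) :
    h.Fit (fun f => mass N z (h.fl.getD f (0, 0, 0, 0))) j 0 (fun t => hs k (a t)) T := by
  obtain ⟨hb, hZ, hP, hQ, hf, hr, hr'⟩ := hk
  have mo : Monotone a := monotone_nat_of_le_succ fun x => (hl x).1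
  have key : ∀ x, ∀ f < h.fl.length,
      val k a x (h.fl.getD f (0, 0, 0, 0)) ≤ mass N z (h.fl.getD f (0, 0, 0, 0)) * j ∧
      ((h.fl.getD f (0, 0, 0, 0)).1 ≤ 2 →
        val k a x (h.fl.getD f (0, 0, 0, 0)) = mass N z (h.fl.getD f (0, 0, 0, 0)) * j) := by
    intro x f hf'
    obtain ⟨f1, f2⟩ := hf f hf'
    generalize h.fl.getD f (0, 0, 0, 0) = t at *
    unfold val mass
    split_ifs with c0 c1 c2
    · exact ⟨e.card.le, fun _ => e.card⟩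
    · simp
    · rw [f1.resolve_left (by omega), ← add_assoc, (hl _).2.2]
      exact ⟨le_rfl, fun _ => rfl⟩
    · rw [f1.resolve_left (by omega), (f2.resolve_left (by omega)).2, ← add_assoc, ← add_assoc]
      exact ⟨hz _, fun _ => by omega⟩
  refine fit_gen e.al e.even hn h hb a T (fun x _ t ht => ?_) (fun x _ t ht => ?_)
    (fun x _ t ht => by simp [hZ] at ht) (fun x _ f hf' => by rw [add_zero]; exact (key x f hf').1)
    (fun x _ f hf1 hf' => ?_) fun x _ => ?_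
  · obtain ⟨b1, b2, b3⟩ := hP t ht
    exact ⟨mo (by omega), mo (by omega), (mo (by omega)).trans (h1 _)⟩
  · obtain ⟨b1, b2, b3⟩ := hQ t ht
    exact ⟨(mo (by omega)).trans (h1 _), (h2 _).trans (mo (by omega)),
      (mo (by omega)).trans (h1 _)⟩
  · rw [sub_zero]
    exact ((key x f hf').2 ((hf f hf').2.resolve_right (by omega))).ge
  · rw [sub_zero, (key x _ hr).2 hr'.le, mass, if_neg (by omega), if_neg (by omega), if_pos hr']

/-- A certificate exists for chains whose half turn lies between `p` and `p + 1` steps. -/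
def ChainAt (p : ℕ) (N z : ℝ) : Prop :=
  ∃ (h : Shp) (B : ℝ), h.ChainOk p ∧ h.Has (fun f => mass N z (h.fl.getD f (0, 0, 0, 0))) B

/-- The bound holds as soon as two links have a zigzag of mass about `z * j`. -/
def TriAt (N z : ℝ) : Prop :=
  ∃ (C : ℝ) (j₀ : ℕ), ∀ (V : Type) [Fintype V] [DecidableEq V] (M : ℕ) (k : ℤ → V → ℝ)
    (w : V → V → ℝ) (j : ℕ) (c : ℝ), j₀ ≤ j → Env M k w j c N → ∀ a b d, Lk M k j a b →
    Lk M k j b d → zm k a b d = 0 → z * j ≤ zp k a b d → (zp k a b d : ℝ) ≤ z * j + 4 →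
    (j : ℝ) ^ 2 - C * j ≤ c

theorem ex_big {δ : ℝ} (hδ : 0 < δ) (K : ℝ) : ∃ j₀ : ℕ, ∀ j : ℕ, j₀ ≤ j → K ≤ δ * j := by
  obtain ⟨n, hn⟩ := exists_nat_ge (K / δ)
  refine ⟨n, fun j hj => ?_⟩
  rw [div_le_iff₀' hδ] at hn
  exact hn.trans (mul_le_mul_of_nonneg_left (Nat.cast_le.2 hj) hδ.le)

theorem Env.half {j : ℕ} {c N : ℝ} (e : Env M k w j c N) :
    ((Fintype.card V / 2 : ℕ) : ℝ) = N * j / 2 := by
  obtain ⟨m, hm⟩ := e.even
  rw [← e.card, hm, show (m + m) / 2 = m by omega]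
  push_cast
  ring

theorem core_of {N z : ℝ} (h4 : 4 < N) (hz0 : 0 ≤ z) (hz : 4 * z < 8 - N) (ht : TriAt N z)
    (h2 : N ≤ 6 → ChainAt 2 N z) (h3 : 6 - 2 * z ≤ N → ChainAt 3 N z) : CoreAt N := by
  intro ε hε
  obtain ⟨C, j0, H⟩ := ht
  obtain ⟨j1, H1⟩ := ex_big hε C
  obtain ⟨j2, H2⟩ := ex_big (δ := 4 - N / 2 - 2 * z) (by linarith) 6
  obtain ⟨j3, H3⟩ : ∃ j₀ : ℕ, ∀ j : ℕ, j₀ ≤ j → 3 * j ≤ N * j / 2 + z * j + 5 →
      6 - 2 * z ≤ N := by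
    rcases le_or_gt (6 - 2 * z) N with c | c
    · exact ⟨0, fun _ _ _ => c⟩
    · obtain ⟨j3, H3⟩ := ex_big (δ := 3 - N / 2 - z) (by linarith) 6
      exact ⟨j3, fun j hj hh => by linarith [H3 j hj]⟩
  refine ⟨j0 + j1 + j2 + j3 + 1, fun V _ _ M k w j c hj a1 a2 a3 a4 a5 a6 a7 a8 => ?_⟩
  have e : Env M k w j c N := ⟨a1, a2, a3, a4, a5, a6, a7, a8⟩
  have j1' : (1 : ℝ) ≤ j := by exact_mod_cast (by omega : 1 ≤ j)
  have hh := e.half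
  have b4 : 2 * j < Fintype.card V / 2 := by
    have : ((2 * j : ℕ) : ℝ) < (Fintype.card V / 2 : ℕ) := by
      rw [hh]; push_cast; nlinarith
    exact_mod_cast this
  have zj : 0 ≤ z * j := by positivity
  have f1 := Nat.floor_le zj
  have f2 := Nat.lt_floor_add_one (z * j)
  have fin : ∀ (p : ℕ) (a : ℕ → ℤ), ChainAt p N z → (∀ x, Lk M k j (a x) (a (x + 1))) →
      (∀ x, a (x + p) ≤ a x + M) → (∀ x, a x + M ≤ a (x + p + 1)) →
      (∀ a b d, Lk M k j a b → Lk M k j b d → zp k a b d + zm k a b d ≤ ⌊z * j⌋₊) →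
      (1 - ε) * (j : ℝ) ^ 2 ≤ c := by
    rintro p a ⟨h, B, hk, hB⟩ l1 l2 l3 l4
    have := h.chain hk.1.1 hB (Nat.cast_nonneg j) a1 a5 a6 (fun t => hs k (a t))
      (fun x => a4 _ _ (hs_dn k _)) (fit_chain e (by omega) h hk a l1 l2 l3 fun x => by
        refine le_trans ?_ f1
        exact_mod_cast l4 _ _ _ (l1 x) (l1 (x + 1)))
    nlinarith [sq_nonneg (j : ℝ)]
  rcases ivt3 a2 a3 a8 (g := j) (g' := j) (by omega) (by omega) (⌊z * j⌋₊ + 1) with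
    ⟨a, b, d, l, l', y1, y2⟩ | hs
  · have z0 : zm k a b d = 0 :=
      (zz_excl a2 l.1 l'.1 (two_lk a2 a8 l l' (by omega))).resolve_left (by omega)
    rw [z0] at y1 y2
    have y1' : ((0 + (⌊z * j⌋₊ + 1) : ℕ) : ℝ) ≤ zp k a b d := Nat.cast_le.2 y1
    have y2' : (zp k a b d : ℝ) ≤ (0 + (⌊z * j⌋₊ + 1) + 3 : ℕ) := Nat.cast_le.2 y2
    push_cast at y1' y2'
    have := H V M k w j c (by omega) e a b d l l' z0 (by linarith) (by linarith)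
    nlinarith [H1 j (by omega)]
  · have sm : ∀ a b d, Lk M k j a b → Lk M k j b d → zp k a b d + zm k a b d ≤ ⌊z * j⌋₊ :=
      fun a b d l l' => by
        have := hs a b d l l'
        have := zz_excl a2 l.1 l'.1 (two_lk a2 a8 l l' (by omega))
        omega
    have b8 : Fintype.card V / 2 + 2 * ⌊z * j⌋₊ + 6 ≤ 4 * j := by
      have : ((Fintype.card V / 2 + 2 * ⌊z * j⌋₊ + 6 : ℕ) : ℝ) ≤ (4 * j : ℕ) := by
        rw [Nat.cast_add, Nat.cast_add, hh]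
        push_cast
        linarith [H2 j (by omega)]
      exact_mod_cast this
    obtain ⟨a, l, ⟨c1, c2⟩ | ⟨c1, c2⟩⟩ := exists_chain a2 a3 a8 b4 b8 sm
    · refine fin 2 a (h2 ?_) l (fun x => two_lk a2 a8 (l x) (l (x + 1)) (by omega)) c1 sm
      have : ((Fintype.card V / 2 : ℕ) : ℝ) ≤ (3 * j : ℕ) := Nat.cast_le.2 c2
      rw [hh] at this
      push_cast at this
      nlinarith
    · refine fin 3 a (h3 (H3 j (by omega) ?_)) l (fun x => (c1 x).1) (fun x => (c1 x).2) sm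
      have : ((3 * j : ℕ) : ℝ) ≤ (Fintype.card V / 2 + ⌊z * j⌋₊ + 5 : ℕ) := Nat.cast_le.2 c2
      rw [Nat.cast_add, Nat.cast_add, hh] at this
      push_cast at this
      linarith

theorem sq_as {x α j D : ℝ} (hj : 1 ≤ j) (h : |x - α * j| ≤ D) :
    x ^ 2 ≤ α ^ 2 * j ^ 2 + (2 * |α| * D + D ^ 2) * j := by
  have hD := (abs_nonneg _).trans h
  have h1 : α * (x - α * j) ≤ |α| * D :=
    (le_abs_self _).trans (by rw [abs_mul]; exact mul_le_mul_of_nonneg_left h (abs_nonneg _))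
  have h2 : (x - α * j) ^ 2 ≤ D ^ 2 := sq_le_sq' (abs_le.1 h).1 (abs_le.1 h).2
  nlinarith [mul_le_mul_of_nonneg_left h1 (by linarith : 0 ≤ j), sq_nonneg D]

/-- The seven cell bound for links of about `γ * j` and a zigzag of about `z * j`. -/
theorem cell7_as {N γ z : ℝ} (E : ℝ) (h : z ^ 2 + 2 * γ ^ 2 + 2 * (γ - z) ^ 2 +
      (N / 2 - 2 * γ) ^ 2 + (N / 2 - 2 * γ + z) ^ 2 + 6 ≤ 2 * N) :
    ∃ C : ℝ, ∀ (V : Type) [Fintype V] [DecidableEq V] (M : ℕ) (k : ℤ → V → ℝ)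
      (w : V → V → ℝ) (j : ℕ) (c : ℝ), 1 ≤ j → Env M k w j c N → ∀ (g : ℕ) a b d, Lk M k g a b →
      Lk M k g b d → zm k a b d = 0 → |g - γ * j| ≤ E → |zp k a b d - z * j| ≤ E →
      (j : ℝ) ^ 2 - C * j ≤ c := by
  refine ⟨((2 * |z| * E + E ^ 2) + 2 * (2 * |γ| * E + E ^ 2) +
    2 * (2 * |γ - z| * (2 * E) + (2 * E) ^ 2) + (2 * |N / 2 - 2 * γ| * (2 * E) + (2 * E) ^ 2) +
    (2 * |N / 2 - 2 * γ + z| * (3 * E) + (3 * E) ^ 2)) / 6,
    fun V _ _ M k w j c hj e g a b d l l' h0 hg hy => ?_⟩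
  have j1 : (1 : ℝ) ≤ j := by exact_mod_cast hj
  have t := cell7 e l l' h0 rfl
  obtain ⟨g1, g2⟩ := abs_le.1 hg
  obtain ⟨y1, y2⟩ := abs_le.1 hy
  have s1 := sq_as j1 hy
  have s2 := sq_as j1 hg
  have s3 := sq_as (x := g - zp k a b d) (α := γ - z) (D := 2 * E) j1
    (abs_le.2 ⟨by linarith, by linarith⟩)
  have s4 := sq_as (x := N * j / 2 - g - g) (α := N / 2 - 2 * γ) (D := 2 * E) j1
    (abs_le.2 ⟨by linarith, by linarith⟩)
  have s5 := sq_as (x := N * j / 2 - g - g + zp k a b d) (α := N / 2 - 2 * γ + z) (D := 3 * E) j1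
    (abs_le.2 ⟨by linarith, by linarith⟩)
  linarith [mul_le_mul_of_nonneg_right h (sq_nonneg (j : ℝ))]

/-- The nine cell bound for links of about `γ * j` and a zigzag of about `z * j`. -/
theorem cell9_as {N γ z : ℝ} (E : ℝ) (h : z ^ 2 + 2 * γ ^ 2 + 2 * (γ - z) ^ 2 +
      (N / 2 - 2 * γ) ^ 2 / 2 + (N / 2 - 2 * γ + z) ^ 2 / 2 + 8 ≤ 2 * N) :
    ∃ C : ℝ, ∀ (V : Type) [Fintype V] [DecidableEq V] (M : ℕ) (k : ℤ → V → ℝ)
      (w : V → V → ℝ) (j : ℕ) (c : ℝ), 1 ≤ j → Env M k w j c N → ∀ (g : ℕ) a b d, Lk M k g a b →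
      Lk M k g b d → zm k a b d = 0 → |g - γ * j| ≤ E → |zp k a b d - z * j| ≤ E →
      (j : ℝ) ^ 2 - C * j ≤ c := by
  refine ⟨((2 * |z| * E + E ^ 2) + 2 * (2 * |γ| * E + E ^ 2) +
    2 * (2 * |γ - z| * (2 * E) + (2 * E) ^ 2) + (2 * |N / 2 - 2 * γ| * (2 * E) + (2 * E) ^ 2) / 2 +
    (2 * |N / 2 - 2 * γ + z| * (3 * E) + (3 * E) ^ 2) / 2 + 1) / 8,
    fun V _ _ M k w j c hj e g a b d l l' h0 hg hy => ?_⟩
  have j1 : (1 : ℝ) ≤ j := by exact_mod_cast hj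
  have t := cell9 e l l' h0 rfl
  obtain ⟨g1, g2⟩ := abs_le.1 hg
  obtain ⟨y1, y2⟩ := abs_le.1 hy
  have s1 := sq_as j1 hy
  have s2 := sq_as j1 hg
  have s3 := sq_as (x := g - zp k a b d) (α := γ - z) (D := 2 * E) j1
    (abs_le.2 ⟨by linarith, by linarith⟩)
  have s4 := sq_as (x := N * j / 2 - g - g) (α := N / 2 - 2 * γ) (D := 2 * E) j1
    (abs_le.2 ⟨by linarith, by linarith⟩)
  have s5 := sq_as (x := N * j / 2 - g - g + zp k a b d) (α := N / 2 - 2 * γ + z) (D := 3 * E) j1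
    (abs_le.2 ⟨by linarith, by linarith⟩)
  linarith [mul_le_mul_of_nonneg_right h (sq_nonneg (j : ℝ))]

theorem tri_cell7 {N z : ℝ} (h : z ^ 2 + 2 * (1 - z) ^ 2 + (N / 2 - 2) ^ 2 +
    (N / 2 - 2 + z) ^ 2 + 8 ≤ 2 * N) : TriAt N z := by
  obtain ⟨C, H⟩ := cell7_as (N := N) (γ := 1) (z := z) 4 (by rw [mul_one]; linarith)
  exact ⟨C, 1, fun V _ _ M k w j c hj e a b d l l' h0 y1 y2 => H V M k w j c hj e j a b d l l' h0
    (by simp) (abs_le.2 ⟨by linarith, by linarith⟩)⟩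

theorem tri_cell9 {N z : ℝ} (h : z ^ 2 + 2 * (1 - z) ^ 2 + (N / 2 - 2) ^ 2 / 2 +
    (N / 2 - 2 + z) ^ 2 / 2 + 10 ≤ 2 * N) : TriAt N z := by
  obtain ⟨C, H⟩ := cell9_as (N := N) (γ := 1) (z := z) 4 (by rw [mul_one]; linarith)
  exact ⟨C, 1, fun V _ _ M k w j c hj e a b d l l' h0 y1 y2 => H V M k w j c hj e j a b d l l' h0
    (by simp) (abs_le.2 ⟨by linarith, by linarith⟩)⟩

end Pool.Agent.P.MP_3c7b76_co.G
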