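import Pool.Agent.P.MP_3c7b76_co.G.KAll

/-! The full statement without general position. -/

namespace Pool.Agent.P.MP_3c7b76_co.G

open Finset Filter Topology S

open Classical in
theorem blow' (core : ∀ N : ℝ, 4 < N → CoreAt N) {U : Type} [Fintype U] [LinearOrder U]
    (p : U → EuclideanSpace ℝ (Fin 2)) (G : SimpleGraph U) (e : ℕ)
    (he : ∑ u, ∑ v, (if G.Adj u v then (1 : ℝ) else 0) = 2 * e)
    (hb : ∀ Y : Finset U, (∑ u ∈ Y, ∑ v ∈ Y, if G.Adj u v then (1 : ℝ) else 0) * Fintype.card U ≤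
      2 * e * Y.card)
    (h4 : 4 * e < Fintype.card U ^ 2) (e0 : 0 < e) :
    ∃ L : AffineSubspace ℝ (EuclideanSpace ℝ (Fin 2)), Module.finrank ℝ L.direction = 1 ∧
      ((e : ℝ) / Fintype.card U) ^ 2 ≤ (({q : U × U | q.1 < q.2 ∧ G.Adj q.1 q.2 ∧
        ((L : Set (EuclideanSpace ℝ (Fin 2))) ∩ segment ℝ (p q.1) (p q.2)).Nonempty}).ncard : ℝ) := by
  by_contra hc
  simp only [not_exists, not_and, not_le] at hc
  set n := Fintype.card U with hn
  have e0' : (0 : ℝ) < e := by exact_mod_cast e0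
  have n0 : 0 < n := by
    rcases Nat.eq_zero_or_pos n with h | h
    · rw [h] at h4; omega
    · exact h
  have n0' : (0 : ℝ) < n := by exact_mod_cast n0
  set r : ℝ := ((e : ℝ) / n) ^ 2 with hr
  have r0 : 0 < r := by positivity
  have r1 : (⌈r⌉₊ : ℝ) - 1 < r := by linarith [Nat.ceil_lt_add_one r0.le]
  obtain ⟨j₀, hj⟩ := core ((n : ℝ) ^ 2 / e)
    (by rw [lt_div_iff₀ e0']; exact_mod_cast h4)
    ((r - (⌈r⌉₊ - 1)) / (2 * r)) (div_pos (by linarith) (by linarith))
  obtain ⟨s, hs⟩ : ∃ s, s = 2 * n * (j₀ + 1) := ⟨_, rfl⟩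
  have hs' : (s : ℝ) = 2 * n * (j₀ + 1) := by exact_mod_cast hs
  have s0 : (0 : ℝ) < s := by rw [hs']; positivity
  obtain ⟨M, k, hM, hA, hk⟩ := allow_any (V := U × Fin s) (fun a => p a.1 0) (fun a => p a.1 1)
  let w0 : U → U → ℝ := fun a b => if G.Adj a b then 1 else 0
  let w : U × Fin s → U × Fin s → ℝ := fun a b => w0 a.1 b.1
  have hw : Wt w := ⟨fun u v => by simp only [w, w0]; split_ifs <;> norm_num,
    fun u v => by simp only [w, w0]; split_ifs <;> norm_num,
    fun u v => by simp only [w, w0, G.adj_comm], fun u => by simp [w, w0]⟩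
  have hcard : Fintype.card (U × Fin s) = n * s := by
    rw [Fintype.card_prod, Fintype.card_fin]
  have hF : ∀ (Y : Finset (U × Fin s)) (f : U → ℝ), ∑ a ∈ Y, f a.1 =
      ∑ u, f u * ((Y.filter fun a => a.1 = u).card : ℝ) := fun Y f => by
    rw [← sum_fiberwise (s := Y) (g := Prod.fst)]
    refine sum_congr rfl fun u _ => ?_
    rw [sum_congr rfl fun a ha => congrArg f (mem_filter.1 ha).2, sum_const, nsmul_eq_mul, mul_comm]
  have hFs : ∀ (Y : Finset (U × Fin s)) u, (Y.filter fun a => a.1 = u).card ≤ s := fun Y u => by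
    have := card_le_card_of_injOn (s := Y.filter fun a => a.1 = u) (t := univ) Prod.snd
      (fun _ _ => mem_coe.2 (mem_univ _)) fun a ha b hb h =>
        Prod.ext ((mem_filter.1 ha).2.trans (mem_filter.1 hb).2.symm) h
    rwa [card_univ, Fintype.card_fin] at this
  have := hj (U × Fin s) M k w (2 * e * (j₀ + 1)) ((s : ℝ) ^ 2 * (⌈r⌉₊ - 1)) (by nlinarith) hw hA hM
    (fun i H hH => ?_) ?_ (fun Y => ?_) (by rw [hcard]; push_cast; rw [hs']; field_simp)
    (by rw [hcard, hs]; exact ⟨n * (n * (j₀ + 1)), by ring⟩)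
  · have a1 : (((2 * e * (j₀ + 1) : ℕ) : ℝ)) ^ 2 = (s : ℝ) ^ 2 * r := by
      rw [hs', hr]; push_cast; field_simp
    have a2 : (1 - (r - (⌈r⌉₊ - 1)) / (2 * r)) * ((s : ℝ) ^ 2 * r) =
        (s : ℝ) ^ 2 * ((r + (⌈r⌉₊ - 1)) / 2) := by field_simp; ring
    rw [a1, a2] at this
    have := le_of_mul_le_mul_left this (by positivity)
    linarith
  · obtain ⟨α, β, g1, g2⟩ := hk i H hH
    obtain ⟨L, L1, L2⟩ := S.exists_line (fun a : U × Fin s => p a.1) (fun a => a ∉ H) g1
      fun a b x y => g2 a b x (not_not.1 y)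
    have c1 := hc L L1
    set Q := {q : U × U | q.1 < q.2 ∧ G.Adj q.1 q.2 ∧
      ((L : Set (EuclideanSpace ℝ (Fin 2))) ∩ segment ℝ (p q.1) (p q.2)).Nonempty} with hQ
    have c2 : (Q.ncard : ℝ) ≤ ⌈r⌉₊ - 1 := by
      have : Q.ncard + 1 ≤ ⌈r⌉₊ := Nat.lt_ceil.2 c1
      have : ((Q.ncard + 1 : ℕ) : ℝ) ≤ ⌈r⌉₊ := by exact_mod_cast this
      push_cast at this
      linarith
    refine le_trans ?_ (mul_le_mul_of_nonneg_left c2 (by positivity))
    have c3 : ((s : ℝ) ^ 2 * Q.ncard) =
        ((Q ×ˢ (Set.univ : Set (Fin s × Fin s))).ncard : ℕ) := by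
      rw [Set.ncard_prod, Set.ncard_univ, Nat.card_prod, Nat.card_fin]
      push_cast
      ring
    unfold ew
    rw [c3, ← sum_product' (f := w), sum_boole, Nat.cast_le, ← Set.ncard_coe_finset]
    refine Set.ncard_le_ncard_of_injOn (fun q => if q.1.1 < q.2.1 then
      ((q.1.1, q.2.1), (q.1.2, q.2.2)) else ((q.2.1, q.1.1), (q.2.2, q.1.2)))
      (fun q hq => ?_) (fun q hq q' hq' h => ?_) (Set.toFinite _)
    · simp only [coe_filter, mem_product, mem_compl, Set.mem_ofPred_eq] at hq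
      have d := L2 q.2 q.1 hq.1.2 (not_not.2 hq.1.1)
      refine ⟨?_, trivial⟩
      split_ifs with c
      · rw [segment_symm] at d
        exact ⟨c, hq.2, d⟩
      · exact ⟨lt_of_le_of_ne (not_lt.1 c) hq.2.ne', hq.2.symm, d⟩
    · simp only [coe_filter, mem_product, mem_compl, Set.mem_ofPred_eq] at hq hq'
      simp only at h
      split_ifs at h <;> simp only [Prod.mk.injEq] at h
      · exact Prod.ext (Prod.ext h.1.1 h.2.1) (Prod.ext h.1.2 h.2.2)
      · exact absurd (Prod.ext h.1.1 h.2.1 ▸ hq.1.1 : q'.2 ∈ H) hq'.1.2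
      · exact absurd (Prod.ext h.1.2 h.2.2 ▸ hq.1.1 : q'.2 ∈ H) hq'.1.2
      · exact Prod.ext (Prod.ext h.1.2 h.2.2) (Prod.ext h.1.1 h.2.1)
  · unfold pot ew
    simp only [w, Fintype.sum_prod_type, sum_const, card_univ, Fintype.card_fin, nsmul_eq_mul,
      ← mul_sum, hcard]
    simp only [w0]
    rw [he]
    push_cast
    rw [hs']
    ring
  · have a1 := layer (w := w0) (d := 2 * e / n) (fun Z => by
      unfold pot ew
      have := hb Z
      rw [← le_div_iff₀ n0'] at this
      have e1 : 2 * (e : ℝ) * Z.card / n = 2 * e / n * Z.card := by ring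
      simp only [w0]
      linarith) fun u => (Y.filter fun a => a.1 = u).card
    have a2 := hF Y fun _ => 1
    simp only [sum_const, nsmul_eq_mul, mul_one, one_mul] at a2
    have a3 : ew w Y Y ≤ s * ∑ u, ∑ v, w0 u v * (min (Y.filter fun a => a.1 = u).card
        (Y.filter fun a => a.1 = v).card : ℕ) := by
      unfold ew
      simp only [w]
      rw [hF Y fun u => ∑ b ∈ Y, w0 u b.1, mul_sum]
      refine sum_le_sum fun u _ => ?_
      rw [hF Y (w0 u), sum_mul, mul_sum]
      refine sum_le_sum fun v _ => ?_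
      have b0 : 0 ≤ w0 u v := by simp only [w0]; split_ifs <;> norm_num
      rw [mul_assoc, mul_left_comm (s : ℝ)]
      refine mul_le_mul_of_nonneg_left ?_ b0
      have b1 := hFs Y u
      have b2 := hFs Y v
      have : (Y.filter fun a => a.1 = v).card * (Y.filter fun a => a.1 = u).card ≤
          s * min (Y.filter fun a => a.1 = u).card (Y.filter fun a => a.1 = v).card := by
        rcases le_total (Y.filter fun a => a.1 = u).card (Y.filter fun a => a.1 = v).card with c | c
        · rw [min_eq_left c]; exact Nat.mul_le_mul_right _ b2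
        · rw [min_eq_right c, mul_comm]; exact Nat.mul_le_mul_right _ b1
      exact_mod_cast this
    have a4 := mul_le_mul_of_nonneg_left a1 s0.le
    have a5 : (s : ℝ) * (2 * e / n * Y.card) = 2 * ((2 * e * (j₀ + 1) : ℕ) : ℝ) * Y.card := by
      rw [hs']; push_cast; field_simp
    rw [← a2, a5] at a4
    unfold pot
    linarith

/-- The full statement, for arbitrary positions of the points. -/
theorem full' (n : ℕ) (p : Fin n → EuclideanSpace ℝ (Fin 2)) (G : SimpleGraph (Fin n)) :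
    ∃ L : AffineSubspace ℝ (EuclideanSpace ℝ (Fin 2)),
      Module.finrank ℝ L.direction = 1 ∧
      ((G.edgeSet.ncard : ℝ) ^ 2 / (n : ℝ) ^ 2 ≤
        (({q : Fin n × Fin n | q.1 < q.2 ∧ G.Adj q.1 q.2 ∧
            ((L : Set (EuclideanSpace ℝ (Fin 2))) ∩
              segment ℝ (p q.1) (p q.2)).Nonempty}).ncard : ℝ)) := by
  classical
  rcases Nat.eq_zero_or_pos n with rfl | hn
  · exact dense 0 p G (by simp)
  have hn' : (0 : ℝ) < n := by exact_mod_cast hn
  obtain ⟨W, hW, hW'⟩ := exists_max_image (univ.filter fun Y : Finset (Fin n) => Y.Nonempty)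
    (fun Y => ((G.induce (Y : Set (Fin n))).edgeSet.ncard : ℝ) / Y.card)
    ⟨{⟨0, hn⟩}, mem_filter.2 ⟨mem_univ _, singleton_nonempty _⟩⟩
  have hW := (mem_filter.1 hW).2
  set e := (G.induce (W : Set (Fin n))).edgeSet.ncard with he
  have hN : (0 : ℝ) < W.card := by exact_mod_cast card_pos.2 hW
  have hmax : ∀ Y : Finset (Fin n), ((G.induce (Y : Set (Fin n))).edgeSet.ncard : ℝ) * W.card ≤
      e * Y.card := fun Y => by
    rcases Y.eq_empty_or_nonempty with rfl | hY
    · have := two_e' G ∅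
      rw [sum_empty] at this
      rw [card_empty, show ((G.induce ((∅ : Finset (Fin n)) : Set (Fin n))).edgeSet.ncard : ℝ) = 0
        by linarith]
      simp
    · exact (div_le_div_iff₀ (by exact_mod_cast card_pos.2 hY) hN).1
        (hW' Y (mem_filter.2 ⟨mem_univ _, hY⟩))
  have hm : (G.edgeSet.ncard : ℝ) ^ 2 / (n : ℝ) ^ 2 ≤ ((e : ℝ) / W.card) ^ 2 := by
    have h1 := two_e G
    have h2 := two_e' G univ
    have h3 := hmax univ
    rw [card_univ, Fintype.card_fin] at h3
    rw [← div_pow]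
    refine pow_le_pow_left₀ (by positivity) ?_ 2
    rw [div_le_div_iff₀ hn' hN]
    have : (G.edgeSet.ncard : ℝ) =
        (G.induce ((univ : Finset (Fin n)) : Set (Fin n))).edgeSet.ncard := by linarith
    rwa [this]
  have hsum : ∀ Y : Finset W, ∑ u ∈ Y, ∑ v ∈ Y,
      (if (G.induce (W : Set (Fin n))).Adj u v then (1 : ℝ) else 0) =
      2 * (G.induce ((Y.map (Function.Embedding.subtype _) : Finset (Fin n)) :
        Set (Fin n))).edgeSet.ncard := by
    intro Y
    rw [two_e', sum_map]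
    refine sum_congr rfl fun u _ => ?_
    rw [sum_map]
    exact sum_congr rfl fun v _ => by simp
  have hsum' : ∑ u : W, ∑ v : W,
      (if (G.induce (W : Set (Fin n))).Adj u v then (1 : ℝ) else 0) = 2 * e := by
    have : (univ : Finset W).map (Function.Embedding.subtype _) = W := by ext x; simp
    rw [hsum, this]
  obtain ⟨L, L1, L2⟩ : ∃ L : AffineSubspace ℝ (EuclideanSpace ℝ (Fin 2)),
      Module.finrank ℝ L.direction = 1 ∧ ((e : ℝ) / Fintype.card W) ^ 2 ≤
      (({q : W × W | q.1 < q.2 ∧ (G.induce (W : Set (Fin n))).Adj q.1 q.2 ∧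
        ((L : Set (EuclideanSpace ℝ (Fin 2))) ∩
          segment ℝ (p q.1) (p q.2)).Nonempty}).ncard : ℝ) := by
    rcases le_or_gt (W.card ^ 2) (4 * e) with h4 | h4
    · exact denseU (U := W) (fun a => p a) _ e (by convert hsum')
        (by rwa [Fintype.card_coe])
    rcases Nat.eq_zero_or_pos e with e0 | e0
    · obtain ⟨L, L1, -⟩ := dense 0 (fun _ => 0) ⊥ (by simp)
      exact ⟨L, L1, by rw [e0]; simp⟩
    · refine blow' (core_all tab23 tab34 tabAB tabNA tabNB) (U := W) (fun a => p a) _ e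
        (by convert hsum') (fun Y => ?_) (by rwa [Fintype.card_coe]) e0
      have h1 := hmax (Y.map (Function.Embedding.subtype _))
      have h2 := hsum Y
      rw [card_map] at h1
      rw [Fintype.card_coe]
      have h3 : (∑ u ∈ Y, ∑ v ∈ Y,
          (if (G.induce (W : Set (Fin n))).Adj u v then (1 : ℝ) else 0)) * W.card ≤
          2 * e * Y.card := by
        rw [h2]
        linarith
      convert h3
  rw [Fintype.card_coe] at L2
  refine ⟨L, L1, hm.trans (L2.trans (Nat.cast_le.2 (Set.ncard_le_ncard_of_injOn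
    (fun q => (q.1.1, q.2.1)) (fun q hq => hq) (fun q _ q' _ h => ?_) (Set.toFinite _))))⟩
  simp only [Prod.mk.injEq] at h
  exact Prod.ext (Subtype.ext h.1) (Subtype.ext h.2)

end Pool.Agent.P.MP_3c7b76_co.G
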